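import Pool.Agent.Q201.AR.Stm

set_option autoImplicit false

/-!
Project AR (helper201), job BACK: composition of a formula with a definable map.
-/

open FirstOrder FirstOrder.Language

namespace Pool.Agent.Q153.AR

open Q201.AR

theorem t_BACK : S_BACK := by
  intro L n Q ψ
  refine ⟨Formula.iExs (Fin n)
    ((Formula.iInf fun l : Fin n =>
      Formula.relabel (![Sum.inl l, Sum.inr l] : Fin 2 → Fin n ⊕ Fin n) Q) ⊓
      Formula.relabel (Sum.inr : Fin n → Fin n ⊕ Fin n) ψ), ?_⟩
  intro M _ ι hQ u
  rw [Formula.realize_iExs]
  constructor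
  · rintro ⟨w, hw⟩
    rw [Formula.realize_inf] at hw
    obtain ⟨h1, h2⟩ := hw
    rw [Formula.realize_iInf] at h1
    have h3 : w = ι ∘ u := by
      funext l
      have h := h1 l
      rw [Formula.realize_relabel, hQ] at h
      simpa using h.symm
    rw [Formula.realize_relabel] at h2
    have h4 : (Sum.elim u w ∘ (Sum.inr : Fin n → Fin n ⊕ Fin n)) = w := by
      funext l
      rfl
    rw [h4, h3] at h2
    exact h2
  · intro h
    refine ⟨ι ∘ u, ?_⟩
    rw [Formula.realize_inf]
    constructor
    · rw [Formula.realize_iInf]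
      intro l
      rw [Formula.realize_relabel, hQ]
      simp
    · rw [Formula.realize_relabel]
      exact h

end Pool.Agent.Q153.AR
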