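import Mathlib
import Pool.Agent.Q82.BC.Stm

set_option autoImplicit false

/-!
# Project BC (helper82), job CVD2 (helper153): derivatives of the convolution
-/

open MeasureTheory Filter Topology Set
open Pool.Agent.Q82.BB (chi mu lam IsSh cv Nl Good UU Tower)

namespace Pool.Agent.Q82.BC

/-- Bounds for `τ ≥ a`. -/
def cvd2_B (T a : ℝ) (w : ℝ → ℝ → ℂ) (Ds : ℕ → ℝ) : Prop :=
  (∀ τ ∈ Ioc 0 T, ∀ n : ℕ, ContDiff ℝ n (fun ξ => w ξ τ)) ∧
  (∀ i : ℕ, 0 ≤ Ds i) ∧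
  ∀ i : ℕ, ∀ ξ : ℝ, ∀ τ ∈ Ioc 0 T, a ≤ τ →
    ‖iteratedDeriv i (fun ξ => w ξ τ) ξ‖ ≤ Ds i / (1 + |ξ|)

theorem cvd2_er {a τ : ℝ} (ha : 0 < a) (h : a ≤ τ) (ξ : ℝ) :
    (1 + |ξ|) * er ξ τ ≤ (1 + 32 / √a + 512 / a) / (1 + |ξ|) := by
  have h0 : 0 ≤ |ξ| := abs_nonneg ξ
  have hs : 0 < √a := Real.sqrt_pos.2 ha
  have hss : √a * √a = a := Real.mul_self_sqrt ha.le
  obtain ⟨y, hy⟩ : ∃ y, y = √a * |ξ| / 16 := ⟨_, rfl⟩
  have hy0 : 0 ≤ y := by rw [hy]; positivity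
  have hexp : 1 + y + y ^ 2 / 2 ≤ Real.exp y := Real.quadratic_le_exp_of_nonneg hy0
  have h1 : er ξ τ ≤ Real.exp (-y) := by
    unfold er
    refine Real.exp_le_exp.2 ?_
    rw [hy, neg_le_neg_iff]
    have := mul_le_mul_of_nonneg_right (Real.sqrt_le_sqrt h) h0
    linarith
  have hx : |ξ| = 16 * y / √a := by
    rw [hy]
    field_simp
  have h2 : (1 + |ξ|) * (1 + |ξ|) ≤ (1 + 32 / √a + 512 / a) * Real.exp y := by
    have e1 : (1 + |ξ|) * (1 + |ξ|) = 1 + 32 / √a * y + 512 / a * (y ^ 2 / 2) := by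
      have e2 : 512 / a = 512 / (√a * √a) := by rw [hss]
      rw [hx, e2]
      field_simp
      ring
    have n1 : 0 ≤ 32 / √a := by positivity
    have n2 : 0 ≤ 512 / a := by positivity
    have n3 : 0 ≤ y ^ 2 / 2 := by positivity
    calc (1 + |ξ|) * (1 + |ξ|) = 1 + 32 / √a * y + 512 / a * (y ^ 2 / 2) := e1
      _ ≤ (1 + 32 / √a + 512 / a) * (1 + y + y ^ 2 / 2) := by
        nlinarith [mul_nonneg n1 hy0, mul_nonneg n2 hy0, mul_nonneg n1 n3, mul_nonneg n2 n3]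
      _ ≤ (1 + 32 / √a + 512 / a) * Real.exp y :=
        mul_le_mul_of_nonneg_left hexp (by positivity)
  rw [le_div_iff₀ (by linarith)]
  calc (1 + |ξ|) * er ξ τ * (1 + |ξ|) = (1 + |ξ|) * (1 + |ξ|) * er ξ τ := by ring
    _ ≤ (1 + |ξ|) * (1 + |ξ|) * Real.exp (-y) :=
      mul_le_mul_of_nonneg_left h1 (by positivity)
    _ ≤ (1 + 32 / √a + 512 / a) * Real.exp y * Real.exp (-y) :=
      mul_le_mul_of_nonneg_right h2 (Real.exp_pos _).le
    _ = 1 + 32 / √a + 512 / a := by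
      rw [mul_assoc, ← Real.exp_add, add_neg_cancel, Real.exp_zero, mul_one]

variable {T a : ℝ} {w : ℝ → ℝ → ℂ} {Cs Ds : ℕ → ℝ}

theorem cvd2_of (h : Adm2 T w Cs) (ha : 0 < a) :
    cvd2_B T a w (fun i => Cs i * (1 + 32 / √a + 512 / a)) := by
  refine ⟨h.1, fun i => mul_nonneg (h.2.2.1 i) (by positivity), fun i ξ τ hτ hle => ?_⟩
  refine (h.2.2.2 i ξ τ hτ).trans ?_
  rw [mul_div_assoc]
  exact mul_le_mul_of_nonneg_left (cvd2_er ha hle ξ) (h.2.2.1 i)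

theorem cvd2_prod (h : cvd2_B T a w Ds) (i : ℕ) {τ : ℝ} (hτ : τ ∈ Ioc 0 T) (hle : a ≤ τ) {ξ x : ℝ}
    (hx : |x - ξ| < 1) (η : ℝ) :
    ‖w η τ * iteratedDeriv i (fun ξ => w ξ τ) (x - η)‖ ≤
      Ds 0 * Ds i * (2 + |ξ|) * (1 + ‖η‖) ^ (-2 : ℝ) := by
  have a0 : ‖w η τ‖ ≤ Ds 0 / (1 + |η|) := by
    have := h.2.2 0 η τ hτ hle
    rwa [iteratedDeriv_zero] at this
  have a1 := h.2.2 i (x - η) τ hτ hle
  have c0 := h.2.1 0
  have ci := h.2.1 i
  have n0 : 0 ≤ |η| := abs_nonneg η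
  have n1 : 0 ≤ |x - η| := abs_nonneg _
  have n2 : 0 ≤ |ξ| := abs_nonneg ξ
  have b1 : |η| ≤ |x - η| + (|x - ξ| + |ξ|) := by
    have e1 : |η| ≤ |x - η| + |x| := by
      have := abs_sub_abs_le_abs_sub η x
      rw [abs_sub_comm η x] at this
      linarith
    have e2 : |x| ≤ |x - ξ| + |ξ| := by
      have := abs_sub_abs_le_abs_sub x ξ
      linarith
    linarith
  have b2 : 1 / (1 + |x - η|) ≤ (2 + |ξ|) / (1 + |η|) := by
    rw [div_le_div_iff₀ (by linarith) (by linarith)]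
    nlinarith [mul_nonneg n1 n2]
  rw [norm_mul]
  have e : (1 + ‖η‖) ^ (-2 : ℝ) = 1 / (1 + |η|) * (1 / (1 + |η|)) := by
    rw [Real.norm_eq_abs, Real.rpow_neg (by linarith), show (2 : ℝ) = ((2 : ℕ) : ℝ) by norm_num,
      Real.rpow_natCast, sq, mul_inv, one_div]
  rw [e]
  calc ‖w η τ‖ * ‖iteratedDeriv i (fun ξ => w ξ τ) (x - η)‖ ≤
      (Ds 0 / (1 + |η|)) * (Ds i / (1 + |x - η|)) :=
        mul_le_mul a0 a1 (norm_nonneg _) (by positivity)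
    _ = Ds 0 * Ds i * (1 / (1 + |η|)) * (1 / (1 + |x - η|)) := by ring
    _ ≤ Ds 0 * Ds i * (1 / (1 + |η|)) * ((2 + |ξ|) / (1 + |η|)) :=
        mul_le_mul_of_nonneg_left b2 (by positivity)
    _ = _ := by ring

theorem cvd2_int (C : ℝ) : Integrable fun η : ℝ => C * (1 + ‖η‖) ^ (-2 : ℝ) := by
  refine Integrable.const_mul ?_ C
  exact integrable_one_add_norm (by simp)

theorem cvd2_cont (h : cvd2_B T a w Ds) (i : ℕ) {τ : ℝ} (hτ : τ ∈ Ioc 0 T) :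
    Continuous (iteratedDeriv i (fun ξ => w ξ τ)) :=
  (h.1 τ hτ i).continuous_iteratedDeriv i le_rfl

theorem cvd2_meas (h : cvd2_B T a w Ds) (i : ℕ) {τ : ℝ} (hτ : τ ∈ Ioc 0 T) (x : ℝ) :
    AEStronglyMeasurable (fun η => w η τ * iteratedDeriv i (fun ξ => w ξ τ) (x - η)) volume := by
  have c0 := cvd2_cont h 0 hτ
  rw [iteratedDeriv_zero] at c0
  have c1 := cvd2_cont h i hτ
  exact (c0.mul (c1.comp (continuous_const.sub continuous_id))).aestronglyMeasurable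

theorem cvd2_deriv (h : cvd2_B T a w Ds) (i : ℕ) {τ : ℝ} (hτ : τ ∈ Ioc 0 T) (hle : a ≤ τ)
    (ξ : ℝ) :
    HasDerivAt (fun x => ∫ η, w η τ * iteratedDeriv i (fun ξ => w ξ τ) (x - η))
      (∫ η, w η τ * iteratedDeriv (i + 1) (fun ξ => w ξ τ) (ξ - η)) ξ := by
  refine (hasDerivAt_integral_of_dominated_loc_of_deriv_le (s := Metric.ball ξ 1)
    (F := fun x η => w η τ * iteratedDeriv i (fun ξ => w ξ τ) (x - η))
    (F' := fun x η => w η τ * iteratedDeriv (i + 1) (fun ξ => w ξ τ) (x - η))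
    (bound := fun η => Ds 0 * Ds (i + 1) * (2 + |ξ|) * (1 + ‖η‖) ^ (-2 : ℝ))
    (Metric.ball_mem_nhds ξ one_pos) (Eventually.of_forall fun x => cvd2_meas h i hτ x) ?_
    (cvd2_meas h (i + 1) hτ ξ) (Eventually.of_forall fun η x hx => ?_) (cvd2_int _)
    (Eventually.of_forall fun η x _ => ?_)).2
  · refine Integrable.mono' (cvd2_int (Ds 0 * Ds i * (2 + |ξ|))) (cvd2_meas h i hτ ξ)
      (Eventually.of_forall fun η => ?_)
    exact cvd2_prod h i hτ hle (by rw [sub_self, abs_zero]; exact one_pos) η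
  · rw [Metric.mem_ball, Real.dist_eq] at hx
    exact cvd2_prod h (i + 1) hτ hle hx η
  · refine HasDerivAt.const_mul _ ?_
    refine HasDerivAt.comp_sub_const x η ?_
    rw [iteratedDeriv_succ]
    have hc : ContDiff ℝ ((i + 1 : ℕ) : ℕ∞) (fun ξ => w ξ τ) := h.1 τ hτ (i + 1)
    have hd : Differentiable ℝ (iteratedDeriv i (fun ξ => w ξ τ)) :=
      hc.differentiable_iteratedDeriv i (by exact_mod_cast Nat.lt_succ_self i)
    exact (hd _).hasDerivAt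

theorem cvd2_iter (h : cvd2_B T a w Ds) {τ : ℝ} (hτ : τ ∈ Ioc 0 T) (hle : a ≤ τ) (i : ℕ) :
    iteratedDeriv i (fun ξ => cv w w ξ τ) =
      fun ξ => ∫ η, w η τ * iteratedDeriv i (fun ξ => w ξ τ) (ξ - η) := by
  induction i with
  | zero =>
    funext ξ
    simp only [iteratedDeriv_zero]
    rfl
  | succ k ih =>
    rw [iteratedDeriv_succ, ih]
    funext ξ
    exact (cvd2_deriv h k hτ hle ξ).deriv

/-- JOB CVD2 -/
theorem cvd2 : S_CVD2 := by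
  intro T w Cs _ h
  refine ⟨fun τ hτ n => ?_, fun i τ hτ ξ => ?_, fun i => ?_⟩
  · have hB := cvd2_of h hτ.1
    refine contDiff_of_differentiable_iteratedDeriv (n := (n : ℕ∞)) fun m _ => ?_
    rw [cvd2_iter hB hτ le_rfl m]
    exact fun ξ => (cvd2_deriv hB m hτ le_rfl ξ).differentiableAt
  · rw [cvd2_iter (cvd2_of h hτ.1) hτ le_rfl i]
  · have heq : ∀ q ∈ (univ : Set ℝ) ×ˢ Ioc 0 T, iteratedDeriv i (fun ξ => cv w w ξ q.2) q.1 =
        ∫ η, w η q.2 * iteratedDeriv i (fun ξ => w ξ q.2) (q.1 - η) := by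
      intro q hq
      rw [cvd2_iter (cvd2_of h hq.2.1) hq.2 le_rfl i]
    refine ContinuousOn.congr ?_ heq
    intro q0 hq0
    obtain ⟨a, ha⟩ : ∃ a, a = q0.2 / 2 := ⟨_, rfl⟩
    have hq02 : 0 < q0.2 := hq0.2.1
    have ha0 : 0 < a := by rw [ha]; linarith
    have hB := cvd2_of h ha0
    have hs : ∀ᶠ q in 𝓝[univ ×ˢ Ioc 0 T] q0, q.2 ∈ Ioc 0 T ∧ a ≤ q.2 ∧ |q.1 - q0.1| < 1 := by
      have h1 : ∀ᶠ q in 𝓝[univ ×ˢ Ioc 0 T] q0, q ∈ (univ : Set ℝ) ×ˢ Ioc 0 T :=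
        eventually_mem_nhdsWithin
      have h2 : ∀ᶠ q : ℝ × ℝ in 𝓝[univ ×ˢ Ioc 0 T] q0, |q.1 - q0.1| < 1 := by
        refine eventually_nhdsWithin_of_eventually_nhds ?_
        have hc : Continuous fun q : ℝ × ℝ => |q.1 - q0.1| := by fun_prop
        have h3 := hc.tendsto q0
        rw [sub_self, abs_zero] at h3
        exact h3.eventually (gt_mem_nhds one_pos)
      have h3 : ∀ᶠ q : ℝ × ℝ in 𝓝[univ ×ˢ Ioc 0 T] q0, a ≤ q.2 := by
        refine eventually_nhdsWithin_of_eventually_nhds ?_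
        have h4 : Tendsto (fun q : ℝ × ℝ => q.2) (𝓝 q0) (𝓝 q0.2) := continuous_snd.tendsto q0
        exact (h4.eventually (lt_mem_nhds (show a < q0.2 by rw [ha]; linarith))).mono
          fun q hq => hq.le
      exact h1.mp (h2.mp (h3.mono fun q c b a' => ⟨a'.2, c, b⟩))
    refine continuousWithinAt_of_dominated
      (bound := fun η => (Cs 0 * (1 + 32 / √a + 512 / a)) * (Cs i * (1 + 32 / √a + 512 / a)) *
        (2 + |q0.1|) * (1 + ‖η‖) ^ (-2 : ℝ))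
      (hs.mono fun q hq => cvd2_meas hB i hq.1 q.1)
      (hs.mono fun q hq => Eventually.of_forall fun η => cvd2_prod hB i hq.1 hq.2.1 hq.2.2 η)
      (cvd2_int _)
      (Eventually.of_forall fun η => ?_)
    have c0 : ContinuousWithinAt (fun q : ℝ × ℝ => w η q.2) (univ ×ˢ Ioc 0 T) q0 := by
      have h1 := h.2.1 0
      simp only [iteratedDeriv_zero] at h1
      have h2 : ContinuousOn (fun q : ℝ × ℝ => (η, q.2)) (univ ×ˢ Ioc 0 T) :=
        Continuous.continuousOn (by fun_prop)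
      exact (h1.comp h2 fun q hq => ⟨mem_univ _, hq.2⟩) q0 hq0
    have c1 : ContinuousWithinAt (fun q : ℝ × ℝ => iteratedDeriv i (fun ξ => w ξ q.2) (q.1 - η))
        (univ ×ˢ Ioc 0 T) q0 := by
      have h1 := h.2.1 i
      have h2 : ContinuousOn (fun q : ℝ × ℝ => (q.1 - η, q.2)) (univ ×ˢ Ioc 0 T) :=
        Continuous.continuousOn (by fun_prop)
      exact (h1.comp h2 fun q hq => ⟨mem_univ _, hq.2⟩) q0 hq0
    exact c0.mul c1

end Pool.Agent.Q82.BC
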