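import Mathlib

/-!
# Braid classes of reduced words: windows, tokens, and the braid graph

Common definitions and facts for the results on braid graphs of simply-laced Coxeter systems.
-/

set_option autoImplicit false

namespace Pool.Agent.Q153.Braid

variable {B : Type*}

/-- `b` arises from `a` by the braid move on the letters number `p + 1, p + 2, p + 3`. -/
def MoveAt (M : CoxeterMatrix B) (p : ℕ) (a b : List B) : Prop :=
  ∃ l r s t, M s t = 3 ∧ l.length = p ∧ a = l ++ [s, t, s] ++ r ∧ b = l ++ [t, s, t] ++ r

/-- A braid move. -/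
def Move (M : CoxeterMatrix B) (a b : List B) : Prop := ∃ p, MoveAt M p a b

/-- The braid class: everything reached by a finite sequence of braid moves. -/
def braidClass (M : CoxeterMatrix B) (a : List B) : Set (List B) :=
  {b | Relation.ReflTransGen (Move M) a b}

/-- The Coxeter matrix is simply laced. -/
def SimplyLaced (M : CoxeterMatrix B) : Prop := ∀ s t, s ≠ t → M s t = 2 ∨ M s t = 3

theorem ne_of_three {M : CoxeterMatrix B} {s t : B} (h : M s t = 3) : s ≠ t := by
  rintro rfl
  rw [M.diagonal] at h
  omega

theorem MoveAt.symm {M : CoxeterMatrix B} {p : ℕ} {a b : List B} (h : MoveAt M p a b) :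
    MoveAt M p b a := by
  obtain ⟨l, r, s, t, h1, h2, h3, h4⟩ := h
  exact ⟨l, r, t, s, by rw [M.symmetric]; exact h1, h2, h4, h3⟩

theorem Move.symm {M : CoxeterMatrix B} {a b : List B} (h : Move M a b) : Move M b a := by
  obtain ⟨p, h⟩ := h
  exact ⟨p, h.symm⟩

theorem MoveAt.letters {M : CoxeterMatrix B} {p : ℕ} {a b : List B} (h : MoveAt M p a b) :
    ∃ s t, M s t = 3 ∧ a[p]? = some s ∧ a[p + 1]? = some t ∧ a[p + 2]? = some s ∧
      b[p]? = some t ∧ b[p + 1]? = some s ∧ b[p + 2]? = some t := by
  obtain ⟨l, r, s, t, h1, rfl, rfl, rfl⟩ := h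
  refine ⟨s, t, h1, ?_⟩
  simp

theorem MoveAt.outside {M : CoxeterMatrix B} {p : ℕ} {a b : List B} (h : MoveAt M p a b) {q : ℕ}
    (hq : q < p ∨ p + 3 ≤ q) : a[q]? = b[q]? := by
  obtain ⟨l, r, s, t, h1, rfl, rfl, rfl⟩ := h
  rcases hq with hq | hq
  · rw [List.append_assoc, List.append_assoc, List.getElem?_append_left hq,
      List.getElem?_append_left hq]
  · rw [List.getElem?_append_right (by simp; omega), List.getElem?_append_right (by simp; omega)]
    simp

theorem MoveAt.unique {M : CoxeterMatrix B} {p : ℕ} {a b c : List B} (h1 : MoveAt M p a b)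
    (h2 : MoveAt M p a c) : b = c := by
  apply List.ext_getElem?
  intro q
  by_cases hq : q < p ∨ p + 3 ≤ q
  · rw [← h1.outside hq, ← h2.outside hq]
  · obtain ⟨s, t, -, a0, a1, a2, b0, b1, b2⟩ := h1.letters
    obtain ⟨s', t', -, a0', a1', a2', c0, c1, c2⟩ := h2.letters
    have hs : s = s' := by rw [a0] at a0'; exact Option.some.inj a0'
    have ht : t = t' := by rw [a1] at a1'; exact Option.some.inj a1'
    subst hs ht
    have : q = p ∨ q = p + 1 ∨ q = p + 2 := by omega
    rcases this with rfl | rfl | rfl
    · rw [b0, c0]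
    · rw [b1, c1]
    · rw [b2, c2]

/-- A move is determined by the letters. -/
theorem moveAt_of_letters {M : CoxeterMatrix B} {p : ℕ} {a b : List B} {s t : B}
    (hst : M s t = 3) (a0 : a[p]? = some s) (a1 : a[p + 1]? = some t) (a2 : a[p + 2]? = some s)
    (b0 : b[p]? = some t) (b1 : b[p + 1]? = some s) (b2 : b[p + 2]? = some t)
    (hout : ∀ q, (q < p ∨ p + 3 ≤ q) → a[q]? = b[q]?) : MoveAt M p a b := by
  have hla : p + 3 ≤ a.length := by
    have := (List.getElem?_eq_some_iff.mp a2).1
    omega
  have hlb : p + 3 ≤ b.length := by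
    have := (List.getElem?_eq_some_iff.mp b2).1
    omega
  refine ⟨a.take p, a.drop (p + 3), s, t, hst, by simp; omega, ?_, ?_⟩
  · apply List.ext_getElem?
    intro q
    by_cases hq : q < p
    · rw [List.append_assoc, List.getElem?_append_left (by simp; omega),
        List.getElem?_take_of_lt hq]
    · by_cases hq2 : p + 3 ≤ q
      · rw [List.getElem?_append_right (by simp; omega), List.getElem?_drop]
        congr 1
        simp
        omega
      · rw [List.append_assoc, List.getElem?_append_right (by simp; omega)]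
        have : q = p ∨ q = p + 1 ∨ q = p + 2 := by omega
        have hmin : min p a.length = p := by omega
        rcases this with rfl | rfl | rfl
        · simp [a0, hmin]
        · simp [a1, hmin]
        · simp [a2, hmin]
  · apply List.ext_getElem?
    intro q
    by_cases hq : q < p
    · rw [List.append_assoc, List.getElem?_append_left (by simp; omega),
        List.getElem?_take_of_lt hq, hout q (Or.inl hq)]
    · by_cases hq2 : p + 3 ≤ q
      · rw [List.getElem?_append_right (by simp; omega), List.getElem?_drop,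
          ← hout q (Or.inr hq2)]
        congr 1
        simp
        omega
      · rw [List.append_assoc, List.getElem?_append_right (by simp; omega)]
        have : q = p ∨ q = p + 1 ∨ q = p + 2 := by omega
        have hmin : min p a.length = p := by omega
        rcases this with rfl | rfl | rfl
        · simp [b0, hmin]
        · simp [b1, hmin]
        · simp [b2, hmin]

theorem MoveAt.length_eq {M : CoxeterMatrix B} {p : ℕ} {a b : List B} (h : MoveAt M p a b) :
    a.length = b.length := by
  obtain ⟨l, r, s, t, h1, rfl, rfl, rfl⟩ := h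
  simp

theorem MoveAt.lt {M : CoxeterMatrix B} {p : ℕ} {a b : List B} (h : MoveAt M p a b) :
    p + 2 < a.length := by
  obtain ⟨l, r, s, t, h1, rfl, rfl, rfl⟩ := h
  simp

section group

variable {W : Type*} [Group W] {M : CoxeterMatrix B} (cs : CoxeterSystem M W)

theorem braid_rel {s t : B} (h : M s t = 3) :
    cs.simple s * cs.simple t * cs.simple s = cs.simple t * cs.simple s * cs.simple t := by
  have h1 := cs.simple_mul_simple_pow s t
  rw [h] at h1
  have h2 : (cs.simple s * cs.simple t * cs.simple s) *
      (cs.simple t * cs.simple s * cs.simple t) = 1 := by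
    rw [← h1]; group
    simp [pow_succ, mul_assoc]
  have h3 : (cs.simple t * cs.simple s * cs.simple t) *
      (cs.simple t * cs.simple s * cs.simple t) = 1 := by
    simp [mul_assoc]
  exact mul_right_cancel (h2.trans h3.symm)

theorem MoveAt.wordProd {p : ℕ} {a b : List B} (h : MoveAt M p a b) :
    cs.wordProd a = cs.wordProd b := by
  obtain ⟨l, r, s, t, h1, rfl, rfl, rfl⟩ := h
  have := braid_rel cs h1
  simp only [cs.wordProd_append, cs.wordProd_cons, cs.wordProd_nil, mul_one]
  rw [← mul_assoc, ← mul_assoc, ← mul_assoc] at *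
  rw [mul_assoc (cs.wordProd l), mul_assoc (cs.wordProd l), this]
  simp [mul_assoc]

theorem MoveAt.isReduced {p : ℕ} {a b : List B} (h : MoveAt M p a b) (ha : cs.IsReduced a) :
    cs.IsReduced b := by
  unfold CoxeterSystem.IsReduced at *
  rw [← h.wordProd cs, ← h.length_eq, ha]

theorem isReduced_of_mem {a b : List B} (ha : cs.IsReduced a)
    (h : Relation.ReflTransGen (Move M) a b) : cs.IsReduced b := by
  induction h with
  | refl => exact ha
  | tail _ h ih =>
    obtain ⟨p, h⟩ := h
    exact h.isReduced cs ih

theorem length_of_mem {a b : List B} (h : Relation.ReflTransGen (Move M) a b) :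
    a.length = b.length := by
  induction h with
  | refl => rfl
  | tail _ h ih =>
    obtain ⟨p, h⟩ := h
    exact ih.trans h.length_eq

theorem conn_symm {a b : List B} (h : Relation.ReflTransGen (Move M) a b) :
    Relation.ReflTransGen (Move M) b a := by
  induction h with
  | refl => exact Relation.ReflTransGen.refl
  | tail _ h ih => exact Relation.ReflTransGen.head h.symm ih

/-- A braid move is possible at the window `p + 1, p + 2, p + 3`. -/
def Active (M : CoxeterMatrix B) (p : ℕ) (a : List B) : Prop := ∃ b, MoveAt M p a b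

theorem Active.letters {p : ℕ} {a : List B} (h : Active M p a) :
    ∃ s t, M s t = 3 ∧ a[p]? = some s ∧ a[p + 1]? = some t ∧ a[p + 2]? = some s := by
  obtain ⟨b, h⟩ := h
  obtain ⟨s, t, h1, h2, h3, h4, -⟩ := h.letters
  exact ⟨s, t, h1, h2, h3, h4⟩

theorem MoveAt.active {p : ℕ} {a b : List B} (h : MoveAt M p a b) : Active M p a := ⟨b, h⟩

theorem MoveAt.active' {p : ℕ} {a b : List B} (h : MoveAt M p a b) : Active M p b := ⟨a, h.symm⟩

/-- A word containing the factor `s t s t` is not reduced. -/
theorem not_isReduced_stst {s t : B} (h : M s t = 3) (l r : List B) :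
    ¬ cs.IsReduced (l ++ [s, t, s, t] ++ r) := by
  intro hr
  have h1 : cs.IsReduced (l ++ [s, t, s, t]) := by
    have := hr.take (l ++ [s, t, s, t]).length
    rwa [List.take_left] at this
  have h2 : cs.IsReduced [s, t, s, t] := by
    have := h1.drop l.length
    rwa [List.drop_left] at this
  have h3 : cs.wordProd [s, t, s, t] = cs.wordProd [t, s] := by
    have := braid_rel cs h
    simp only [cs.wordProd_cons, cs.wordProd_nil, mul_one]
    rw [← mul_assoc (cs.simple t), ← this]
    simp [mul_assoc]
  have h4 := h2.eq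
  rw [h3] at h4
  have h5 := cs.length_wordProd_le [t, s]
  simp at h4 h5
  omega

/-- **No two adjacent windows are active in one braid class.** -/
theorem not_adjacent_aux (k : ℕ) : ∀ f : ℕ → List B, cs.IsReduced (f 0) →
    (∀ i < k, Move M (f i) (f (i + 1))) → ∀ q, Active M q (f 0) → ¬ Active M (q + 1) (f k) := by
  induction k using Nat.strong_induction_on with
  | _ k ih =>
  intro f hred hf q hq hq'
  have hred' : ∀ i, i ≤ k → cs.IsReduced (f i) := by
    intro i
    induction i with
    | zero => intro _; exact hred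
    | succ i ihi =>
      intro hi
      obtain ⟨p, hp⟩ := hf i (by omega)
      exact hp.isReduced cs (ihi (by omega))
  -- the reversed form
  have ih' : ∀ j < k, ∀ g : ℕ → List B, cs.IsReduced (g 0) →
      (∀ i < j, Move M (g i) (g (i + 1))) → ∀ q, Active M (q + 1) (g 0) → ¬ Active M q (g j) := by
    intro j hj g hg1 hg2 q h1 h2
    have hg1' : cs.IsReduced (g j) := by
      have : ∀ i, i ≤ j → cs.IsReduced (g i) := by
        intro i
        induction i with
        | zero => intro _; exact hg1
        | succ i ihi =>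
          intro hi
          obtain ⟨p, hp⟩ := hg2 i (by omega)
          exact hp.isReduced cs (ihi (by omega))
      exact this j le_rfl
    refine ih j hj (fun i => g (j - i)) (by simpa using hg1') ?_ q (by simpa using h2)
      (by simpa using h1)
    intro i hi
    have := (hg2 (j - (i + 1)) (by omega)).symm
    have e : j - (i + 1) + 1 = j - i := by omega
    rw [e] at this
    exact this
  -- all moves are far from the window
  have hfar : ∀ i < k, ∃ m, MoveAt M m (f i) (f (i + 1)) ∧ (m + 2 ≤ q ∨ q + 3 ≤ m) := by
    intro i hi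
    obtain ⟨m, hm⟩ := hf i hi
    refine ⟨m, hm, ?_⟩
    have h1 : m ≠ q + 1 := by
      rintro rfl
      exact ih i hi f hred (fun j hj => hf j (by omega)) q hq hm.active
    have h2 : m + 1 ≠ q := by
      rintro rfl
      exact ih' i hi f hred (fun j hj => hf j (by omega)) m hq hm.active
    have hsub : ∀ j < k - (i + 1), Move M (f (i + 1 + j)) (f (i + 1 + (j + 1))) := by
      intro j hj
      have := hf (i + 1 + j) (by omega)
      rwa [add_assoc (i + 1)] at this
    have hend : i + 1 + (k - (i + 1)) = k := by omega
    have h3 : m ≠ q := by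
      rintro rfl
      refine ih (k - (i + 1)) (by omega) (fun j => f (i + 1 + j)) (hred' _ (by omega)) hsub m
        hm.active' ?_
      simpa [hend] using hq'
    have h4 : m ≠ q + 2 := by
      rintro rfl
      refine ih' (k - (i + 1)) (by omega) (fun j => f (i + 1 + j)) (hred' _ (by omega)) hsub
        (q + 1) hm.active' ?_
      simpa [hend] using hq'
    omega
  -- length
  have hlen : ∀ i, i ≤ k → (f i).length = (f 0).length := by
    intro i
    induction i with
    | zero => intro _; rfl
    | succ i ihi =>
      intro hi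
      obtain ⟨m, hm, -⟩ := hfar i (by omega)
      rw [← hm.length_eq, ihi (by omega)]
  -- the middle letters do not change
  have hmid : ∀ i, i ≤ k → (f i)[q + 1]? = (f 0)[q + 1]? ∧ (f i)[q + 2]? = (f 0)[q + 2]? := by
    intro i
    induction i with
    | zero => intro _; exact ⟨rfl, rfl⟩
    | succ i ihi =>
      intro hi
      obtain ⟨m, hm, hm'⟩ := hfar i (by omega)
      obtain ⟨h1, h2⟩ := ihi (by omega)
      constructor
      · rw [← hm.outside (by omega), h1]
      · rw [← hm.outside (by omega), h2]
  -- products of the right parts do not change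
  have hprod : ∀ i, i ≤ k → cs.wordProd ((f i).drop (q + 3)) = cs.wordProd ((f 0).drop (q + 3)) := by
    intro i
    induction i with
    | zero => intro _; rfl
    | succ i ihi =>
      intro hi
      obtain ⟨m, hm, hm'⟩ := hfar i (by omega)
      rw [← ihi (by omega)]
      rcases hm' with hm' | hm'
      · congr 1
        apply List.ext_getElem?
        intro j
        rw [List.getElem?_drop, List.getElem?_drop, hm.outside (by omega)]
      · have h1 : (f i).take (q + 3) = (f (i + 1)).take (q + 3) := by
          apply List.ext_getElem?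
          intro j
          by_cases hj : j < q + 3
          · rw [List.getElem?_take_of_lt hj, List.getElem?_take_of_lt hj, hm.outside (by omega)]
          · rw [List.getElem?_take_eq_none (by omega), List.getElem?_take_eq_none (by omega)]
        have h2 := hm.wordProd cs
        rw [← List.take_append_drop (q + 3) (f i), ← List.take_append_drop (q + 3) (f (i + 1)),
          cs.wordProd_append, cs.wordProd_append, h1] at h2
        exact (mul_left_cancel h2).symm
  obtain ⟨s, t, hst, a0, a1, a2⟩ := hq.letters
  obtain ⟨t', s', hst', b1, b2, b3⟩ := hq'.letters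
  rw [(hmid k le_rfl).1, a1] at b1
  rw [show q + 1 + 1 = q + 2 from rfl, (hmid k le_rfl).2, a2] at b2
  have et : t' = t := (Option.some.inj b1).symm
  have es : s' = s := (Option.some.inj b2).symm
  subst et es
  -- the mixed word
  have hred2 : cs.IsReduced ((f 0).take (q + 3) ++ (f k).drop (q + 3)) := by
    unfold CoxeterSystem.IsReduced
    rw [cs.wordProd_append, hprod k le_rfl, ← cs.wordProd_append, List.take_append_drop, hred.eq]
    have := hlen k le_rfl
    have h3 := (List.getElem?_eq_some_iff.mp a2).1
    simp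
    omega
  have hform : (f 0).take (q + 3) ++ (f k).drop (q + 3) =
      (f 0).take q ++ [s', t', s', t'] ++ (f k).drop (q + 4) := by
    have h3 := (List.getElem?_eq_some_iff.mp a2).1
    have h4 := (List.getElem?_eq_some_iff.mp b3).1
    apply List.ext_getElem?
    intro j
    have hmin : min q (f 0).length = q := by omega
    have hmin3 : min (q + 3) (f 0).length = q + 3 := by omega
    by_cases hj : j < q
    · rw [List.getElem?_append_left (by simp; omega), List.append_assoc,
        List.getElem?_append_left (by simp; omega), List.getElem?_take_of_lt (by omega),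
        List.getElem?_take_of_lt (by omega)]
    · by_cases hj2 : q + 4 ≤ j
      · rw [List.getElem?_append_right (by simp; omega), List.getElem?_append_right (by simp; omega),
          List.getElem?_drop, List.getElem?_drop]
        congr 1
        simp
        omega
      · have : j = q ∨ j = q + 1 ∨ j = q + 2 ∨ j = q + 3 := by omega
        rcases this with rfl | rfl | rfl | rfl
        · rw [List.getElem?_append_left (by simp; omega), List.getElem?_take_of_lt (by omega), a0]
          rw [List.append_assoc, List.getElem?_append_right (by simp)]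
          simp [hmin]
        · rw [List.getElem?_append_left (by simp; omega), List.getElem?_take_of_lt (by omega), a1]
          rw [List.append_assoc, List.getElem?_append_right (by simp)]
          simp [hmin]
        · rw [List.getElem?_append_left (by simp; omega), List.getElem?_take_of_lt (by omega), a2]
          rw [List.append_assoc, List.getElem?_append_right (by simp)]
          simp [hmin]
        · rw [List.getElem?_append_right (by simp), List.getElem?_drop]
          rw [List.append_assoc, List.getElem?_append_right (by simp)]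
          simp [hmin, hmin3]
          exact b3
  rw [hform] at hred2
  exact not_isReduced_stst cs hst _ _ hred2

theorem exists_path {a b : List B} (h : Relation.ReflTransGen (Move M) a b) :
    ∃ (k : ℕ) (f : ℕ → List B), f 0 = a ∧ f k = b ∧ ∀ i < k, Move M (f i) (f (i + 1)) := by
  induction h with
  | refl => exact ⟨0, fun _ => a, rfl, rfl, fun i hi => by omega⟩
  | @tail c d _ h ih =>
    obtain ⟨k, f, h0, hk, hf⟩ := ih
    refine ⟨k + 1, fun i => if i ≤ k then f i else d, by simp [h0], by simp, ?_⟩
    intro i hi
    by_cases hik : i < k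
    · have h1 : i ≤ k := by omega
      have h2 : i + 1 ≤ k := by omega
      simp only [h1, h2, if_true]
      exact hf i hik
    · have h1 : i = k := by omega
      subst h1
      simp only [le_refl, if_true]
      rw [if_neg (by omega), hk]
      exact h

/-- **Claim 1.** No two adjacent windows are active in one braid class of reduced words. -/
theorem not_adjacent {a b : List B} (ha : cs.IsReduced a)
    (h : Relation.ReflTransGen (Move M) a b) {q : ℕ} (h1 : Active M q a)
    (h2 : Active M (q + 1) b) : False := by
  obtain ⟨k, f, h0, hk, hf⟩ := exists_path h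
  subst h0 hk
  exact not_adjacent_aux cs k f ha hf q h1 h2

/-! ### Tokens -/

theorem leftInvSeq_append (l m : List B) : cs.leftInvSeq (l ++ m) =
    cs.leftInvSeq l ++ (cs.leftInvSeq m).map (MulAut.conj (cs.wordProd l)) := by
  induction l with
  | nil => simp
  | cons i l ih =>
    have h1 : ∀ ω : List B, cs.leftInvSeq (i :: ω) =
      cs.simple i :: (cs.leftInvSeq ω).map (MulAut.conj (cs.simple i)) := fun _ => rfl
    rw [List.cons_append, h1, h1, ih, List.map_append, List.map_map, cs.wordProd_cons, map_mul]
    rfl

theorem MoveAt.tokens {p : ℕ} {a b : List B} (h : MoveAt M p a b) :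
    ∃ (L R : List W) (x c y : W), L.length = p ∧ cs.leftInvSeq a = L ++ [x, c, y] ++ R ∧
      cs.leftInvSeq b = L ++ [y, c, x] ++ R ∧ y = c * x * c⁻¹ ∧ x = c * y * c⁻¹ := by
  have hprod := h.wordProd cs
  obtain ⟨l, r, s, t, h1, rfl, rfl, rfl⟩ := h
  have hb := braid_rel cs h1
  have hs : ∀ i, (cs.simple i)⁻¹ = cs.simple i := cs.inv_simple
  set g := cs.wordProd l with hg
  have e1 : cs.leftInvSeq [s, t, s] = [cs.simple s, cs.simple s * cs.simple t * cs.simple s,
      cs.simple t] := by
    have h2 : cs.leftInvSeq [s, t, s] = [cs.simple s, cs.simple s * cs.simple t * (cs.simple s)⁻¹,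
      cs.simple s * (cs.simple t * cs.simple s * (cs.simple t)⁻¹) * (cs.simple s)⁻¹] := rfl
    rw [h2, hs, hs, ← hb]
    simp [mul_assoc]
  have e2 : cs.leftInvSeq [t, s, t] = [cs.simple t, cs.simple s * cs.simple t * cs.simple s,
      cs.simple s] := by
    have h2 : cs.leftInvSeq [t, s, t] = [cs.simple t, cs.simple t * cs.simple s * (cs.simple t)⁻¹,
      cs.simple t * (cs.simple s * cs.simple t * (cs.simple s)⁻¹) * (cs.simple t)⁻¹] := rfl
    rw [h2, hs, hs, hb]
    simp [mul_assoc]
  have e3 : cs.wordProd (l ++ [s, t, s]) = cs.wordProd (l ++ [t, s, t]) := by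
    rw [cs.wordProd_append, cs.wordProd_append]
    congr 1
    simp only [cs.wordProd_cons, cs.wordProd_nil, mul_one, ← mul_assoc]
    exact hb
  have k1 : (cs.simple s * cs.simple t * cs.simple s) * cs.simple s *
      (cs.simple s * cs.simple t * cs.simple s)⁻¹ = cs.simple t := by
    nth_rewrite 2 [hb]
    simp [mul_assoc]
  have k2 : (cs.simple s * cs.simple t * cs.simple s) * cs.simple t *
      (cs.simple s * cs.simple t * cs.simple s)⁻¹ = cs.simple s := by
    nth_rewrite 1 [hb]
    simp [mul_assoc]
  refine ⟨cs.leftInvSeq l, (cs.leftInvSeq r).map (MulAut.conj (cs.wordProd (l ++ [s, t, s]))),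
    g * cs.simple s * g⁻¹, g * (cs.simple s * cs.simple t * cs.simple s) * g⁻¹,
    g * cs.simple t * g⁻¹, by simp, ?_, ?_, ?_, ?_⟩
  · rw [leftInvSeq_append, leftInvSeq_append, e1]
    simp [hg]
  · rw [leftInvSeq_append, leftInvSeq_append, e2, e3]
    simp [hg]
  · nth_rewrite 1 [← k1]
    group
  · nth_rewrite 1 [← k2]
    group

open Classical in
/-- The position of the reflection `t` among the left inversions of the word `a`. -/
noncomputable def pos (a : List B) (t : W) : ℕ := (cs.leftInvSeq a).idxOf t

theorem pos_inj {a : List B} {t t' : W} (h : t ∈ cs.leftInvSeq a)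
    (e : pos cs a t = pos cs a t') : t = t' := by
  classical
  exact (List.idxOf_inj h).mp e

theorem MoveAt.pos {p : ℕ} {a b : List B} (h : MoveAt M p a b) (ha : cs.IsReduced a) :
    ∃ x c y : W, x ∈ cs.leftInvSeq a ∧ c ∈ cs.leftInvSeq a ∧ y ∈ cs.leftInvSeq a ∧
      pos cs a x = p ∧ pos cs a c = p + 1 ∧ pos cs a y = p + 2 ∧
      pos cs b x = p + 2 ∧ pos cs b c = p + 1 ∧ pos cs b y = p ∧
      (∀ t, t ≠ x → t ≠ y → Braid.pos cs b t = Braid.pos cs a t) ∧
      (∀ t, t ∈ cs.leftInvSeq b ↔ t ∈ cs.leftInvSeq a) ∧
      y = c * x * c⁻¹ ∧ x = c * y * c⁻¹ := by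
  classical
  have hnd := ha.nodup_leftInvSeq
  obtain ⟨L, R, x, c, y, hL, h1, h2, h3, h4⟩ := h.tokens cs
  have hxc : x ≠ c := by
    rintro rfl
    rw [h1] at hnd
    simp [List.nodup_append] at hnd
  have hyc : y ≠ c := by
    rintro rfl
    rw [h1] at hnd
    simp [List.nodup_append] at hnd
  have hxy : x ≠ y := by
    rintro rfl
    rw [h1] at hnd
    simp [List.nodup_append] at hnd
  have hnd2 : L.Nodup ∧ (∀ z ∈ L, z ≠ x ∧ z ≠ c ∧ z ≠ y ∧ ∀ w ∈ R, z ≠ w) := by
    rw [h1] at hnd
    simp only [List.append_assoc, List.nodup_append] at hnd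
    refine ⟨hnd.1, fun z hz => ?_⟩
    have := hnd.2.2 z hz
    simp only [List.cons_append, List.nil_append, List.mem_cons] at this
    exact ⟨this x (Or.inl rfl), this c (by simp), this y (by simp), fun w hw => this w (by simp [hw])⟩
  have hxL : x ∉ L := fun hx => (hnd2.2 x hx).1 rfl
  have hcL : c ∉ L := fun hx => (hnd2.2 c hx).2.1 rfl
  have hyL : y ∉ L := fun hx => (hnd2.2 y hx).2.2.1 rfl
  have hmem : ∀ t, t ∈ cs.leftInvSeq b ↔ t ∈ cs.leftInvSeq a := by
    intro t
    rw [h1, h2]
    simp only [List.mem_append, List.mem_cons, List.not_mem_nil, or_false]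
    tauto
  refine ⟨x, c, y, by simp [h1], by simp [h1], by simp [h1], ?_, ?_, ?_, ?_, ?_, ?_, ?_, hmem,
    h3, h4⟩
  · unfold Braid.pos
    rw [h1, List.append_assoc, List.idxOf_append_of_notMem hxL]
    simp [hL]
  · unfold Braid.pos
    rw [h1, List.append_assoc, List.idxOf_append_of_notMem hcL, List.cons_append,
      List.idxOf_cons_ne _ hxc, List.cons_append, List.idxOf_cons_self, hL]
  · unfold Braid.pos
    rw [h1, List.append_assoc, List.idxOf_append_of_notMem hyL, List.cons_append,
      List.idxOf_cons_ne _ hxy, List.cons_append, List.idxOf_cons_ne _ hyc.symm, List.cons_append,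
      List.idxOf_cons_self, hL]
  · unfold Braid.pos
    rw [h2, List.append_assoc, List.idxOf_append_of_notMem hxL, List.cons_append,
      List.idxOf_cons_ne _ hxy.symm, List.cons_append, List.idxOf_cons_ne _ hxc.symm,
      List.cons_append, List.idxOf_cons_self, hL]
  · unfold Braid.pos
    rw [h2, List.append_assoc, List.idxOf_append_of_notMem hcL, List.cons_append,
      List.idxOf_cons_ne _ hyc, List.cons_append, List.idxOf_cons_self, hL]
  · unfold Braid.pos
    rw [h2, List.append_assoc, List.idxOf_append_of_notMem hyL]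
    simp [hL]
  · intro t htx hty
    unfold Braid.pos
    by_cases htL : t ∈ L
    · rw [h1, h2, List.append_assoc, List.append_assoc, List.idxOf_append_of_mem htL,
        List.idxOf_append_of_mem htL]
    · rw [h1, h2, List.append_assoc, List.append_assoc, List.idxOf_append_of_notMem htL,
        List.idxOf_append_of_notMem htL]
      congr 1
      simp only [List.cons_append, List.nil_append]
      rw [List.idxOf_cons_ne _ (Ne.symm hty), List.idxOf_cons_ne _ (Ne.symm htx)]
      congr 1
      by_cases htc : t = c
      · subst htc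
        simp
      · rw [List.idxOf_cons_ne _ (Ne.symm htc), List.idxOf_cons_ne _ (Ne.symm htc),
          List.idxOf_cons_ne _ (Ne.symm hty), List.idxOf_cons_ne _ (Ne.symm htx)]

/-! ### Invariants of a braid class -/

theorem mem_iff {a b : List B} (ha : cs.IsReduced a) (h : Relation.ReflTransGen (Move M) a b)
    (t : W) : t ∈ cs.leftInvSeq b ↔ t ∈ cs.leftInvSeq a := by
  induction h with
  | refl => rfl
  | tail h0 h ih =>
    obtain ⟨p, h⟩ := h
    obtain ⟨x, c, y, -, -, -, -, -, -, -, -, -, -, h1, -⟩ := h.pos cs (isReduced_of_mem cs ha h0)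
    rw [h1, ih]

/-- The center of an active window is the same in the whole class. -/
theorem center_const {a b : List B} (ha : cs.IsReduced a)
    (h : Relation.ReflTransGen (Move M) a b) {p : ℕ} (hp : Active M p a) {c : W}
    (hc : pos cs a c = p + 1) : pos cs b c = p + 1 := by
  induction h with
  | refl => exact hc
  | @tail b b' h0 h ih =>
    obtain ⟨q, h⟩ := h
    obtain ⟨x, c', y, -, -, -, e1, e2, e3, -, -, -, h1, -⟩ :=
      h.pos cs (isReduced_of_mem cs ha h0)
    have hq1 : q ≠ p + 1 := by
      rintro rfl
      exact not_adjacent cs ha h0 hp h.active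
    have hq2 : q + 1 ≠ p := by
      rintro rfl
      exact not_adjacent cs (isReduced_of_mem cs ha h0) (conn_symm h0) h.active hp
    rw [h1, ih]
    · rintro rfl
      rw [e1] at ih
      exact hq1 ih
    · rintro rfl
      rw [e3] at ih
      omega

/-- The two tokens swapped at a window are always on different sides of it. -/
theorem sides {a b : List B} (ha : cs.IsReduced a)
    (h : Relation.ReflTransGen (Move M) a b) {p : ℕ} (hp : Active M p a) {x c y : W}
    (hcm : c ∈ cs.leftInvSeq a) (hxp : pos cs a x = p) (hc : pos cs a c = p + 1) (hyp : pos cs a y = p + 2)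
    (hyc : y = c * x * c⁻¹) (hxc : x = c * y * c⁻¹) : (pos cs b x ≤ p ↔ ¬ pos cs b y ≤ p) := by
  induction h with
  | refl => rw [hxp, hyp]; omega
  | @tail b b' h0 h ih =>
    have hb := isReduced_of_mem cs ha h0
    obtain ⟨q, h⟩ := h
    obtain ⟨x', c', y', mx, mc, my, e1, e2, e3, e4, e5, e6, h1, hmem, h2, h3⟩ := h.pos cs hb
    have hq1 : q ≠ p + 1 := by
      rintro rfl
      exact not_adjacent cs ha h0 hp h.active
    have hq2 : q + 1 ≠ p := by
      rintro rfl
      exact not_adjacent cs hb (conn_symm h0) h.active hp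
    by_cases hqp : q = p
    · subst hqp
      have hcc : c = c' := by
        apply pos_inj cs (a := b) ((mem_iff cs ha h0 c).mpr hcm)
        rw [e2]
        exact center_const cs ha h0 hp hc
      subst hcc
      by_cases hxx : x = x'
      · subst hxx
        have hyy : y = y' := by rw [hyc, h2]
        subst hyy
        rw [e4, e6]
        omega
      · by_cases hxy : x = y'
        · subst hxy
          have hyy : y = x' := by rw [hyc, h3]
          subst hyy
          rw [e4, e6]
          omega
        · have hy1 : y ≠ x' := by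
            rintro rfl
            exact hxy (by rw [hxc, h2])
          have hy2 : y ≠ y' := by
            rintro rfl
            exact hxx (by rw [hxc, h3])
          rw [h1 x hxx hxy, h1 y hy1 hy2]
          exact ih
    · have key : ∀ t, (pos cs b' t ≤ p ↔ pos cs b t ≤ p) := by
        intro t
        by_cases t1 : t = x'
        · subst t1
          rw [e4, e1]
          omega
        · by_cases t2 : t = y'
          · subst t2
            rw [e3, e6]
            omega
          · rw [h1 t t1 t2]
      rw [key x, key y]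
      exact ih

open Classical in
/-- The distance function: sum of the displacements of all tokens. -/
noncomputable def disp (S : Finset W) (a b : List B) : ℤ :=
  ∑ t ∈ S, |(pos cs a t : ℤ) - (pos cs b t : ℤ)|

/-- **The dichotomy.**  A move changes the displacement to any word of the class by `± 4`. -/
theorem dichotomy {a b g : List B} (ha : cs.IsReduced a)
    (hg : Relation.ReflTransGen (Move M) a g) {S : Finset W}
    (hS : ∀ t, t ∈ S ↔ t ∈ cs.leftInvSeq a) {p : ℕ} (h : MoveAt M p a b) {x y : W}
    (hx : x ∈ cs.leftInvSeq a) (hy : y ∈ cs.leftInvSeq a) (hxp : pos cs a x = p)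
    (hyp : pos cs a y = p + 2) :
    (p + 2 ≤ pos cs g x ∧ pos cs g y ≤ p ∧ disp cs S b g + 4 = disp cs S a g) ∨
    (pos cs g x ≤ p ∧ p + 2 ≤ pos cs g y ∧ disp cs S b g = disp cs S a g + 4) := by
  obtain ⟨x', c, y', mx, mc, my, e1, e2, e3, e4, e5, e6, h1, hmem, h2, h3⟩ := h.pos cs ha
  have hxx : x = x' := pos_inj cs (a := a) hx (by rw [hxp, e1])
  have hyy : y = y' := pos_inj cs (a := a) hy (by rw [hyp, e3])
  subst hxx hyy
  have hs := sides cs ha hg h.active mc e1 e2 e3 h2 h3
  have hc := center_const cs ha hg h.active e2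
  have hxy : x ≠ y := by
    rintro rfl
    omega
  have hxc : pos cs g x ≠ p + 1 := by
    intro he
    have : x = c := pos_inj cs (a := g) ((mem_iff cs ha hg x).mpr mx) (by rw [he, hc])
    subst this
    omega
  have hyc : pos cs g y ≠ p + 1 := by
    intro he
    have : y = c := pos_inj cs (a := g) ((mem_iff cs ha hg y).mpr my) (by rw [he, hc])
    subst this
    omega
  have hdiff : disp cs S b g - disp cs S a g =
      (|(pos cs b x : ℤ) - (pos cs g x : ℤ)| - |(pos cs a x : ℤ) - (pos cs g x : ℤ)|) +
      (|(pos cs b y : ℤ) - (pos cs g y : ℤ)| - |(pos cs a y : ℤ) - (pos cs g y : ℤ)|) := by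
    unfold disp
    rw [← Finset.sum_sub_distrib]
    apply Finset.sum_eq_add_of_mem x y ((hS x).mpr mx) ((hS y).mpr my) hxy
    intro t _ ht
    rw [h1 t ht.1 ht.2]
    ring
  rw [e1, e3, e4, e6] at hdiff
  push_cast at hdiff
  by_cases hle : pos cs g x ≤ p
  · right
    have hy3 := hs.mp hle
    refine ⟨hle, by omega, ?_⟩
    rw [abs_of_nonneg (show (0:ℤ) ≤ (p : ℤ) + 2 - (pos cs g x : ℤ) by omega),
      abs_of_nonneg (show (0:ℤ) ≤ (p : ℤ) - (pos cs g x : ℤ) by omega),
      abs_of_nonpos (show (p : ℤ) - (pos cs g y : ℤ) ≤ 0 by omega),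
      abs_of_nonpos (show (p : ℤ) + 2 - (pos cs g y : ℤ) ≤ 0 by omega)] at hdiff
    linarith
  · left
    have hy3 : pos cs g y ≤ p := by
      by_contra hcon
      exact hle (hs.mpr hcon)
    refine ⟨by omega, hy3, ?_⟩
    rw [abs_of_nonpos (show (p : ℤ) + 2 - (pos cs g x : ℤ) ≤ 0 by omega),
      abs_of_nonpos (show (p : ℤ) - (pos cs g x : ℤ) ≤ 0 by omega),
      abs_of_nonneg (show (0:ℤ) ≤ (p : ℤ) - (pos cs g y : ℤ) by omega),
      abs_of_nonneg (show (0:ℤ) ≤ (p : ℤ) + 2 - (pos cs g y : ℤ) by omega)] at hdiff
    linarith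

/-- Moves at windows at distance at least three commute. -/
theorem commute {a b e : List B} {p q : ℕ} (hpq : p + 3 ≤ q) (h1 : MoveAt M p a b)
    (h2 : MoveAt M q a e) : ∃ d, MoveAt M q b d ∧ MoveAt M p e d := by
  obtain ⟨s, t, hst, a0, a1, a2, b0, b1, b2⟩ := h1.letters
  obtain ⟨s', t', hst', a0', a1', a2', c0, c1, c2⟩ := h2.letters
  have hq := h2.lt
  set d : List B := b.take (p + 3) ++ e.drop (p + 3) with hd
  have hlb := h1.length_eq
  have hlc := h2.length_eq
  have hd1 : ∀ j, j < p + 3 → d[j]? = b[j]? := by
    intro j hj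
    rw [hd, List.getElem?_append_left (by simp; omega), List.getElem?_take_of_lt hj]
  have hd2 : ∀ j, p + 3 ≤ j → d[j]? = e[j]? := by
    intro j hj
    rw [hd, List.getElem?_append_right (by simp; omega), List.getElem?_drop]
    congr 1
    simp
    omega
  refine ⟨d, moveAt_of_letters hst' (s := s') (t := t') ?_ ?_ ?_ ?_ ?_ ?_ ?_,
    moveAt_of_letters hst (s := s) (t := t) ?_ ?_ ?_ ?_ ?_ ?_ ?_⟩
  · rw [← h1.outside (by omega), a0']
  · rw [← h1.outside (by omega), a1']
  · rw [← h1.outside (by omega), a2']
  · rw [hd2 _ (by omega), c0]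
  · rw [hd2 _ (by omega), c1]
  · rw [hd2 _ (by omega), c2]
  · intro j hj
    by_cases hj3 : j < p + 3
    · rw [hd1 j hj3]
    · rw [hd2 j (by omega), ← h2.outside hj, h1.outside (by omega)]
  · rw [← h2.outside (by omega), a0]
  · rw [← h2.outside (by omega), a1]
  · rw [← h2.outside (by omega), a2]
  · rw [hd1 _ (by omega), b0]
  · rw [hd1 _ (by omega), b1]
  · rw [hd1 _ (by omega), b2]
  · intro j hj
    by_cases hj3 : j < p + 3
    · rw [hd1 j hj3, ← h1.outside hj, h2.outside (by omega)]
    · rw [hd2 j (by omega)]

/-- `a → b` brings `a` closer to `g`. -/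
def Down (S : Finset W) (g a b : List B) : Prop :=
  Relation.ReflTransGen (Move M) g a ∧ Move M a b ∧ disp cs S b g + 4 = disp cs S a g

theorem diamond_lt {a b c g : List B} (hg : cs.IsReduced g) {S : Finset W}
    (hS : ∀ t, t ∈ S ↔ t ∈ cs.leftInvSeq g) {p q : ℕ} (hpq : p < q)
    (hga : Relation.ReflTransGen (Move M) g a) (h1 : MoveAt M p a b)
    (d1 : disp cs S b g + 4 = disp cs S a g)
    (h2 : MoveAt M q a c) (d2 : disp cs S c g + 4 = disp cs S a g) :
    ∃ d, Down cs S g b d ∧ Down cs S g c d := by
  have ha := isReduced_of_mem cs hg hga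
  have hag := conn_symm hga
  have hSa : ∀ t, t ∈ S ↔ t ∈ cs.leftInvSeq a := fun t => by rw [hS, mem_iff cs hg hga]
  obtain ⟨x, z, y, mx, mc, my, e1, e2, e3, e4, e5, e6, k1, hmem, -, -⟩ := h1.pos cs ha
  obtain ⟨x', z', y', mx', mc', my', e1', e2', e3', e4', e5', e6', k1', hmem', -, -⟩ :=
    h2.pos cs ha
  have hd1 : p + 2 ≤ pos cs g x ∧ pos cs g y ≤ p := by
    rcases dichotomy cs ha hag hSa h1 mx my e1 e3 with h | h
    · exact ⟨h.1, h.2.1⟩
    · exfalso; linarith [h.2.2]
  have hd2 : q + 2 ≤ pos cs g x' ∧ pos cs g y' ≤ q := by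
    rcases dichotomy cs ha hag hSa h2 mx' my' e1' e3' with h | h
    · exact ⟨h.1, h.2.1⟩
    · exfalso; linarith [h.2.2]
  have hq1 : q ≠ p + 1 := by
    rintro rfl
    exact not_adjacent cs ha Relation.ReflTransGen.refl h1.active h2.active
  have hq2 : q ≠ p + 2 := by
    rintro rfl
    have : x' = y := pos_inj cs (a := a) mx' (by rw [e1', e3])
    subst this
    omega
  obtain ⟨d, hd, hd'⟩ := commute (show p + 3 ≤ q by omega) h1 h2
  have hgb : Relation.ReflTransGen (Move M) g b := hga.tail ⟨p, h1⟩
  have hgc : Relation.ReflTransGen (Move M) g c := hga.tail ⟨q, h2⟩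
  refine ⟨d, ⟨hgb, ⟨q, hd⟩, ?_⟩, ⟨hgc, ⟨p, hd'⟩, ?_⟩⟩
  · have hb := h1.isReduced cs ha
    have hSb : ∀ t, t ∈ S ↔ t ∈ cs.leftInvSeq b := fun t => by rw [hS, mem_iff cs hg hgb]
    have n1 : x' ≠ x := by rintro rfl; omega
    have n2 : x' ≠ y := by rintro rfl; omega
    have n3 : y' ≠ x := by rintro rfl; omega
    have n4 : y' ≠ y := by rintro rfl; omega
    rcases dichotomy cs hb (conn_symm hgb) hSb hd ((hmem x').mpr mx') ((hmem y').mpr my')
      (by rw [k1 _ n1 n2, e1']) (by rw [k1 _ n3 n4, e3']) with h | h
    · exact h.2.2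
    · exfalso; omega
  · have hc := h2.isReduced cs ha
    have hSc : ∀ t, t ∈ S ↔ t ∈ cs.leftInvSeq c := fun t => by rw [hS, mem_iff cs hg hgc]
    have n1 : x ≠ x' := by rintro rfl; omega
    have n2 : x ≠ y' := by rintro rfl; omega
    have n3 : y ≠ x' := by rintro rfl; omega
    have n4 : y ≠ y' := by rintro rfl; omega
    rcases dichotomy cs hc (conn_symm hgc) hSc hd' ((hmem' x).mpr mx) ((hmem' y).mpr my)
      (by rw [k1' _ n1 n2, e1]) (by rw [k1' _ n3 n4, e3]) with h | h
    · exact h.2.2
    · exfalso; omega

theorem diamond {a b c g : List B} (hg : cs.IsReduced g) {S : Finset W}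
    (hS : ∀ t, t ∈ S ↔ t ∈ cs.leftInvSeq g) (h1 : Down cs S g a b) (h2 : Down cs S g a c)
    (hbc : b ≠ c) : ∃ d, Down cs S g b d ∧ Down cs S g c d := by
  obtain ⟨hga, ⟨p, h1⟩, d1⟩ := h1
  obtain ⟨-, ⟨q, h2⟩, d2⟩ := h2
  rcases lt_trichotomy p q with hpq | hpq | hpq
  · exact diamond_lt cs hg hS hpq hga h1 d1 h2 d2
  · subst hpq
    exact absurd (h1.unique h2) hbc
  · obtain ⟨d, e1, e2⟩ := diamond_lt cs hg hS hpq hga h2 d2 h1 d1
    exact ⟨d, e2, e1⟩

theorem disp_self (S : Finset W) (a : List B) : disp cs S a a = 0 := by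
  unfold disp
  simp

theorem disp_nonneg (S : Finset W) (a b : List B) : 0 ≤ disp cs S a b :=
  Finset.sum_nonneg fun _ _ => abs_nonneg _

theorem disp_comm (S : Finset W) (a b : List B) : disp cs S a b = disp cs S b a := by
  unfold disp
  exact Finset.sum_congr rfl fun t _ => abs_sub_comm _ _

theorem down_or_down {a b g : List B} (hg : cs.IsReduced g) {S : Finset W}
    (hS : ∀ t, t ∈ S ↔ t ∈ cs.leftInvSeq g) (hga : Relation.ReflTransGen (Move M) g a)
    (h : Move M a b) : Down cs S g a b ∨ Down cs S g b a := by
  have ha := isReduced_of_mem cs hg hga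
  have hag := conn_symm hga
  have hSa : ∀ t, t ∈ S ↔ t ∈ cs.leftInvSeq a := fun t => by rw [hS, mem_iff cs hg hga]
  obtain ⟨p, hp⟩ := h
  obtain ⟨x, z, y, mx, mc, my, e1, e2, e3, -⟩ := hp.pos cs ha
  rcases dichotomy cs ha hag hSa hp mx my e1 e3 with h | h
  · exact Or.inl ⟨hga, ⟨p, hp⟩, h.2.2⟩
  · exact Or.inr ⟨hga.tail ⟨p, hp⟩, ⟨p, hp.symm⟩, by linarith [h.2.2]⟩

/-- Every word of the class can be brought to `g` by moves which all bring it closer to `g`. -/
theorem exists_down_path {a g : List B} (hg : cs.IsReduced g) {S : Finset W}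
    (hS : ∀ t, t ∈ S ↔ t ∈ cs.leftInvSeq g) (hga : Relation.ReflTransGen (Move M) g a) :
    Relation.ReflTransGen (Down cs S g) a g := by
  have hconf : ∀ a b c, Down cs S g a b → Down cs S g a c →
      ∃ d, Relation.ReflGen (Down cs S g) b d ∧ Relation.ReflTransGen (Down cs S g) c d := by
    intro a b c h1 h2
    by_cases hbc : b = c
    · subst hbc
      exact ⟨b, Relation.ReflGen.refl, Relation.ReflTransGen.refl⟩
    · obtain ⟨d, e1, e2⟩ := diamond cs hg hS h1 h2 hbc
      exact ⟨d, Relation.ReflGen.single e1, Relation.ReflTransGen.single e2⟩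
  have hequiv := Relation.equivalence_join_reflTransGen hconf
  have hjoin : Relation.Join (Relation.ReflTransGen (Down cs S g)) g a := by
    induction hga with
    | refl => exact hequiv.refl g
    | tail h0 h ih =>
      rcases down_or_down cs hg hS h0 h with h | h
      · exact hequiv.trans ih ⟨_, Relation.ReflTransGen.single h, Relation.ReflTransGen.refl⟩
      · exact hequiv.trans ih ⟨_, Relation.ReflTransGen.refl, Relation.ReflTransGen.single h⟩
  obtain ⟨d, h1, h2⟩ := hjoin
  have hdg : d = g := by
    rcases Relation.ReflTransGen.cases_head h1 with h | ⟨e, h, -⟩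
    · exact h.symm
    · exfalso
      have := h.2.2
      rw [disp_self] at this
      have := disp_nonneg cs S e g
      omega
  rw [hdg] at h2
  exact h2

theorem exists_down {a g : List B} (hg : cs.IsReduced g) {S : Finset W}
    (hS : ∀ t, t ∈ S ↔ t ∈ cs.leftInvSeq g) (hga : Relation.ReflTransGen (Move M) g a)
    (hne : a ≠ g) : ∃ b, Down cs S g a b := by
  rcases Relation.ReflTransGen.cases_head (exists_down_path cs hg hS hga) with h | ⟨b, h, -⟩
  · exact absurd h hne
  · exact ⟨b, h⟩

end group

/-- The braid graph of `a`: its vertices are the words braid equivalent to `a`, two of them being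
adjacent if they differ by a single braid move. -/
def braidGraph (M : CoxeterMatrix B) (a : List B) : SimpleGraph (braidClass M a) where
  Adj x y := Move M x.1 y.1
  symm := ⟨fun _ _ h => h.symm⟩
  loopless := ⟨fun x ⟨p, h⟩ => by
    obtain ⟨s, t, hst, a0, -, -, b0, -⟩ := h.letters
    rw [a0] at b0
    exact ne_of_three hst (Option.some.inj b0)⟩

theorem braidGraph_connected (M : CoxeterMatrix B) (a : List B) : (braidGraph M a).Connected := by
  have ha : a ∈ braidClass M a := Relation.ReflTransGen.refl
  have key : ∀ b (hb : b ∈ braidClass M a), (braidGraph M a).Reachable ⟨a, ha⟩ ⟨b, hb⟩ := by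
    intro b hb
    have hb' : Relation.ReflTransGen (Move M) a b := hb
    induction hb' with
    | refl => exact SimpleGraph.Reachable.refl _
    | tail h1 h2 ih =>
      have h2' : (braidGraph M a).Adj ⟨_, h1⟩ ⟨_, hb⟩ := h2
      exact (ih h1).trans h2'.reachable
  have : Nonempty (braidClass M a) := ⟨⟨a, ha⟩⟩
  exact ⟨fun x y => (key x.1 x.2).symm.trans (key y.1 y.2)⟩

section graph

variable {W : Type*} [Group W] {M : CoxeterMatrix B} (cs : CoxeterSystem M W)

/-- The displacement is four times the distance. -/
theorem four_dist {a : List B} (ha : cs.IsReduced a) {S : Finset W}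
    (hS : ∀ t, t ∈ S ↔ t ∈ cs.leftInvSeq a) (x g : braidClass M a) :
    4 * ((braidGraph M a).dist x g : ℤ) = disp cs S x.1 g.1 := by
  have hg : cs.IsReduced g.1 := isReduced_of_mem cs ha g.2
  have hSg : ∀ t, t ∈ S ↔ t ∈ cs.leftInvSeq g.1 := fun t => by rw [hS, mem_iff cs ha g.2]
  have hconn : ∀ y : braidClass M a, Relation.ReflTransGen (Move M) g.1 y.1 :=
    fun y => (conn_symm g.2).trans y.2
  apply le_antisymm
  · -- upper bound
    have key : ∀ n : ℕ, ∀ y : braidClass M a, disp cs S y.1 g.1 ≤ n →
        4 * ((braidGraph M a).dist y g : ℤ) ≤ disp cs S y.1 g.1 := by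
      intro n
      induction n with
      | zero =>
        intro y hy
        by_cases hyg : y = g
        · subst hyg
          rw [disp_self]
          simp
        · obtain ⟨b, h1, h2, h3⟩ := exists_down cs hg hSg (hconn y)
            (fun h => hyg (Subtype.ext h))
          have := disp_nonneg cs S b g.1
          push_cast at hy
          omega
      | succ n ih =>
        intro y hy
        by_cases hyg : y = g
        · subst hyg
          rw [disp_self]
          simp
        · obtain ⟨b, h1, h2, h3⟩ := exists_down cs hg hSg (hconn y)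
            (fun h => hyg (Subtype.ext h))
          have hb : b ∈ braidClass M a := Relation.ReflTransGen.tail y.2 h2
          have hadj : (braidGraph M a).Adj y ⟨b, hb⟩ := h2
          have h4 := ih ⟨b, hb⟩ (by push_cast at hy ⊢; show disp cs S b g.1 ≤ _; omega)
          have h5 := (braidGraph_connected M a).dist_triangle (u := y) (v := ⟨b, hb⟩) (w := g)
          have h6 : (braidGraph M a).dist y ⟨b, hb⟩ = 1 := SimpleGraph.dist_eq_one_iff_adj.mpr hadj
          have h7 : disp cs S (⟨b, hb⟩ : braidClass M a).1 g.1 + 4 = disp cs S y.1 g.1 := h3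
          rw [h6] at h5
          omega
    have h0 := disp_nonneg cs S x.1 g.1
    exact key (disp cs S x.1 g.1).toNat x (by omega)
  · obtain ⟨p, hp⟩ := (braidGraph_connected M a).exists_walk_length_eq_dist x g
    rw [← hp]
    clear hp
    induction p with
    | nil => rw [disp_self]; simp
    | @cons u v w huv p ih =>
      have h1 := ih hg hSg hconn
      rcases down_or_down cs hg hSg (hconn u) huv with h | h
      · have := h.2.2
        rw [SimpleGraph.Walk.length_cons]
        push_cast
        linarith
      · have := h.2.2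
        rw [SimpleGraph.Walk.length_cons]
        push_cast
        linarith

end graph

end Pool.Agent.Q153.Braid
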