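import Mathlib
import Pool.Agent.Q153.Braid

/-!
# Braid classes in triangle-free simply-laced systems
-/

set_option autoImplicit false

namespace Pool.Agent.Q153.Braid

variable {B : Type*}

/-- The window `p` of `a` carries the letters `s t s` with `m(s,t) = 3`. -/
def ActiveL (M : CoxeterMatrix B) (p : ℕ) (a : List B) (s t : B) : Prop :=
  M s t = 3 ∧ a[p]? = some s ∧ a[p + 1]? = some t ∧ a[p + 2]? = some s

theorem MoveAt.activeL {M : CoxeterMatrix B} {p : ℕ} {a b : List B} (h : MoveAt M p a b) :
    ∃ s t, ActiveL M p a s t ∧ ActiveL M p b t s := by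
  obtain ⟨s, t, h0, h1, h2, h3, h4, h5, h6⟩ := h.letters
  exact ⟨s, t, ⟨h0, h1, h2, h3⟩, by rw [M.symmetric]; exact h0, h4, h5, h6⟩

theorem ActiveL.unique {M : CoxeterMatrix B} {p : ℕ} {a : List B} {s t u v : B}
    (h : ActiveL M p a s t) (h' : ActiveL M p a u v) : s = u ∧ t = v := by
  obtain ⟨-, h1, h2, -⟩ := h
  obtain ⟨-, h1', h2', -⟩ := h'
  rw [h1] at h1'
  rw [h2] at h2'
  exact ⟨Option.some.inj h1', Option.some.inj h2'⟩

theorem ActiveL.move {M : CoxeterMatrix B} {p : ℕ} {a : List B} {s t : B}
    (h : ActiveL M p a s t) : ∃ b, MoveAt M p a b := by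
  obtain ⟨h0, h1, h2, h3⟩ := h
  refine ⟨a.take p ++ [t, s, t] ++ a.drop (p + 3), a.take p, a.drop (p + 3), s, t, h0, ?_, ?_, rfl⟩
  · have := (List.getElem?_eq_some_iff.mp h3).1
    simp
    omega
  · have hl := (List.getElem?_eq_some_iff.mp h3).1
    apply List.ext_getElem?
    intro q
    have hmin : min p a.length = p := by omega
    by_cases hq : q < p
    · rw [List.append_assoc, List.getElem?_append_left (by simp; omega),
        List.getElem?_take_of_lt hq]
    · by_cases hq2 : p + 3 ≤ q
      · rw [List.getElem?_append_right (by simp; omega), List.getElem?_drop]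
        congr 1
        simp
        omega
      · rw [List.append_assoc, List.getElem?_append_right (by simp; omega)]
        have : q = p ∨ q = p + 1 ∨ q = p + 2 := by omega
        rcases this with rfl | rfl | rfl
        · simp [h1, hmin]
        · simp [h2, hmin]
        · simp [h3, hmin]

theorem ActiveL.active {M : CoxeterMatrix B} {p : ℕ} {a : List B} {s t : B}
    (h : ActiveL M p a s t) : Active M p a := h.move

theorem Active.activeL {M : CoxeterMatrix B} {p : ℕ} {a : List B}
    (h : Active M p a) : ∃ s t, ActiveL M p a s t := by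
  obtain ⟨b, h⟩ := h
  obtain ⟨s, t, h1, -⟩ := h.activeL
  exact ⟨s, t, h1⟩

/-- The Coxeter graph contains no triangle. -/
def TriangleFree (M : CoxeterMatrix B) : Prop :=
  ∀ s t u, M s t = 3 → M t u = 3 → M s u = 3 → False

theorem exists_seq {α : Type*} {r : α → α → Prop} {a b : α} (h : Relation.ReflTransGen r a b) :
    ∃ (k : ℕ) (f : ℕ → α), f 0 = a ∧ f k = b ∧ ∀ i < k, r (f i) (f (i + 1)) := by
  induction h with
  | refl => exact ⟨0, fun _ => a, rfl, rfl, fun i hi => by omega⟩
  | @tail c d _ h ih =>
    obtain ⟨k, f, h0, hk, hf⟩ := ih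
    refine ⟨k + 1, fun i => if i ≤ k then f i else d, by simp [h0], by simp, ?_⟩
    intro i hi
    by_cases hik : i < k
    · have h1 : i ≤ k := by omega
      have h2 : i + 1 ≤ k := by omega
      simp only [h1, h2, if_true]
      exact hf i hik
    · have h1 : i = k := by omega
      subst h1
      simp only [le_refl, if_true]
      rw [if_neg (by omega), hk]
      exact h

section group

variable {W : Type*} [Group W] {M : CoxeterMatrix B} (cs : CoxeterSystem M W)

theorem not_adjacent' {a b : List B} (ha : cs.IsReduced a)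
    (h : Relation.ReflTransGen (Move M) a b) {q : ℕ} (h1 : Active M (q + 1) a)
    (h2 : Active M q b) : False :=
  not_adjacent cs (isReduced_of_mem cs ha h) (conn_symm h) h2 h1

/-- **Claim 2.** In the triangle-free case the pair of letters of a window is constant. -/
theorem pair_const_aux (htf : TriangleFree M) (k : ℕ) : ∀ f : ℕ → List B, cs.IsReduced (f 0) →
    (∀ i < k, Move M (f i) (f (i + 1))) → ∀ p s t u v, ActiveL M p (f 0) s t →
    ActiveL M p (f k) u v → (s = u ∧ t = v) ∨ (s = v ∧ t = u) := by
  induction k using Nat.strong_induction_on with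
  | _ k ih =>
  intro f hred hf p s t u v h0 hk
  have hw : ∀ i, ∃ w, i < k → MoveAt M w (f i) (f (i + 1)) := by
    intro i
    by_cases hi : i < k
    · obtain ⟨w, h⟩ := hf i hi
      exact ⟨w, fun _ => h⟩
    · exact ⟨0, fun h => absurd h hi⟩
  choose w hw using hw
  have hconn : ∀ i, i ≤ k → Relation.ReflTransGen (Move M) (f 0) (f i) := by
    intro i
    induction i with
    | zero => intro _; exact Relation.ReflTransGen.refl
    | succ i ihi => intro hi; exact (ihi (by omega)).tail (hf i (by omega))
  have hsub : ∀ i j, i + j ≤ k → j < k → ∀ p s t u v, ActiveL M p (f i) s t →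
      ActiveL M p (f (i + j)) u v → (s = u ∧ t = v) ∨ (s = v ∧ t = u) := by
    intro i j hij hjk p s t u v h1 h2
    refine ih j hjk (fun l => f (i + l)) (isReduced_of_mem cs hred (hconn i (by omega))) ?_
      p s t u v h1 h2
    intro l hl
    exact hf (i + l) (by omega)
  by_cases hA : ∃ i, 0 < i ∧ i < k ∧ Active M p (f i)
  · obtain ⟨i, hi0, hik, hact⟩ := hA
    obtain ⟨x, y, hxy⟩ := hact.activeL
    have e1 := hsub 0 i (by omega) hik p s t x y h0 (by rwa [zero_add])
    have e2 := hsub i (k - i) (by omega) (by omega) p x y u v hxy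
      (by rwa [show i + (k - i) = k by omega])
    rcases e1 with ⟨rfl, rfl⟩ | ⟨rfl, rfl⟩ <;> rcases e2 with ⟨rfl, rfl⟩ | ⟨rfl, rfl⟩ <;> simp
  · by_cases hB : ∃ i, i < k ∧ w i = p
    · obtain ⟨i, hik, hwi⟩ := hB
      have hm := hw i hik
      rw [hwi] at hm
      have hi0 : i = 0 := by
        by_contra hne
        exact hA ⟨i, by omega, hik, hm.active⟩
      subst hi0
      have hk1 : k = 1 := by
        by_contra hne
        exact hA ⟨1, by omega, by omega, hm.active'⟩
      subst hk1
      obtain ⟨x, y, h1, h2⟩ := hm.activeL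
      have e1 := h0.unique h1
      have e2 := hk.unique h2
      right
      exact ⟨by rw [e1.1, e2.2], by rw [e1.2, e2.1]⟩
    · have hwp : ∀ i, i < k → w i ≠ p := fun i hi h => hB ⟨i, hi, h⟩
      have hwp1 : ∀ i, i < k → w i ≠ p + 1 := by
        intro i hi h
        have hm := hw i hi
        rw [h] at hm
        exact not_adjacent cs hred (hconn i (by omega)) h0.active hm.active
      have hwp2 : ∀ i, i < k → w i + 1 ≠ p := by
        intro i hi h
        have hm := hw i hi
        refine not_adjacent' cs hred (hconn i (by omega)) (q := w i) ?_ hm.active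
        rw [h]
        exact h0.active
      have hmid : ∀ i, i ≤ k → (f i)[p + 1]? = some t := by
        intro i
        induction i with
        | zero => intro _; exact h0.2.2.1
        | succ i ihi =>
          intro hi
          have h1 := hwp i (by omega)
          have h2 := hwp1 i (by omega)
          have h3 := hwp2 i (by omega)
          rw [← (hw i (by omega)).outside (by omega)]
          exact ihi (by omega)
      have htv : t = v := by
        have := hmid k le_rfl
        rw [hk.2.2.1] at this
        exact (Option.some.inj this).symm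
      left
      refine ⟨?_, htv⟩
      by_contra hsu
      have hfirst : ∀ i, i ≤ k → (f i)[p]? = some s ∨
          ∃ i0 < i, w i0 + 2 = p ∧ (f i0)[p]? = some s := by
        intro i
        induction i with
        | zero => intro _; exact Or.inl h0.2.1
        | succ i ihi =>
          intro hi
          rcases ihi (by omega) with h | ⟨i0, h1, h2, h3⟩
          · by_cases hwi : w i + 2 = p
            · exact Or.inr ⟨i, by omega, hwi, h⟩
            · left
              have h1 := hwp i (by omega)
              have h2 := hwp1 i (by omega)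
              have h3 := hwp2 i (by omega)
              rw [← (hw i (by omega)).outside (by omega)]
              exact h
          · exact Or.inr ⟨i0, by omega, h2, h3⟩
      have hlast : ∀ i, i ≤ k → (f (k - i))[p]? = some u ∨
          ∃ j0, j0 < k ∧ w j0 + 2 = p ∧ (f (j0 + 1))[p]? = some u := by
        intro i
        induction i with
        | zero => intro _; exact Or.inl hk.2.1
        | succ i ihi =>
          intro hi
          rcases ihi (by omega) with h | ⟨j0, h1, h2, h3⟩
          · by_cases hwi : w (k - (i + 1)) + 2 = p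
            · right
              refine ⟨k - (i + 1), by omega, hwi, ?_⟩
              rw [show k - (i + 1) + 1 = k - i by omega]
              exact h
            · left
              have h1 := hwp (k - (i + 1)) (by omega)
              have h2 := hwp1 (k - (i + 1)) (by omega)
              have h3 := hwp2 (k - (i + 1)) (by omega)
              rw [(hw (k - (i + 1)) (by omega)).outside (by omega),
                show k - (i + 1) + 1 = k - i by omega]
              exact h
          · exact Or.inr ⟨j0, h1, h2, h3⟩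
      obtain ⟨i0, hi0, hwi0, hs⟩ : ∃ i0 < k, w i0 + 2 = p ∧ (f i0)[p]? = some s := by
        rcases hfirst k le_rfl with h | h
        · exfalso
          rw [hk.2.1] at h
          exact hsu (Option.some.inj h).symm
        · exact h
      obtain ⟨j0, hj0, hwj0, hu⟩ : ∃ j0 < k, w j0 + 2 = p ∧ (f (j0 + 1))[p]? = some u := by
        rcases hlast k le_rfl with h | h
        · exfalso
          rw [Nat.sub_self, h0.2.1] at h
          exact hsu (Option.some.inj h)
        · exact h
      have hmi := hw i0 hi0
      have hmj := hw j0 hj0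
      have hww : w j0 = w i0 := by omega
      rw [hww] at hmj
      obtain ⟨x, y, e1, e2⟩ := hmi.activeL
      obtain ⟨x', y', e3, e4⟩ := hmj.activeL
      have hxs : x = s := by
        have := e1.2.2.2
        rw [hwi0, hs] at this
        exact (Option.some.inj this).symm
      have hyu : y' = u := by
        have := e4.2.2.2
        rw [hwi0, hu] at this
        exact (Option.some.inj this).symm
      subst hxs hyu
      have hMxy : M x y' = 3 := by
        rcases lt_trichotomy i0 j0 with hlt | heq | hlt
        · have := hsub (i0 + 1) (j0 - i0 - 1) (by omega) (by omega) (w i0) y x x' y' e2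
            (by rwa [show i0 + 1 + (j0 - i0 - 1) = j0 by omega])
          rcases this with ⟨h1, h2⟩ | ⟨h1, h2⟩
          · exact absurd h2 hsu
          · rw [← h1]; exact e1.1
        · subst heq
          have := e2.unique e4
          rw [← this.1]
          exact e1.1
        · have := hsub (j0 + 1) (i0 - j0 - 1) (by omega) (by omega) (w i0) y' x' x y e4
            (by rwa [show j0 + 1 + (i0 - j0 - 1) = i0 by omega])
          rcases this with ⟨h1, h2⟩ | ⟨h1, h2⟩
          · exact absurd h1.symm hsu
          · rw [h1]; exact e1.1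
      have g1 := h0.1
      have g2 := hk.1
      rw [← htv] at g2
      exact htf x t y' g1 (by rw [M.symmetric]; exact g2) hMxy

theorem pair_const (htf : TriangleFree M) {a b : List B} (ha : cs.IsReduced a)
    (h : Relation.ReflTransGen (Move M) a b) {p : ℕ} {s t u v : B} (h1 : ActiveL M p a s t)
    (h2 : ActiveL M p b u v) : (s = u ∧ t = v) ∨ (s = v ∧ t = u) := by
  obtain ⟨k, f, h0, hk, hf⟩ := exists_seq h
  subst h0 hk
  exact pair_const_aux cs htf k f ha hf p s t u v h1 h2

theorem letter_const {f : ℕ → List B} {w : ℕ → ℕ} {q i : ℕ} (j : ℕ) (hij : i ≤ j)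
    (hw : ∀ l, i ≤ l → l < j → MoveAt M (w l) (f l) (f (l + 1)))
    (hout : ∀ l, i ≤ l → l < j → q < w l ∨ w l + 3 ≤ q) : (f j)[q]? = (f i)[q]? := by
  induction j, hij using Nat.le_induction with
  | base => rfl
  | succ j hij ih =>
    rw [← (hw j hij (Nat.lt_succ_self j)).outside (hout j hij (Nat.lt_succ_self j))]
    exact ih (fun l h1 h2 => hw l h1 (Nat.lt_succ_of_lt h2))
      (fun l h1 h2 => hout l h1 (Nat.lt_succ_of_lt h2))

theorem token_const {f : ℕ → List B} {w : ℕ → ℕ} {q i : ℕ} {y : W} (j : ℕ) (hij : i ≤ j)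
    (hred : ∀ l, i ≤ l → l < j → cs.IsReduced (f l))
    (hw : ∀ l, i ≤ l → l < j → MoveAt M (w l) (f l) (f (l + 1)))
    (hout : ∀ l, i ≤ l → l < j → w l ≠ q ∧ w l + 2 ≠ q) (hy : pos cs (f i) y = q) :
    pos cs (f j) y = q := by
  induction j, hij using Nat.le_induction with
  | base => exact hy
  | succ j hij ih =>
    have h0 := ih (fun l h1 h2 => hred l h1 (Nat.lt_succ_of_lt h2))
      (fun l h1 h2 => hw l h1 (Nat.lt_succ_of_lt h2))
      (fun l h1 h2 => hout l h1 (Nat.lt_succ_of_lt h2))
    obtain ⟨h1, h3⟩ := hout j hij (Nat.lt_succ_self j)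
    obtain ⟨x1, z1, y1, -, -, -, k1, -, k3, -, -, -, k4, -⟩ :=
      (hw j hij (Nat.lt_succ_self j)).pos cs (hred j hij (Nat.lt_succ_self j))
    rw [k4 y (by rintro rfl; omega) (by rintro rfl; omega)]
    exact h0

/-- The tokens swapped by a descending move. -/
theorem down_tokens {a b g : List B} (hg : cs.IsReduced g) {S : Finset W}
    (hS : ∀ t, t ∈ S ↔ t ∈ cs.leftInvSeq g) {p : ℕ} (h : MoveAt M p a b)
    (hd : Down cs S g a b) : ∃ x y : W, x ∈ cs.leftInvSeq a ∧ y ∈ cs.leftInvSeq a ∧
      pos cs a x = p ∧ pos cs a y = p + 2 ∧ pos cs b x = p + 2 ∧ pos cs b y = p ∧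
      p + 2 ≤ pos cs g x ∧ pos cs g y ≤ p := by
  obtain ⟨hga, -, hdisp⟩ := hd
  have ha := isReduced_of_mem cs hg hga
  have hSa : ∀ t, t ∈ S ↔ t ∈ cs.leftInvSeq a := fun t => by rw [hS, mem_iff cs hg hga]
  obtain ⟨x, z, y, mx, mc, my, e1, e2, e3, e4, e5, e6, -⟩ := h.pos cs ha
  rcases dichotomy cs ha (conn_symm hga) hSa h mx my e1 e3 with h' | h'
  · exact ⟨x, y, mx, my, e1, e3, e4, e6, h'.1, h'.2.1⟩
  · exfalso
    linarith [h'.2.2]

/-- A geodesic uses every window at most once. -/
theorem window_once (htf : TriangleFree M) {g : List B} (hg : cs.IsReduced g) {S : Finset W}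
    (hS : ∀ t, t ∈ S ↔ t ∈ cs.leftInvSeq g) (k : ℕ) (f : ℕ → List B) (w : ℕ → ℕ)
    (hf : ∀ i < k, Down cs S g (f i) (f (i + 1)))
    (hw : ∀ i < k, MoveAt M (w i) (f i) (f (i + 1))) (d : ℕ) :
    ∀ i, i + (d + 1) < k → w i ≠ w (i + (d + 1)) := by
  induction d using Nat.strong_induction_on with
  | _ d ih =>
  intro i hik heq
  set j := i + (d + 1) with hj
  set p := w i with hp
  have hcl : ∀ l, l < k → Relation.ReflTransGen (Move M) g (f l) := fun l hl => (hf l hl).1
  have hred : ∀ l, l < k → cs.IsReduced (f l) := fun l hl => isReduced_of_mem cs hg (hcl l hl)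
  have hconn : ∀ l l', l < k → l' < k → Relation.ReflTransGen (Move M) (f l) (f l') :=
    fun l l' hl hl' => (conn_symm (hcl l hl)).trans (hcl l' hl')
  -- closer windows are different
  have hclose : ∀ l l', i ≤ l → l < l' → l' ≤ j → l' - l < j - i → w l ≠ w l' := by
    intro l l' h1 h2 h3 h4
    have := ih (l' - l - 1) (by omega) l (by omega)
    rwa [show l + (l' - l - 1 + 1) = l' by omega] at this
  have hnp : ∀ l, i < l → l < j → w l ≠ p := by
    intro l h1 h2 h3
    exact hclose i l le_rfl h1 (by omega) (by omega) (by rw [← hp, h3])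
  have hmi := hw i (by omega)
  have hmj := hw j (by omega)
  rw [← heq] at hmj
  have hnp1 : ∀ l, i < l → l < j → w l ≠ p + 1 := by
    intro l h1 h2 h3
    have hm := hw l (by omega)
    rw [h3] at hm
    exact not_adjacent cs (hred i (by omega)) (hconn i l (by omega) (by omega)) hmi.active
      hm.active
  have hnp2 : ∀ l, i < l → l < j → w l + 1 ≠ p := by
    intro l h1 h2 h3
    have hm := hw l (by omega)
    refine not_adjacent' cs (hred i (by omega)) (hconn i l (by omega) (by omega)) (q := w l) ?_
      hm.active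
    rw [h3]
    exact hmi.active
  obtain ⟨x, y, mx, my, a1, a2, a3, a4, a5, a6⟩ := down_tokens cs hg hS hmi (hf i (by omega))
  obtain ⟨x', y', mx', my', b1, b2, b3, b4, b5, b6⟩ := down_tokens cs hg hS hmj (hf j (by omega))
  -- the letters
  obtain ⟨s, t, c1, c2⟩ := hmi.activeL
  obtain ⟨u, v, d1, -⟩ := hmj.activeL
  have hfar : ∀ l, i < l → l < j → w l + 2 ≠ p → (p < w l ∨ w l + 3 ≤ p) := by
    intro l h1 h2 h3
    have e1 := hnp l h1 h2
    have e2 := hnp1 l h1 h2
    have e3 := hnp2 l h1 h2
    clear * - h3 e1 e2 e3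
    omega
  have hfar' : ∀ l, i < l → l < j → (p + 1 < w l ∨ w l + 3 ≤ p + 1) := by
    intro l h1 h2
    have e1 := hnp l h1 h2
    have e2 := hnp1 l h1 h2
    have e3 := hnp2 l h1 h2
    clear * - e1 e2 e3
    omega
  have hij : i + 1 ≤ j := by omega
  have hvs : v = s := by
    have := letter_const (q := p + 1) j hij (fun l h1 h2 => hw l (h2.trans hik))
      (fun l h1 h2 => hfar' l h1 h2)
    rw [d1.2.2.1, c2.2.2.1] at this
    exact Option.some.inj this
  have hut : u = t := by
    rcases pair_const cs htf (hred i (by omega)) (hconn i j (by omega) (by omega)) c1 d1 with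
      ⟨h1, h2⟩ | ⟨h1, h2⟩
    · exfalso
      exact ne_of_three c1.1 (by rw [h2, hvs])
    · exact h2.symm
  -- the window to the left is used
  have hex : ∃ l, i < l ∧ l < j ∧ w l + 2 = p := by
    by_contra hcon
    push Not at hcon
    have h1 := token_const cs (q := p) (y := y) j hij (fun l h1 h2 => hred l (h2.trans hik))
      (fun l h1 h2 => hw l (h2.trans hik)) (fun l h1 h2 => ⟨hnp l h1 h2, hcon l h1 h2⟩) a4
    have : x' = y := pos_inj cs (a := f j) mx' (by rw [b1, h1])
    subst this
    omega
  obtain ⟨l, hil, hlj, hwl⟩ := hex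
  have hd' : j - i = d + 1 := by omega
  clear_value j
  have huniq : ∀ l', i < l' → l' < j → l' ≠ l → w l' + 2 ≠ p := by
    intro l' h1 h2 h3 h4
    have hww : w l' = w l := by omega
    rcases lt_or_gt_of_ne h3 with h | h
    · refine hclose l' l h1.le h hlj.le ?_ hww
      clear * - h1 h hlj
      omega
    · refine hclose l l' hil.le h h2.le ?_ hww.symm
      clear * - hil h h2
      omega
  have e1 : (f l)[p]? = some t := by
    have := letter_const (q := p) l (show i + 1 ≤ l from hil)
      (fun m h1 h2 => hw m ((h2.trans hlj).trans hik))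
      (fun m h1 h2 => hfar m h1 (h2.trans hlj) (huniq m h1 (h2.trans hlj) h2.ne))
    rw [this]
    exact c2.2.1
  have e2 : (f (l + 1))[p]? = some t := by
    have := letter_const (q := p) j (show l + 1 ≤ j from hlj)
      (fun m h1 h2 => hw m (h2.trans hik))
      (fun m h1 h2 => hfar m (hil.trans h1) h2 (huniq m (hil.trans h1) h2
        (Nat.lt_of_succ_le h1).ne'))
    rw [← this, d1.2.1, hut]
  obtain ⟨α, β, n1, n2⟩ := (hw l (hlj.trans hik)).activeL
  have n3 := n1.2.2.2
  have n4 := n2.2.2.2
  rw [hwl, e1] at n3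
  rw [hwl, e2] at n4
  have n5 : α = β := by rw [← Option.some.inj n3, ← Option.some.inj n4]
  exact ne_of_three n1.1 n5

/-- After a move towards `g` the middle letter of the window is that of `g`. -/
theorem middle_of_down (htf : TriangleFree M) {a b g : List B} (hg : cs.IsReduced g)
    {S : Finset W} (hS : ∀ t, t ∈ S ↔ t ∈ cs.leftInvSeq g) {p : ℕ} (h : MoveAt M p a b)
    (hd : Down cs S g a b) : b[p + 1]? = g[p + 1]? := by
  have hgb : Relation.ReflTransGen (Move M) g b := hd.1.tail hd.2.1
  obtain ⟨k, f, h0, hk, hf⟩ := exists_seq (exists_down_path cs hg hS hgb)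
  set f' : ℕ → List B := fun i => if i = 0 then a else f (i - 1) with hf'
  have hf'0 : f' 0 = a := by simp [hf']
  have hf's : ∀ i, f' (i + 1) = f i := by intro i; simp [hf']
  have hdown : ∀ i < k + 1, Down cs S g (f' i) (f' (i + 1)) := by
    intro i hi
    cases i with
    | zero => rw [hf'0, hf's, h0]; exact hd
    | succ i => rw [hf's, hf's]; exact hf i (by omega)
  have hw : ∀ i, ∃ w, i < k + 1 → MoveAt M w (f' i) (f' (i + 1)) := by
    intro i
    by_cases hi : i < k + 1
    · obtain ⟨w, h⟩ := (hdown i hi).2.1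
      exact ⟨w, fun _ => h⟩
    · exact ⟨0, fun h => absurd h hi⟩
  choose w hw using hw
  have hb := isReduced_of_mem cs hg hgb
  have hw0 : w 0 = p := by
    -- the moved window is determined
    have h1 := hw 0 (by omega)
    rw [hf'0, hf's, h0] at h1
    -- both moves change the token at the window
    have ha := isReduced_of_mem cs hg hd.1
    obtain ⟨x, z, y, mx, mc, my, e1, e2, e3, e4, e5, e6, e7, -⟩ := h.pos cs ha
    obtain ⟨x', z', y', mx', mc', my', e1', e2', e3', e4', e5', e6', e7', -⟩ := h1.pos cs ha
    by_contra hne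
    have hx : x' = x ∨ x' = y := by
      by_contra hcon
      push Not at hcon
      have := e7 x' hcon.1 hcon.2
      omega
    rcases hx with rfl | rfl
    · omega
    · omega
  have honce : ∀ i, i < k → w (i + 1) ≠ p := by
    intro i hi h1
    have := window_once cs htf hg hS (k + 1) f' w hdown (fun i hi => hw i hi) i 0 (by omega)
    rw [zero_add, h1, hw0] at this
    exact this rfl
  have key : ∀ i, i ≤ k → (f i)[p + 1]? = b[p + 1]? := by
    intro i
    induction i with
    | zero => intro _; rw [h0]
    | succ i ih =>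
      intro hi
      have hm := hw (i + 1) (by omega)
      rw [hf's, hf's] at hm
      have h1 := honce i (by omega)
      have hcl : Relation.ReflTransGen (Move M) g (f i) := (hf i (by omega)).1
      have h2 : w (i + 1) ≠ p + 1 := by
        intro h2
        rw [h2] at hm
        exact not_adjacent cs hb ((conn_symm hgb).trans hcl) h.active' hm.active
      have h3 : w (i + 1) + 1 ≠ p := by
        intro h3
        refine not_adjacent' cs hb ((conn_symm hgb).trans hcl) (q := w (i + 1)) ?_ hm.active
        rw [h3]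
        exact h.active'
      rw [← hm.outside (by omega)]
      exact ih (by omega)
  rw [← hk]
  exact (key k le_rfl).symm

/-- The window `p` is active in some word of the class of `a`. -/
def Ever (M : CoxeterMatrix B) (a : List B) (p : ℕ) : Prop :=
  ∃ b, Relation.ReflTransGen (Move M) a b ∧ Active M p b

theorem Ever.lt {a : List B} {p : ℕ} (h : Ever M a p) : p < a.length := by
  obtain ⟨b, h1, c, h2⟩ := h
  have := h2.lt
  rw [length_of_mem h1]
  omega

/-- Windows adjacent to a window that is active somewhere are never active. -/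
theorem ever_not_adjacent {a b : List B} (ha : cs.IsReduced a) {p : ℕ} (h : Ever M a p)
    (hb : Relation.ReflTransGen (Move M) a b) {w : ℕ} (hw : Active M w b) :
    w ≠ p + 1 ∧ w + 1 ≠ p := by
  obtain ⟨c, h1, h2⟩ := h
  have hc := isReduced_of_mem cs ha h1
  have hcb := (conn_symm h1).trans hb
  constructor
  · rintro rfl
    exact not_adjacent cs hc hcb h2 hw
  · rintro rfl
    exact not_adjacent' cs hc hcb h2 hw

/-- The middle letter of a window is one of the two letters of the window. -/
theorem mid_mem (htf : TriangleFree M) {a : List B} (ha : cs.IsReduced a) {p : ℕ} {c : List B}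
    (hc : Relation.ReflTransGen (Move M) a c) {s t : B} (hst : ActiveL M p c s t) {b : List B}
    (hb : Relation.ReflTransGen (Move M) a b) : b[p + 1]? = some s ∨ b[p + 1]? = some t := by
  have hcb := (conn_symm hc).trans hb
  clear hb
  have hE : Ever M a p := ⟨c, hc, hst.active⟩
  induction hcb with
  | refl => exact Or.inr hst.2.2.1
  | @tail b b' h1 h2 ih =>
    obtain ⟨w, hm⟩ := h2
    by_cases hwp : w = p
    · subst hwp
      obtain ⟨u, v, e1, e2⟩ := hm.activeL
      rcases pair_const cs htf (isReduced_of_mem cs ha hc) h1 hst e1 with ⟨rfl, rfl⟩ | ⟨rfl, rfl⟩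
      · exact Or.inl e2.2.2.1
      · exact Or.inr e2.2.2.1
    · obtain ⟨h3, h4⟩ := ever_not_adjacent cs ha hE (hc.trans h1) hm.active
      rw [← hm.outside (by omega)]
      exact ih

/-- The right end of a window without right neighbour. -/
theorem right_end {a : List B} (ha : cs.IsReduced a) {p : ℕ}
    (hE2 : ¬ Ever M a (p + 2)) {c : List B}
    (hc : Relation.ReflTransGen (Move M) a c) {s t : B} (hst : ActiveL M p c s t) {b : List B}
    (hb : Relation.ReflTransGen (Move M) a b) : (b[p + 1]? = some s ∧ b[p + 2]? = some t) ∨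
      (b[p + 1]? = some t ∧ b[p + 2]? = some s) := by
  have hcb := (conn_symm hc).trans hb
  clear hb
  have hE : Ever M a p := ⟨c, hc, hst.active⟩
  induction hcb with
  | refl => exact Or.inr ⟨hst.2.2.1, hst.2.2.2⟩
  | @tail b b' h1 h2 ih =>
    obtain ⟨w, hm⟩ := h2
    by_cases hwp : w = p
    · subst hwp
      obtain ⟨u, v, e1, e2⟩ := hm.activeL
      obtain ⟨-, -, f1, f2⟩ := e1
      obtain ⟨-, -, g1, g2⟩ := e2
      rw [f1, f2] at ih
      rcases ih with ⟨k1, k2⟩ | ⟨k1, k2⟩
      · right; rw [g1, g2]; exact ⟨k2, k1⟩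
      · left; rw [g1, g2]; exact ⟨k2, k1⟩
    · obtain ⟨h3, h4⟩ := ever_not_adjacent cs ha hE (hc.trans h1) hm.active
      have h5 : w ≠ p + 2 := by
        rintro rfl
        exact hE2 ⟨b, hc.trans h1, hm.active⟩
      rw [← hm.outside (by omega), ← hm.outside (by omega)]
      exact ih

/-- The left end of a window without left neighbour. -/
theorem left_end {a : List B} (ha : cs.IsReduced a) {p : ℕ}
    (hE2 : ∀ q, q + 2 = p → ¬ Ever M a q) {c : List B}
    (hc : Relation.ReflTransGen (Move M) a c) {s t : B} (hst : ActiveL M p c s t) {b : List B}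
    (hb : Relation.ReflTransGen (Move M) a b) : (b[p + 1]? = some s ∧ b[p]? = some t) ∨
      (b[p + 1]? = some t ∧ b[p]? = some s) := by
  have hcb := (conn_symm hc).trans hb
  clear hb
  have hE : Ever M a p := ⟨c, hc, hst.active⟩
  induction hcb with
  | refl => exact Or.inr ⟨hst.2.2.1, hst.2.1⟩
  | @tail b b' h1 h2 ih =>
    obtain ⟨w, hm⟩ := h2
    by_cases hwp : w = p
    · subst hwp
      obtain ⟨u, v, e1, e2⟩ := hm.activeL
      obtain ⟨-, f2, f1, -⟩ := e1
      obtain ⟨-, g2, g1, -⟩ := e2
      rw [f1, f2] at ih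
      rcases ih with ⟨k1, k2⟩ | ⟨k1, k2⟩
      · right; rw [g1, g2]; exact ⟨k2, k1⟩
      · left; rw [g1, g2]; exact ⟨k2, k1⟩
    · obtain ⟨h3, h4⟩ := ever_not_adjacent cs ha hE (hc.trans h1) hm.active
      have h5 : w + 2 ≠ p := fun h => hE2 w h ⟨b, hc.trans h1, hm.active⟩
      rw [← hm.outside (by omega), ← hm.outside (by omega)]
      exact ih

/-- The three possible states between two neighbouring windows. -/
def Triple (b : List B) (p : ℕ) (e f g : B) : Prop :=
  (b[p + 1]? = some f ∧ b[p + 2]? = some e ∧ b[p + 3]? = some g) ∨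
  (b[p + 1]? = some e ∧ b[p + 2]? = some f ∧ b[p + 3]? = some g) ∨
  (b[p + 1]? = some f ∧ b[p + 2]? = some g ∧ b[p + 3]? = some e)

theorem exists_triple (htf : TriangleFree M) {a : List B} (ha : cs.IsReduced a) {p : ℕ}
    (h1 : Ever M a p) (h2 : Ever M a (p + 2)) : ∃ e f g : B, M e f = 3 ∧ M e g = 3 ∧ f ≠ g ∧
      (∀ b, Relation.ReflTransGen (Move M) a b → Triple b p e f g) ∧
      (∀ b s t, Relation.ReflTransGen (Move M) a b → ActiveL M p b s t →
        (s = e ∧ t = f) ∨ (s = f ∧ t = e)) ∧
      (∀ b s t, Relation.ReflTransGen (Move M) a b → ActiveL M (p + 2) b s t →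
        (s = e ∧ t = g) ∨ (s = g ∧ t = e)) := by
  obtain ⟨c, hc, hca⟩ := h1
  obtain ⟨d, hd, hda⟩ := h2
  obtain ⟨s, t, hst⟩ := hca.activeL
  have hEp : Ever M a p := ⟨c, hc, hca⟩
  have hEp2 : Ever M a (p + 2) := ⟨d, hd, hda⟩
  -- a state in which the right end of `p` is free and the window `p + 2` is active
  obtain ⟨δ, hδ, hδa, hδr⟩ : ∃ δ, Relation.ReflTransGen (Move M) a δ ∧ Active M (p + 2) δ ∧
      ((δ[p + 1]? = some s ∧ δ[p + 2]? = some t) ∨ (δ[p + 1]? = some t ∧ δ[p + 2]? = some s)) := by
    have key : ∀ b, Relation.ReflTransGen (Move M) c b →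
        (∃ δ, Relation.ReflTransGen (Move M) a δ ∧ Active M (p + 2) δ ∧
          ((δ[p + 1]? = some s ∧ δ[p + 2]? = some t) ∨
            (δ[p + 1]? = some t ∧ δ[p + 2]? = some s))) ∨
        ((b[p + 1]? = some s ∧ b[p + 2]? = some t) ∨
            (b[p + 1]? = some t ∧ b[p + 2]? = some s)) := by
      intro b hb
      induction hb with
      | refl => exact Or.inr (Or.inr ⟨hst.2.2.1, hst.2.2.2⟩)
      | @tail b b' k1 k2 ih =>
        rcases ih with ih | ih
        · exact Or.inl ih
        · obtain ⟨w, hm⟩ := k2
          by_cases hw2 : w = p + 2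
          · left
            rw [hw2] at hm
            exact ⟨b, hc.trans k1, hm.active, ih⟩
          · right
            by_cases hwp : w = p
            · subst hwp
              obtain ⟨u, v, e1, e2⟩ := hm.activeL
              obtain ⟨-, -, f1, f2⟩ := e1
              obtain ⟨-, -, g1, g2⟩ := e2
              rw [f1, f2] at ih
              rcases ih with ⟨l1, l2⟩ | ⟨l1, l2⟩
              · right; rw [g1, g2]; exact ⟨l2, l1⟩
              · left; rw [g1, g2]; exact ⟨l2, l1⟩
            · obtain ⟨h3, h4⟩ := ever_not_adjacent cs ha hEp (hc.trans k1) hm.active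
              rw [← hm.outside (by omega), ← hm.outside (by omega)]
              exact ih
    rcases key d ((conn_symm hc).trans hd) with h | h
    · exact h
    · exact ⟨d, hd, hda, h⟩
  -- name the letters
  obtain ⟨e, f, hef, hpair, k1, k2⟩ : ∃ e f, M e f = 3 ∧ ((s = e ∧ t = f) ∨ (s = f ∧ t = e)) ∧
      δ[p + 1]? = some f ∧ δ[p + 2]? = some e := by
    rcases hδr with ⟨k1, k2⟩ | ⟨k1, k2⟩
    · exact ⟨t, s, by rw [M.symmetric]; exact hst.1, Or.inr ⟨rfl, rfl⟩, k1, k2⟩
    · exact ⟨s, t, hst.1, Or.inl ⟨rfl, rfl⟩, k1, k2⟩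
  obtain ⟨e', g, heg⟩ := hδa.activeL
  have hee : e' = e := by
    have := heg.2.1
    rw [k2] at this
    exact (Option.some.inj this).symm
  subst hee
  have hfg : f ≠ g := by
    rintro rfl
    have : ActiveL M (p + 1) δ f e' := ⟨by rw [M.symmetric]; exact hef, k1, k2, heg.2.2.1⟩
    exact not_adjacent cs (isReduced_of_mem cs ha hδ) Relation.ReflTransGen.refl this.active hδa
  refine ⟨e', f, g, hef, heg.1, hfg, ?_, ?_, ?_⟩
  rotate_left
  · intro b u v hb huv
    rcases pair_const cs htf (isReduced_of_mem cs ha hc) ((conn_symm hc).trans hb) hst huv with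
      ⟨rfl, rfl⟩ | ⟨rfl, rfl⟩
    · exact hpair
    · rcases hpair with ⟨h5, h6⟩ | ⟨h5, h6⟩
      · exact Or.inr ⟨h6, h5⟩
      · exact Or.inl ⟨h6, h5⟩
  · intro b u v hb huv
    rcases pair_const cs htf (isReduced_of_mem cs ha hδ) ((conn_symm hδ).trans hb) heg huv with
      ⟨rfl, rfl⟩ | ⟨rfl, rfl⟩
    · exact Or.inl ⟨rfl, rfl⟩
    · exact Or.inr ⟨rfl, rfl⟩
  intro b hb
  have hδb := (conn_symm hδ).trans hb
  clear hb
  induction hδb with
  | refl => exact Or.inl ⟨k1, k2, heg.2.2.1⟩
  | @tail b b' l1 l2 ih =>
    obtain ⟨w, hm⟩ := l2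
    obtain ⟨n1, n2⟩ := ever_not_adjacent cs ha hEp (hδ.trans l1) hm.active
    obtain ⟨n3, n4⟩ := ever_not_adjacent cs ha hEp2 (hδ.trans l1) hm.active
    by_cases hwp : w = p
    · subst hwp
      obtain ⟨u, v, e1, e2⟩ := hm.activeL
      have hpc := pair_const cs htf (isReduced_of_mem cs ha hc)
        ((conn_symm hc).trans (hδ.trans l1)) hst e1
      obtain ⟨hMuv, -, f1, f2⟩ := e1
      obtain ⟨-, -, g1, g2⟩ := e2
      have h3 : b'[w + 3]? = b[w + 3]? := (hm.outside (by omega)).symm
      rcases ih with ⟨m1, m2, m3⟩ | ⟨m1, m2, m3⟩ | ⟨m1, m2, m3⟩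
      · right; left
        rw [f1] at m1
        rw [f2] at m2
        exact ⟨by rw [g1]; exact m2, by rw [g2]; exact m1, by rw [h3]; exact m3⟩
      · left
        rw [f1] at m1
        rw [f2] at m2
        exact ⟨by rw [g1]; exact m2, by rw [g2]; exact m1, by rw [h3]; exact m3⟩
      · exfalso
        rw [f1] at m1
        rw [f2] at m2
        have q1 := Option.some.inj m1
        have q2 := Option.some.inj m2
        subst q1 q2
        have hge : u ≠ e' := fun h => ne_of_three heg.1 h.symm
        have hfe : v ≠ e' := fun h => ne_of_three hef h.symm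
        rcases hpair with ⟨rfl, rfl⟩ | ⟨rfl, rfl⟩ <;> rcases hpc with ⟨h5, h6⟩ | ⟨h5, h6⟩ <;>
          simp_all
    · by_cases hwp2 : w = p + 2
      · subst hwp2
        obtain ⟨u, v, e1, e2⟩ := hm.activeL
        have hpc := pair_const cs htf (isReduced_of_mem cs ha hδ) l1 heg e1
        obtain ⟨hMuv, f1, f2, -⟩ := e1
        obtain ⟨-, g1, g2, -⟩ := e2
        have h3 : b'[p + 1]? = b[p + 1]? := (hm.outside (by omega)).symm
        rcases ih with ⟨m1, m2, m3⟩ | ⟨m1, m2, m3⟩ | ⟨m1, m2, m3⟩
        · right; right
          rw [f1] at m2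
          rw [f2] at m3
          exact ⟨by rw [h3]; exact m1, by rw [g1]; exact m3, by rw [g2]; exact m2⟩
        · exfalso
          rw [f1] at m2
          rw [f2] at m3
          have q1 := Option.some.inj m2
          have q2 := Option.some.inj m3
          subst q1 q2
          have hge : v ≠ e' := fun h => ne_of_three heg.1 h.symm
          have hfe : u ≠ e' := fun h => ne_of_three hef h.symm
          rcases hpc with ⟨h5, h6⟩ | ⟨h5, h6⟩
          · exact hfe h5.symm
          · exact hge h5.symm
        · left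
          rw [f1] at m2
          rw [f2] at m3
          exact ⟨by rw [h3]; exact m1, by rw [g1]; exact m3, by rw [g2]; exact m2⟩
      · unfold Triple
        rw [← hm.outside (by omega), ← hm.outside (by omega), ← hm.outside (by omega)]
        exact ih

/-- The windows that are active somewhere. -/
noncomputable def everSet (M : CoxeterMatrix B) (a : List B) : Finset ℕ := by
  classical
  exact (Finset.range a.length).filter (Ever M a)

theorem mem_everSet {a : List B} {p : ℕ} : p ∈ everSet M a ↔ Ever M a p := by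
  classical
  unfold everSet
  rw [Finset.mem_filter, Finset.mem_range]
  exact ⟨fun h => h.2, fun h => ⟨h.lt, h⟩⟩

open Classical in
/-- The number of windows whose middle letters differ. -/
noncomputable def midDist (M : CoxeterMatrix B) (a x y : List B) : ℕ :=
  ((everSet M a).filter (fun p => x[p + 1]? ≠ y[p + 1]?)).card

/-- A move changes the middle letter of its window only. -/
theorem MoveAt.mid {a x y : List B} (ha : cs.IsReduced a)
    (hx : Relation.ReflTransGen (Move M) a x) {p : ℕ} (h : MoveAt M p x y) :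
    x[p + 1]? ≠ y[p + 1]? ∧ ∀ q, Ever M a q → q ≠ p → x[q + 1]? = y[q + 1]? := by
  constructor
  · obtain ⟨s, t, h1, h2⟩ := h.activeL
    rw [h1.2.2.1, h2.2.2.1]
    intro h3
    exact ne_of_three h1.1 (Option.some.inj h3).symm
  · intro q hq hqp
    obtain ⟨h1, h2⟩ := ever_not_adjacent cs ha hq hx h.active
    exact h.outside (by omega)

/-- The displacement is four times the number of windows with different middle letters. -/
theorem disp_eq_midDist (htf : TriangleFree M) {a : List B} (ha : cs.IsReduced a) {S : Finset W}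
    (hS : ∀ t, t ∈ S ↔ t ∈ cs.leftInvSeq a) {g : List B}
    (hg : Relation.ReflTransGen (Move M) a g) : ∀ (n : ℕ) (x : List B),
    Relation.ReflTransGen (Move M) a x → disp cs S x g ≤ n → disp cs S x g = 4 * midDist M a x g := by
  classical
  have hgred := isReduced_of_mem cs ha hg
  have hSg : ∀ t, t ∈ S ↔ t ∈ cs.leftInvSeq g := fun t => by rw [hS, mem_iff cs ha hg]
  intro n
  induction n with
  | zero =>
    intro x hx hn
    by_cases hxg : x = g
    · subst hxg
      rw [disp_self]
      simp [midDist]
    · exfalso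
      obtain ⟨b, hb⟩ := exists_down cs hgred hSg ((conn_symm hg).trans hx) hxg
      have h1 := hb.2.2
      have h2 := disp_nonneg cs S b g
      push_cast at hn
      omega
  | succ n ih =>
    intro x hx hn
    by_cases hxg : x = g
    · subst hxg
      rw [disp_self]
      simp [midDist]
    · obtain ⟨b, hb⟩ := exists_down cs hgred hSg ((conn_symm hg).trans hx) hxg
      obtain ⟨p, hp⟩ := hb.2.1
      have hbm := middle_of_down cs htf hgred hSg hp hb
      have hxb := MoveAt.mid cs ha hx hp
      have h1 := ih b (hx.tail ⟨p, hp⟩) (by have := hb.2.2; push_cast at hn; omega)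
      have hE : Ever M a p := ⟨x, hx, hp.active⟩
      have h2 : midDist M a x g = midDist M a b g + 1 := by
        unfold midDist
        have : (everSet M a).filter (fun q => x[q + 1]? ≠ g[q + 1]?) =
            insert p ((everSet M a).filter (fun q => b[q + 1]? ≠ g[q + 1]?)) := by
          ext q
          rw [Finset.mem_insert, Finset.mem_filter, Finset.mem_filter, mem_everSet]
          constructor
          · rintro ⟨h3, h4⟩
            by_cases hqp : q = p
            · exact Or.inl hqp
            · right
              exact ⟨h3, by rw [← hxb.2 q h3 hqp]; exact h4⟩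
          · rintro (rfl | ⟨h3, h4⟩)
            · exact ⟨hE, by rw [← hbm]; exact hxb.1⟩
            · refine ⟨h3, ?_⟩
              by_cases hqp : q = p
              · subst hqp
                exact absurd hbm h4
              · rw [hxb.2 q h3 hqp]; exact h4
        rw [this, Finset.card_insert_of_notMem]
        intro h3
        exact (Finset.mem_filter.mp h3).2 hbm
      have h3 := hb.2.2
      rw [h2]
      push_cast
      linarith

theorem dist_eq_midDist (htf : TriangleFree M) {a : List B} (ha : cs.IsReduced a)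
    (x g : braidClass M a) : (braidGraph M a).dist x g = midDist M a x.1 g.1 := by
  classical
  have hS : ∀ t, t ∈ (cs.leftInvSeq a).toFinset ↔ t ∈ cs.leftInvSeq a := fun t => List.mem_toFinset
  have h1 := four_dist cs ha hS x g
  have h0 := disp_nonneg cs (cs.leftInvSeq a).toFinset x.1 g.1
  have h2 := disp_eq_midDist cs htf ha hS g.2
    (disp cs (cs.leftInvSeq a).toFinset x.1 g.1).toNat x.1 x.2 (by omega)
  omega

end group

/-- Abstract existence of two states that differ at every window. -/
theorem exists_antipodal {C : Type*} (c0 : C) (N : ℕ) (Sh : ℕ → Prop) (hN : ∀ p, Sh p → p < N)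
    (σ : C → ℕ → Bool) (ε η : ℕ → Bool)
    (hmove : ∀ c p, Sh p → ¬ (Sh (p + 2) ∧ σ c (p + 2) = η p) →
      (∀ q, q + 2 = p → Sh q → σ c q ≠ ε q) →
      ∃ c', σ c' p ≠ σ c p ∧ ∀ q, Sh q → q ≠ p → σ c' q = σ c q)
    (hexc : ∀ c p, Sh p → Sh (p + 2) → ¬ (σ c p = ε p ∧ σ c (p + 2) = η p)) :
    ∃ c c', ∀ p, Sh p → σ c p ≠ σ c' p := by
  classical
  -- every allowed vector is realized
  have hreal : ∀ x : ℕ → Bool, (∀ p, Sh p → Sh (p + 2) → ¬ (x p = ε p ∧ x (p + 2) = η p)) →
      ∃ c, ∀ p, Sh p → σ c p = x p := by
    intro x hx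
    -- among the wrong windows one can be moved
    have hstep : ∀ c, (∃ p, Sh p ∧ σ c p ≠ x p) → ∃ c' p, Sh p ∧ σ c p ≠ x p ∧ σ c' p = x p ∧
        ∀ q, Sh q → q ≠ p → σ c' q = σ c q := by
      intro c hwrong
      by_contra hcon
      have hblocked : ∀ p, Sh p → σ c p ≠ x p → (Sh (p + 2) ∧ σ c (p + 2) = η p) ∨
          ∃ q, q + 2 = p ∧ Sh q ∧ σ c q = ε q := by
        intro p hp hpx
        by_contra hnb
        push Not at hnb
        obtain ⟨c', h1, h2⟩ := hmove c p hp (fun h => hnb.1 h.1 h.2)
          (fun q hq hSq => hnb.2 q hq hSq)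
        refine hcon ⟨c', p, hp, hpx, ?_, h2⟩
        revert h1 hpx
        cases σ c' p <;> cases σ c p <;> cases x p <;> simp
      have hright : ∀ p, Sh p → σ c p ≠ x p → Sh (p + 2) → σ c (p + 2) = η p → False := by
        intro p hp hpx hp2 hc2
        have key : ∀ k, Sh (p + 2 * k) ∧ σ c (p + 2 * k) ≠ x (p + 2 * k) ∧
            Sh (p + 2 * k + 2) ∧ σ c (p + 2 * k + 2) = η (p + 2 * k) := by
          intro k
          induction k with
          | zero => exact ⟨hp, hpx, hp2, hc2⟩
          | succ k ih =>
            obtain ⟨h1, h2, h3, h4⟩ := ih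
            have h5 : σ c (p + 2 * k) ≠ ε (p + 2 * k) := fun h => hexc c _ h1 h3 ⟨h, h4⟩
            have h6 : x (p + 2 * k) = ε (p + 2 * k) := by
              revert h5 h2
              cases σ c (p + 2 * k) <;> cases x (p + 2 * k) <;> cases ε (p + 2 * k) <;> simp
            have h7 : x (p + 2 * k + 2) ≠ η (p + 2 * k) := fun h => hx _ h1 h3 ⟨h6, h⟩
            have h8 : σ c (p + 2 * k + 2) ≠ x (p + 2 * k + 2) := by
              rw [h4]; exact h7.symm
            have e : p + 2 * (k + 1) = p + 2 * k + 2 := by ring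
            rw [e]
            rcases hblocked _ h3 h8 with ⟨h9, h10⟩ | ⟨q, h9, h10, h11⟩
            · exact ⟨h3, h8, h9, h10⟩
            · have hq : q = p + 2 * k := by omega
              rw [hq] at h11
              exact absurd h11 h5
        have := hN _ (key N).1
        omega
      have hleft : ∀ p, Sh p → σ c p ≠ x p → (∃ q, q + 2 = p ∧ Sh q ∧ σ c q = ε q) → False := by
        intro p
        induction p using Nat.strong_induction_on with
        | _ p ih =>
        rintro hp hpx ⟨q, rfl, hq, hcq⟩
        have h5 : σ c (q + 2) ≠ η q := fun h => hexc c _ hq hp ⟨hcq, h⟩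
        have h6 : x (q + 2) = η q := by
          revert h5 hpx
          cases σ c (q + 2) <;> cases x (q + 2) <;> cases η q <;> simp
        have h7 : x q ≠ ε q := fun h => hx _ hq hp ⟨h, h6⟩
        have h8 : σ c q ≠ x q := by
          rw [hcq]; exact h7.symm
        rcases hblocked _ hq h8 with ⟨h9, h10⟩ | h9
        · exact h5 h10
        · exact ih q (by omega) hq h8 h9
      obtain ⟨p, hp, hpx⟩ := hwrong
      rcases hblocked p hp hpx with ⟨h1, h2⟩ | h
      · exact hright p hp hpx h1 h2
      · exact hleft p hp hpx h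
    -- minimise the number of wrong windows
    have key : ∀ n : ℕ, ∀ c, ((Finset.range N).filter (fun p => Sh p ∧ σ c p ≠ x p)).card = n →
        ∃ c, ∀ p, Sh p → σ c p = x p := by
      intro n
      induction n with
      | zero =>
        intro c hc
        refine ⟨c, fun p hp => ?_⟩
        by_contra hne
        rw [Finset.card_eq_zero] at hc
        have : p ∈ (Finset.range N).filter (fun p => Sh p ∧ σ c p ≠ x p) :=
          Finset.mem_filter.mpr ⟨Finset.mem_range.mpr (hN p hp), hp, hne⟩
        rw [hc] at this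
        exact absurd this (Finset.notMem_empty p)
      | succ n ih =>
        intro c hc
        have hne : ((Finset.range N).filter (fun p => Sh p ∧ σ c p ≠ x p)).Nonempty := by
          rw [← Finset.card_pos]; omega
        obtain ⟨p, hp⟩ := hne
        obtain ⟨c', p, h1, h2, h3, h4⟩ := hstep c ⟨p, (Finset.mem_filter.mp hp).2⟩
        apply ih c'
        have : (Finset.range N).filter (fun p => Sh p ∧ σ c' p ≠ x p) =
            ((Finset.range N).filter (fun p => Sh p ∧ σ c p ≠ x p)).erase p := by
          ext q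
          rw [Finset.mem_erase, Finset.mem_filter, Finset.mem_filter]
          constructor
          · rintro ⟨e1, e2, e3⟩
            have hqp : q ≠ p := by
              rintro rfl
              exact e3 h3
            exact ⟨hqp, e1, e2, by rw [← h4 q e2 hqp]; exact e3⟩
          · rintro ⟨hqp, e1, e2, e3⟩
            exact ⟨e1, e2, by rw [h4 q e2 hqp]; exact e3⟩
        rw [this, Finset.card_erase_of_mem, hc]
        · rfl
        · exact Finset.mem_filter.mpr ⟨Finset.mem_range.mpr (hN p h1), h1, h2⟩
    exact key _ c0 rfl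
  -- the target vector
  obtain ⟨x, hx⟩ : ∃ x : ℕ → Bool, ∀ n, x (n + 2) = if x n = ε n then !(η n) else η n := by
    let F : ℕ → Bool → Bool := fun n b => if b = ε n then !(η n) else η n
    let y : ℕ → Bool × Bool := fun n => Nat.rec (true, true) (fun n v => (v.2, F n v.1)) n
    have hy : ∀ n, y (n + 1) = ((y n).2, F n (y n).1) := fun n => rfl
    refine ⟨fun n => (y n).1, fun n => ?_⟩
    show (y (n + 2)).1 = F n (y n).1
    rw [hy (n + 1), hy n]
  obtain ⟨c, hc⟩ := hreal x (by
    rintro p - - ⟨h1, h2⟩
    rw [hx p, if_pos h1] at h2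
    revert h2
    cases η p <;> simp)
  obtain ⟨c', hc'⟩ := hreal (fun p => !(x p)) (by
    rintro p - - ⟨h1, h2⟩
    have h3 : x p ≠ ε p := by
      revert h1
      cases x p <;> cases ε p <;> simp
    simp only [hx p, if_neg h3] at h2
    revert h2
    cases η p <;> simp)
  refine ⟨c, c', fun p hp => ?_⟩
  rw [hc p hp, hc' p hp]
  cases x p <;> simp

end Pool.Agent.Q153.Braid
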