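import Mathlib
import Pool.Agent.Q82.CW.Stm

/-!
The points `(g,0)` and `(g,g)` of the space `X`.
-/

set_option autoImplicit false

open MeasureTheory Filter Topology Set
open scoped ContDiff

namespace Pool.Agent.Q82.CW

/-- The derivative of `g`. -/
noncomputable def g_d (x : ℝ) : ℝ := if |x| ≤ Real.pi then -2 * Real.sin x else 0

theorem g_eq_ind : g = (Icc (-Real.pi) Real.pi).indicator (fun x => 4 * Real.cos (x / 2) ^ 2) := by
  classical
  funext x
  unfold g
  rw [indicator_apply]
  simp only [mem_Icc, ← abs_le]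

theorem g_d_eq_ind : g_d = (Icc (-Real.pi) Real.pi).indicator (fun x => -2 * Real.sin x) := by
  classical
  funext x
  unfold g_d
  rw [indicator_apply]
  simp only [mem_Icc, ← abs_le]

theorem g_memLp_ind {f : ℝ → ℝ} (hf : Continuous f) (C : ℝ) (hC : ∀ x, |f x| ≤ C) :
    MemLp ((Icc (-Real.pi) Real.pi).indicator f) 2 (volume : Measure ℝ) := by
  rw [memLp_indicator_iff_restrict measurableSet_Icc]
  exact MemLp.of_bound hf.aestronglyMeasurable C (Eventually.of_forall fun x => hC x)

theorem g_memLp : MemLp g 2 (volume : Measure ℝ) := by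
  rw [g_eq_ind]
  refine g_memLp_ind (by fun_prop) 4 fun x => ?_
  rw [abs_le]
  have h1 := Real.cos_sq_le_one (x / 2)
  have h2 := sq_nonneg (Real.cos (x / 2))
  constructor <;> linarith

theorem g_d_memLp : MemLp g_d 2 (volume : Measure ℝ) := by
  rw [g_d_eq_ind]
  refine g_memLp_ind (by fun_prop) 2 fun x => ?_
  rw [abs_le]
  have h1 := Real.sin_le_one x
  have h2 := Real.neg_one_le_sin x
  constructor <;> linarith

theorem g_even : EvenL2 g_memLp.toLp := by
  filter_upwards [g_memLp.coeFn_toLp, neg_ae g_memLp.coeFn_toLp] with x h1 h2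
  rw [h1, h2]
  unfold g
  rw [abs_neg, neg_div, Real.cos_neg]

theorem g_weak : WeakDeriv g_memLp.toLp g_d_memLp.toLp := by
  intro φ hφ hc
  have hd : ∀ x, HasDerivAt φ (deriv φ x) x := fun x =>
    (hφ.differentiable (by simp)).differentiableAt.hasDerivAt
  have hdc : Continuous (deriv φ) := hφ.continuous_deriv (by simp)
  have hpi : (-Real.pi) ≤ Real.pi := by linarith [Real.pi_pos]
  have e1 : ∫ x, (g_memLp.toLp : L2) x * deriv φ x =
      ∫ x in (-Real.pi)..Real.pi, (4 * Real.cos (x / 2) ^ 2) * deriv φ x := by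
    rw [intervalIntegral.integral_of_le hpi, ← integral_Icc_eq_integral_Ioc,
      ← integral_indicator measurableSet_Icc]
    apply integral_congr_ae
    filter_upwards [g_memLp.coeFn_toLp] with x hx
    rw [hx, g_eq_ind]
    by_cases h : x ∈ Icc (-Real.pi) Real.pi
    · rw [indicator_of_mem h, indicator_of_mem h]
    · rw [indicator_of_notMem h, indicator_of_notMem h, zero_mul]
  have e2 : ∫ x, (g_d_memLp.toLp : L2) x * φ x =
      ∫ x in (-Real.pi)..Real.pi, (-2 * Real.sin x) * φ x := by
    rw [intervalIntegral.integral_of_le hpi, ← integral_Icc_eq_integral_Ioc,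
      ← integral_indicator measurableSet_Icc]
    apply integral_congr_ae
    filter_upwards [g_d_memLp.coeFn_toLp] with x hx
    rw [hx, g_d_eq_ind]
    by_cases h : x ∈ Icc (-Real.pi) Real.pi
    · rw [indicator_of_mem h, indicator_of_mem h]
    · rw [indicator_of_notMem h, indicator_of_notMem h, zero_mul]
  have hu : ∀ x : ℝ, HasDerivAt (fun x => 4 * Real.cos (x / 2) ^ 2) (-2 * Real.sin x) x := by
    intro x
    have h1 : HasDerivAt (fun x : ℝ => x / 2) (1 / 2) x := (hasDerivAt_id x).div_const 2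
    have h2 := ((h1.cos).pow 2).const_mul 4
    refine h2.congr_deriv ?_
    have h3 : Real.sin x = 2 * Real.sin (x / 2) * Real.cos (x / 2) := by
      rw [← Real.sin_two_mul]
      congr 1
      ring
    rw [h3]
    simp only [Nat.add_one_sub_one, pow_one]
    push_cast
    ring
  rw [e1, e2, intervalIntegral.integral_mul_deriv_eq_deriv_mul (fun x _ => hu x)
    (fun x _ => hd x) ((by fun_prop : Continuous fun x : ℝ => -2 * Real.sin x).intervalIntegrable _ _)
    (hdc.intervalIntegrable _ _)]
  have hc1 : Real.cos (Real.pi / 2) = 0 := Real.cos_pi_div_two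
  have hc2 : Real.cos (-Real.pi / 2) = 0 := by rw [neg_div, Real.cos_neg, hc1]
  rw [hc1, hc2]
  ring

theorem g1 : S_G := by
  refine ⟨⟨(g_memLp.toLp, g_d_memLp.toLp, 0), g_even, g_weak, EvenL2.zero⟩,
    ⟨(g_memLp.toLp, g_d_memLp.toLp, g_memLp.toLp), g_even, g_weak, g_even⟩, ⟨?_, ?_⟩, ⟨?_, ?_⟩⟩
  · exact g_memLp.coeFn_toLp
  · exact Lp.coeFn_zero ℝ 2 (volume : Measure ℝ)
  · exact g_memLp.coeFn_toLp
  · exact g_memLp.coeFn_toLp

end Pool.Agent.Q82.CW
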