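import Pool.Agent.Q88.MF.Stm

/-!
# Project MF (helper88), job AXI: values on the axis
-/

set_option autoImplicit false

namespace Pool.Agent.Q153.MF

open Set MeasureTheory Filter Topology
open Pool.Agent.Q88.MF

theorem mf_pos {a s : ℝ} (hs : 0 < s) : 0 < mf a s := by
  unfold mf
  rw [if_neg (not_le.2 hs)]
  split_ifs
  · exact Real.exp_pos _
  · exact hs

theorem kap_zero (a : ℝ) : kap a 0 = 0 := by
  unfold kap
  rw [if_pos (le_refl _)]

theorem axi_ : S_axi := by
  intro d a s ha hs
  have hr : ∀ s : ℝ, rho (s • e0 d) = 0 := by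
    intro s
    unfold rho e0
    rw [norm_eq_zero]
    funext i
    simp
  have hc : ∀ s : ℝ, (s • e0 d) 0 = s := by
    intro s
    unfold e0
    simp
  have hr0 : rho (0 : E (d + 1)) = 0 := by
    have := hr 0
    rwa [zero_smul] at this
  refine ⟨?_, ?_, mf_pos hs⟩
  · unfold F
    rw [hr, hc]
    unfold hh H
    rw [if_pos hs.le, kap_zero, mul_zero, max_eq_left (mf_pos hs).le, sub_smul]
    abel
  · unfold F
    rw [hr0]
    have h1 : (0 : E (d + 1)) 0 = 0 := rfl
    have h2 : mf a 0 = 0 := by
      unfold mf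
      rw [if_pos (le_refl _)]
    rw [h1]
    unfold hh H
    rw [if_pos (le_refl _), kap_zero, mul_zero, h2, max_self, sub_zero, zero_smul, add_zero]

theorem axi (_h : S_kmo) : S_axi := axi_

end Pool.Agent.Q153.MF
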