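import Pool.Agent.Q88.MF.Stm

/-!
# Project MF (helper88), job MEA: measurability
-/

set_option autoImplicit false

namespace Pool.Agent.Q153.MF

open Set MeasureTheory Filter Topology
open Pool.Agent.Q88.MF

theorem mea_ : S_mea := by
  intro d a ha
  have h0 : Measurable (fun x : E (d + 1) => x 0) := by fun_prop
  have hr : Measurable (fun x : E (d + 1) => rho x) := by
    unfold rho
    fun_prop
  have hmf : Measurable (mf a) := by
    unfold mf
    refine Measurable.ite measurableSet_Iic measurable_const (Measurable.ite measurableSet_Iio ?_ measurable_id)
    fun_prop
  have hk : Measurable (kap a) := by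
    unfold kap
    refine Measurable.ite measurableSet_Iic measurable_const (Measurable.ite measurableSet_Iio ?_ measurable_const)
    fun_prop
  unfold P
  have h1 : Measurable (fun x : E (d + 1) => |x 0|) := by fun_prop
  exact ((hmf.comp h1).div h1).max (hk.comp hr)

theorem mea (_h : S_kmo) : S_mea := mea_

end Pool.Agent.Q153.MF
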