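import Pool.Agent.Q256.MP.Stm

/-!
# Project MP (helper256), job VDIM: forms which vanish at several points
-/

set_option autoImplicit false

noncomputable section

namespace Pool.Agent.Q153.MP_VDIM

open Pool.Agent.W276.GE Pool.Agent.Q256.MP

/-- the values of a form with complex coefficients at the points -/
def vals {m n : ℕ} (z : Fin m → Fin n → ℂ) (d : ℕ) : (E n d → ℂ) →ₗ[ℂ] (Fin m → ℂ) where
  toFun g i := ∑ α, g α * ∏ j, z i j ^ α.1 j
  map_add' g g' := by
    funext i
    simp only [Pi.add_apply, add_mul, Finset.sum_add_distrib]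
  map_smul' c g := by
    funext i
    simp only [Pi.smul_apply, smul_eq_mul, RingHom.id_apply, Finset.mul_sum, mul_assoc]

theorem vdim (h1 : S_box) (h2 : S_intp) : S_vdim := by
  intro n d m T hm z hz
  have hsurj : Function.Surjective (vals z d) := by
    choose g hg using fun i => h2 n d m hm z hz i
    intro y
    refine ⟨∑ i, y i • g i, ?_⟩
    rw [map_sum]
    funext k
    rw [Finset.sum_apply, Finset.sum_eq_single k]
    · rw [map_smul, Pi.smul_apply, smul_eq_mul]
      show y k * (∑ α, g k α * ∏ j, z k j ^ α.1 j) = y k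
      rw [hg k k, if_pos rfl, mul_one]
    · intro i _ hik
      rw [map_smul, Pi.smul_apply, smul_eq_mul]
      show y i * (∑ α, g i α * ∏ j, z k j ^ α.1 j) = 0
      rw [hg i k, if_neg (fun h => hik h.symm), mul_zero]
    · intro h
      exact absurd (Finset.mem_univ k) h
  have hrank : Module.finrank ℂ (LinearMap.ker (vals z d)) ≤ Fintype.card (E n d) - m := by
    have e1 := LinearMap.finrank_range_add_finrank_ker (vals z d)
    rw [LinearMap.range_eq_top.2 hsurj, finrank_top, Module.finrank_fintype_fun_eq_card,
      Module.finrank_fintype_fun_eq_card, Fintype.card_fin] at e1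
    omega
  have hb := h1 (E n d) (LinearMap.ker (vals z d)) (Fintype.card (E n d) - m) T hrank
  refine le_trans (le_of_eq ?_) hb
  unfold nzj
  congr 1
  ext g
  rw [Set.mem_setOf_eq, Set.mem_setOf_eq, LinearMap.mem_ker, mem_box]
  constructor
  · rintro ⟨h3, h4⟩
    exact ⟨h3, funext fun i => h4 i⟩
  · rintro ⟨h3, h4⟩
    exact ⟨h3, fun i => congrFun h4 i⟩

end Pool.Agent.Q153.MP_VDIM
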