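import Mathlib
import Pool.Agent.Q49.MR2.Stm

/-!
# Project MR2 (helper49), job CHI: from a common zero to a singular vector (by helper153)
-/

set_option autoImplicit false

namespace Q153.MR2_CHI

open Module Q49.MR Q49.MR2

/-- **JOB CHI.** -/
theorem chi : S2_CHI := by
  intro K L _ _ _ _ _ σ hσ θ m w ρ hθ hm hw hV hP hG
  have h2 : (2 : L) = 0 := by
    have h := congrArg (algebraMap K L) hσ.two
    rwa [map_ofNat, map_zero] at h
  obtain ⟨hw4, -⟩ := hV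
  have hw4' : σ (σ (σ (σ w))) = w := hw4
  obtain ⟨ν, hν⟩ : ∃ ν : L, ν = nu σ θ m := ⟨_, rfl⟩
  obtain ⟨r, hr⟩ : ∃ r : L, r = algebraMap K L ρ := ⟨_, rfl⟩
  have hr1 : σ r = r := by rw [hr, AlgEquiv.commutes]
  have hν4 : σ (σ (σ (σ ν))) = ν := by
    rw [hν]
    unfold nu phi
    simp only [map_add, map_one, hθ, hm]
    linear_combination h2
  unfold P2 t4 at hP
  unfold G2 t4 at hG
  unfold gL bL t4
  rw [← hν, ← hr] at hP hG
  rw [← hν, ← hr]
  simp only [map_mul, hw4'] at hP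
  have hw2 : σ (σ w) ≠ 0 := (map_ne_zero σ).2 ((map_ne_zero σ).2 hw)
  have hw3 : σ (σ (σ w)) ≠ 0 := (map_ne_zero σ).2 hw2
  obtain ⟨χ, hχ⟩ : ∃ χ : L, χ = (ν * σ w + σ (σ (σ ν)) * σ (σ (σ w)) + r) / σ (σ w) := ⟨_, rfl⟩
  have hA : χ * σ (σ w) = ν * σ w + σ (σ (σ ν)) * σ (σ (σ w)) + r := by
    rw [hχ, div_mul_cancel₀ _ hw2]
  have hB : σ χ * σ (σ (σ w)) = σ ν * σ (σ w) + ν * w + r := by
    have h := congrArg σ hA
    simp only [map_mul, map_add, hν4, hw4', hr1] at h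
    exact h
  have hC : σ (σ χ) * w = σ (σ ν) * σ (σ (σ w)) + σ ν * σ w + r := by
    have h := congrArg σ hB
    simp only [map_mul, map_add, hw4', hr1] at h
    exact h
  refine ⟨χ, ?_, ?_, ?_⟩
  · have h5 : σ (σ χ) * (w * σ (σ w)) = χ * (w * σ (σ w)) := by
      linear_combination σ (σ w) * hC - w * hA - hP +
        σ (σ w) * (σ (σ ν) * σ (σ (σ w)) + σ ν * σ w + r) * h2
    exact mul_right_cancel₀ (mul_ne_zero hw hw2) h5
  · linear_combination hA + (ν * σ w + σ (σ (σ ν)) * σ (σ (σ w)) + r) * h2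
  · simp only [map_mul, map_pow, hw4'] at hG ⊢
    linear_combination hG + w * hA + σ w * hB +
      (σ ν * σ w * σ (σ w) + σ (σ (σ ν)) * σ (σ (σ w)) * w + ν * w * σ w) * h2

end Q153.MR2_CHI
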