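import Mathlib
import Pool.Agent.Q49.MR2.Stm

/-!
# Project MR2 (helper49), job F: a solution gives an element with the relation (by helper153)
-/

set_option autoImplicit false

namespace Q153.MR2_F

open Module Q49.MR Q49.MR2

variable {K L : Type} [Field K] [Finite K] [Field L] [Finite L] [Algebra K L] {σ : L ≃ₐ[K] L}

theorem two_eq (hσ : Cyc2 σ) : (2 : L) = 0 := by
  have h := congrArg (algebraMap K L) hσ.two
  rwa [map_ofNat, map_zero] at h

theorem core (hσ : Cyc2 σ) {θ m N h y z : L} (hθ : σ (σ (σ (σ θ))) = θ + 1) (hN : m * (1 + N) = 1)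
    (hh : σ (σ (σ (σ h))) = h) (hz : σ (σ (σ (σ z))) = z) (hz0 : z ≠ 0)
    (h1 : h ^ 2 + h + y * z = nn θ) (h3 : h + σ h + y * σ z + σ y * z = nu σ θ m) :
    ∃ x : L, σ x ≠ x ∧ Q49.MR.Rel σ N x := by
  have h2 := two_eq hσ
  obtain ⟨X, hXd⟩ : ∃ X : L, X = θ + h := ⟨_, rfl⟩
  have hX4 : σ (σ (σ (σ X))) = X + 1 := by
    rw [hXd]
    simp only [map_add, hθ, hh]
    ring
  have hX : X ^ 2 + X = y * z := by
    unfold nn at h1
    rw [hXd]
    linear_combination h1 + (θ ^ 2 + θ + θ * h - y * z) * h2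
  have hX1 : (σ X) ^ 2 + σ X = σ y * σ z := by
    rw [← map_pow, ← map_add, hX, map_mul]
  have hm : 1 + X + σ X + y * σ z + σ y * z = m := by
    unfold nu phi at h3
    rw [hXd, map_add]
    linear_combination h3 + (1 + θ + σ θ) * h2
  have hz1 : σ z ≠ 0 := (map_ne_zero σ).2 hz0
  have e1 : σ (X / z) = σ X / σ z := map_div₀ σ _ _
  have e4 : σ (σ (σ (σ (X / z)))) = (X + 1) / z := by
    simp only [map_div₀]
    rw [hX4, hz]
  have e5 : σ (σ (σ (σ (σ (X / z))))) = (σ X + 1) / σ z := by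
    rw [e4, map_div₀, map_add, map_one]
  refine ⟨X / z, ?_, ?_⟩
  · intro h0
    have h5 : σ (σ (σ (σ (X / z)))) = X / z := by rw [h0, h0, h0, h0]
    rw [e4, div_left_inj' hz0] at h5
    exact one_ne_zero (add_eq_left.1 h5)
  · unfold Q49.MR.Rel
    rw [e5, e4, e1]
    have key : (σ X * z - X * σ z) * ((σ X + 1) * z - (X + 1) * σ z) =
        N * (((σ X + 1) * z - X * σ z) * (σ X * z - (X + 1) * σ z)) := by
      linear_combination (1 - N) * z ^ 2 * hX1 + (1 - N) * (σ z) ^ 2 * hX + (1 - N) * z * σ z * hm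
        - z * σ z * hN + (z * σ z * (m - 1 + N) - (1 - N) * z * σ z * (X + σ X + X * σ X)) * h2
    have f1 : σ X / σ z - X / z = (σ X * z - X * σ z) / (z * σ z) := by
      field_simp
    have f2 : (σ X + 1) / σ z - (X + 1) / z = ((σ X + 1) * z - (X + 1) * σ z) / (z * σ z) := by
      field_simp
    have f3 : (σ X + 1) / σ z - X / z = ((σ X + 1) * z - X * σ z) / (z * σ z) := by
      field_simp
    have f4 : σ X / σ z - (X + 1) / z = (σ X * z - (X + 1) * σ z) / (z * σ z) := by
      field_simp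
    rw [f1, f2, f3, f4, div_mul_div_comm, div_mul_div_comm, key, mul_div_assoc]

/-- **JOB F.** -/
theorem fff : S2_F := by
  intro K L _ _ _ _ _ σ hσ θ m N hθ hm hN hS
  obtain ⟨h, hh, y, hy, z, hz, h1, h3⟩ := hS
  have hh' : σ (σ (σ (σ h))) = h := hh
  have hy' : σ (σ (σ (σ y))) = y := hy
  have hz' : σ (σ (σ (σ z))) = z := hz
  by_cases hz0 : z = 0
  · by_cases hy0 : y = 0
    · exfalso
      have h2 := two_eq hσ
      have hX : (θ + h) * (θ + h + 1) = 0 := by
        unfold nn at h1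
        linear_combination h1 + (θ ^ 2 + θ + θ * h) * h2 - z * hy0
      have hX4 : σ (σ (σ (σ (θ + h)))) = θ + h + 1 := by
        simp only [map_add, hθ, hh']
        ring
      rcases mul_eq_zero.1 hX with h5 | h5
      · rw [h5] at hX4
        simp only [map_zero, zero_add] at hX4
        exact one_ne_zero hX4.symm
      · rw [h5] at hX4
        simp only [map_eq_zero_iff σ σ.injective] at hX4
        rw [hX4, zero_add] at h5
        exact one_ne_zero h5
    · exact core (h := h) (y := z) (z := y) hσ hθ hN hh' hy' hy0 (by rw [← h1]; ring) (by rw [← h3]; ring)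
  · exact core hσ hθ hN hh' hz' hz0 h1 h3

end Q153.MR2_F
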