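import Mathlib
import Pool.Agent.Q2.PM.Stm

/-!
# Project PM (helper2), job C2
-/

set_option autoImplicit false

namespace Q153.PM_C2

open Subgroup Q2.PM
open Q2.TN (IsPNil IsSyl IsChief Nm)

/-- a normal `p`-subgroup lies in every Sylow subgroup -/
theorem le_syl {p : ℕ} [Fact p.Prime] {G : Type} [Group G] [Finite G] {P T : Subgroup G} (hP : IsSyl p P)
    (hT : T.Normal) (hTp : IsPGroup p T) : T ≤ P := by
  have h1 : IsPGroup p (T ⊔ P : Subgroup G) := IsPGroup.to_sup_of_normal_left hTp hP.1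
  have h2 := (hP.1.toSylow hP.2).is_maximal' h1 (by
    show P ≤ T ⊔ P
    exact le_sup_right)
  have h3 : T ⊔ P = P := h2
  exact h3 ▸ le_sup_left

theorem c2 (h3 : S_B3) : S_C2 := by
  intro k G _ _ P T hE hT
  by_contra hc
  push Not at hc
  have : Fact (Nat.Prime 2) := ⟨Nat.prime_two⟩
  obtain ⟨hTn, hT0, hT2, hTm⟩ := hT
  obtain ⟨H, hHT, hHc, hPH⟩ := h3 k G T P hTn hT2 hE.syl.1 hc.le
  have hTP : T ≤ P := le_syl hE.syl hTn hT2
  have h4 := hE.gen H T (Nm H) (hHT.trans hTP) hHc hTn hT2 hPH (by rw [inf_eq_left.2 hHT])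
  have h5 : H.Normal := Subgroup.normalizer_eq_top_iff.1 h4
  rcases hTm H h5 hHT with h6 | h6
  · rw [h6, Subgroup.card_bot] at hHc
    have : 2 ^ 2 ≤ 2 ^ k := Nat.pow_le_pow_right (by norm_num) hE.two_le
    omega
  · rw [h6] at hHc
    omega

end Q153.PM_C2
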