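import Mathlib
import Pool.Agent.Q16.SQ.Stm3

/-!
Project SQ (helper16), job C3 (helper153): a family of dissections.
-/

set_option autoImplicit false

open scoped BigOperators
open Pool.Agent.Helper549.Tri

namespace Pool.Agent.Q153.SQC3

open Q16.SQ

theorem stewart (A B C : E2) (t : ℝ) :
    dist A (AffineMap.lineMap B C t) ^ 2 =
      (1 - t) * dist A B ^ 2 + t * dist A C ^ 2 - t * (1 - t) * dist B C ^ 2 := by
  obtain ⟨x, hx⟩ : ∃ x, x = A - B := ⟨_, rfl⟩
  obtain ⟨y, hy⟩ : ∃ y, y = A - C := ⟨_, rfl⟩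
  have e1 : A - AffineMap.lineMap B C t = (1 - t) • x + t • y := by
    rw [AffineMap.lineMap_apply_module, hx, hy]
    module
  have e2 : B - C = y - x := by rw [hx, hy]; abel
  rw [dist_eq_norm, dist_eq_norm A B, dist_eq_norm A C, dist_eq_norm B C, e1, e2, ← hx, ← hy,
    norm_add_sq_real, norm_sub_sq_real, norm_smul, norm_smul, inner_smul_left, inner_smul_right,
    mul_pow, mul_pow, Real.norm_eq_abs, Real.norm_eq_abs, sq_abs, sq_abs,
    real_inner_comm x y]
  simp only [conj_trivial]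
  ring

/-- A cevian cuts a triangle in two parts which are dissected. -/
theorem cut (hG : S_GLUE) (hS : S_SPLIT) {α β γ : ℝ} {A B C : E2}
    (hABC : AffineIndependent ℝ ![A, B, C]) {t : ℝ} (ht0 : 0 < t) (ht1 : t < 1)
    (h1 : AffineIndependent ℝ ![A, B, AffineMap.lineMap B C t] →
      Tlb α β γ (TriOf A B (AffineMap.lineMap B C t)))
    (h2 : AffineIndependent ℝ ![A, C, AffineMap.lineMap B C t] →
      Tlb α β γ (TriOf A C (AffineMap.lineMap B C t))) :
    Tlb α β γ (TriOf A B C) := by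
  obtain ⟨s1, s2, s3, s4⟩ := hS ![A, B, C] hABC t ht0 ht1
  have h := hG α β γ _ _ (h1 s1) (h2 s2) s4
  have s3' : TriOf A B (AffineMap.lineMap B C t) ∪ TriOf A C (AffineMap.lineMap B C t) =
      TriOf A B C := s3
  rw [s3'] at h
  exact h

theorem t_C3 (h1 : S_C6) (h2 : S_GLUE) (h3 : S_TRIK) (h4 : S_SPLIT) : S_C3 := by
  intro e a b c he ha hb hc hcc r hr A B C hABC hBC hAC hAB
  have ha' : (0 : ℝ) < a := by exact_mod_cast ha
  have hb' : (0 : ℝ) < b := by exact_mod_cast hb
  have hc' : (0 : ℝ) < c := by exact_mod_cast hc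
  have hcc' : (c : ℝ) ^ 2 = a ^ 2 + a * b + b ^ 2 := by exact_mod_cast hcc
  have hr0 : 0 < r := by rw [hr]; positivity
  obtain ⟨t, ht⟩ : ∃ t : ℝ, t = (a + 2 * b) / (3 * (a + b)) := ⟨_, rfl⟩
  have h3ab : (0 : ℝ) < 3 * (a + b) := by positivity
  have ht0 : 0 < t := by rw [ht]; positivity
  have h1t : 1 - t = (2 * a + b) / (3 * (a + b)) := by
    rw [ht]
    field_simp
    ring
  have ht1 : t < 1 := by
    have : 0 < 1 - t := by rw [h1t]; positivity
    linarith
  have hBD : dist B (AffineMap.lineMap B C t) = e * (r * (a * (a + 2 * b))) := by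
    rw [dist_left_lineMap, Real.norm_eq_abs, abs_of_pos ht0, hBC, ht]
    field_simp
  have hCD : dist C (AffineMap.lineMap B C t) = e * (r * (a * (2 * a + b))) := by
    rw [dist_right_lineMap, Real.norm_eq_abs, h1t, abs_of_pos (by positivity), hBC]
    field_simp
  have hAD : dist A (AffineMap.lineMap B C t) = e * (r * (b * (2 * a + b))) := by
    have hs := stewart A B C t
    rw [hAB, hAC, hBC] at hs
    have h5 : dist A (AffineMap.lineMap B C t) ^ 2 = (e * (r * (b * (2 * a + b)))) ^ 2 := by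
      rw [hs, h1t, ht]
      have h6 : (c : ℝ) ^ 4 = (a ^ 2 + a * b + b ^ 2) ^ 2 := by rw [← hcc']; ring
      have h7 : ((2 * a + b) / (3 * (a + b)) : ℝ) * (e * (r * c ^ 2)) ^ 2 +
          (a + 2 * b) / (3 * (a + b)) * (e * (r * ((2 * a + b) * c))) ^ 2 -
          (a + 2 * b) / (3 * (a + b)) * ((2 * a + b) / (3 * (a + b))) *
            (e * (r * (3 * a * (a + b)))) ^ 2 =
          e ^ 2 * r ^ 2 * ((2 * a + b) / (3 * (a + b)) * (c : ℝ) ^ 4 +
            (a + 2 * b) / (3 * (a + b)) * (2 * a + b) ^ 2 * (c : ℝ) ^ 2 -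
            (a + 2 * b) * (2 * a + b) * a ^ 2) := by
        field_simp
      rw [h7, h6, hcc']
      field_simp
      ring
    have h8 : 0 ≤ e * (r * (b * (2 * a + b))) := by positivity
    exact (pow_left_inj₀ dist_nonneg h8 two_ne_zero).1 h5
  refine cut h2 h4 hABC ht0 ht1 (fun hi => ?_) (fun hi => ?_)
  · exact h1 e a b c 1 he ha hb hc one_pos hcc r (by rw [hr]; push_cast; ring) A B _ hi hAB hBD hAD
  · refine h3 (e * a) (e * b) (e * c) (3 * (a + b) * b * (2 * a + b)) (by positivity) A C _ hi ?_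
    left
    rw [hCD, hAD, hAC, hr]
    push_cast
    refine ⟨?_, ?_, ?_⟩ <;> ring

end Pool.Agent.Q153.SQC3
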