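import Mathlib
import Pool.Agent.Q16.SQ.Stm3

/-!
Project SQ (helper16), job C5 (helper153): a family of dissections.
-/

set_option autoImplicit false

open scoped BigOperators
open Pool.Agent.Helper549.Tri

namespace Pool.Agent.Q153.SQC5

open Q16.SQ

theorem stewart (A B C : E2) (t : ℝ) :
    dist A (AffineMap.lineMap B C t) ^ 2 =
      (1 - t) * dist A B ^ 2 + t * dist A C ^ 2 - t * (1 - t) * dist B C ^ 2 := by
  obtain ⟨x, hx⟩ : ∃ x, x = A - B := ⟨_, rfl⟩
  obtain ⟨y, hy⟩ : ∃ y, y = A - C := ⟨_, rfl⟩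
  have e1 : A - AffineMap.lineMap B C t = (1 - t) • x + t • y := by
    rw [AffineMap.lineMap_apply_module, hx, hy]
    module
  have e2 : B - C = y - x := by rw [hx, hy]; abel
  rw [dist_eq_norm, dist_eq_norm A B, dist_eq_norm A C, dist_eq_norm B C, e1, e2, ← hx, ← hy,
    norm_add_sq_real, norm_sub_sq_real, norm_smul, norm_smul, inner_smul_left, inner_smul_right,
    mul_pow, mul_pow, Real.norm_eq_abs, Real.norm_eq_abs, sq_abs, sq_abs,
    real_inner_comm x y]
  simp only [conj_trivial]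
  ring

/-- A cevian cuts a triangle in two parts which are dissected. -/
theorem cut (hG : S_GLUE) (hS : S_SPLIT) {α β γ : ℝ} {A B C : E2}
    (hABC : AffineIndependent ℝ ![A, B, C]) {t : ℝ} (ht0 : 0 < t) (ht1 : t < 1)
    (h1 : AffineIndependent ℝ ![A, B, AffineMap.lineMap B C t] →
      Tlb α β γ (TriOf A B (AffineMap.lineMap B C t)))
    (h2 : AffineIndependent ℝ ![A, C, AffineMap.lineMap B C t] →
      Tlb α β γ (TriOf A C (AffineMap.lineMap B C t))) :
    Tlb α β γ (TriOf A B C) := by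
  obtain ⟨s1, s2, s3, s4⟩ := hS ![A, B, C] hABC t ht0 ht1
  have h := hG α β γ _ _ (h1 s1) (h2 s2) s4
  have s3' : TriOf A B (AffineMap.lineMap B C t) ∪ TriOf A C (AffineMap.lineMap B C t) =
      TriOf A B C := s3
  rw [s3'] at h
  exact h

theorem t_C5 (h1 : S_C6) (h2 : S_GLUE) (h3 : S_TRIK) (h4 : S_SPLIT) : S_C5 := by
  intro e a b c he ha hb hc hcc r hr A B C hABC hBC hAC hAB
  have ha' : (0 : ℝ) < a := by exact_mod_cast ha
  have hb' : (0 : ℝ) < b := by exact_mod_cast hb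
  have hc' : (0 : ℝ) < c := by exact_mod_cast hc
  have hcc' : (c : ℝ) ^ 2 = a ^ 2 + a * b + b ^ 2 := by exact_mod_cast hcc
  obtain ⟨r1, hr1⟩ : ∃ r1 : ℝ, r1 = 3 * (a + b) * b := ⟨_, rfl⟩
  have hr10 : 0 < r1 := by rw [hr1]; positivity
  rw [← hr1] at hr
  subst hr
  obtain ⟨t, ht⟩ : ∃ t : ℝ, t = a ^ 2 * (a + 2 * b) / ((a + b) * c ^ 2) := ⟨_, rfl⟩
  have ht0 : 0 < t := by rw [ht]; positivity
  have h1t : 1 - t = b ^ 2 * (2 * a + b) / ((a + b) * c ^ 2) := by
    rw [ht, eq_div_iff (by positivity), sub_mul, div_mul_cancel₀ _ (by positivity), hcc']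
    ring
  have ht1 : t < 1 := by
    have : 0 < 1 - t := by rw [h1t]; positivity
    linarith
  have hBD : dist B (AffineMap.lineMap B C t) = e * (r1 * a * (a * (a + 2 * b))) := by
    rw [dist_left_lineMap, Real.norm_eq_abs, abs_of_pos ht0, hBC, ht]
    field_simp
  have hCD : dist C (AffineMap.lineMap B C t) = e * (r1 * b * (b * (2 * a + b))) := by
    rw [dist_right_lineMap, Real.norm_eq_abs, h1t, abs_of_pos (by positivity), hBC]
    field_simp
  have hAD : dist A (AffineMap.lineMap B C t) = e * (r1 * a * (b * (2 * a + b))) := by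
    have hs := stewart A B C t
    rw [hAB, hAC, hBC] at hs
    have h5 : dist A (AffineMap.lineMap B C t) ^ 2 = (e * (r1 * a * (b * (2 * a + b)))) ^ 2 := by
      rw [hs, h1t, ht]
      have h7 : (b ^ 2 * (2 * a + b) / ((a + b) * c ^ 2) : ℝ) * (e * (c * r1 * (a * c))) ^ 2 +
          a ^ 2 * (a + 2 * b) / ((a + b) * c ^ 2) * (e * (c * r1 * (b * (2 * a + b)))) ^ 2 -
          a ^ 2 * (a + 2 * b) / ((a + b) * c ^ 2) *
            (b ^ 2 * (2 * a + b) / ((a + b) * c ^ 2)) *
            (e * (c * r1 * ((a + b) * c))) ^ 2 =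
          e ^ 2 * r1 ^ 2 * a ^ 2 * b ^ 2 * (2 * a + b) *
            (((c : ℝ) ^ 2 + (a + 2 * b) * (2 * a + b)) / (a + b) - (a + 2 * b)) := by
        field_simp
      rw [h7, hcc']
      field_simp
      ring
    have h8 : 0 ≤ e * (r1 * a * (b * (2 * a + b))) := by positivity
    exact (pow_left_inj₀ dist_nonneg h8 two_ne_zero).1 h5
  refine cut h2 h4 hABC ht0 ht1 (fun hi => ?_) (fun hi => ?_)
  · refine h1 e a b c a he ha hb hc ha hcc (r1 * a) (by rw [hr1]) A B _ hi ?_ hBD hAD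
    rw [hAB]
    ring
  · refine h3 (e * a) (e * b) (e * c) (3 * (a + b) * b * b * (2 * a + b)) (by positivity) A C _ hi ?_
    right
    right
    left
    rw [hCD, hAD, hAC, hr1]
    push_cast
    refine ⟨?_, ?_, ?_⟩ <;> ring

end Pool.Agent.Q153.SQC5
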