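import Mathlib

/-!
# Pairs in `ZMod n` without short signed relations

Let `a, b ∈ ZMod n` satisfy `x a + y b ≠ 0` whenever `1 ≤ |x| + |y| ≤ 2 r - 1`. We show
`n ≥ 2 r²` and, if `n < 2 r² + r`, that `n` is even and moreover `r` is even or `n ≡ 2 mod 4`.
Conversely pairs with this property exist for all these `n`.
-/

set_option autoImplicit false

namespace Pool.Agent.Q153.TwoInd

/-- no short relation -/
def PairInd {n : ℕ} (t : ℕ) (a b : ZMod n) : Prop :=
  ∀ x y : ℤ, 0 < |x| + |y| → |x| + |y| ≤ t → x • a + y • b ≠ 0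

lemma PairInd.neg_right {n t : ℕ} {a b : ZMod n} (h : PairInd t a b) : PairInd t a (-b) := by
  intro x y h1 h2
  have := h x (-y) (by rwa [abs_neg]) (by rwa [abs_neg])
  rwa [smul_neg, ← neg_smul]

/-- the points of the box -/
def X (z : ℕ × ℕ) : ℤ := ((z.1 + 1) / 2 : ℕ) + z.2
/-- the points of the box -/
def Y (z : ℕ × ℕ) : ℤ := (z.1 / 2 : ℕ) - (z.2 : ℤ)

lemma XY_inj {z w : ℕ × ℕ} (h1 : X z = X w) (h2 : Y z = Y w) : z = w := by
  obtain ⟨a, b⟩ := z
  obtain ⟨c, d⟩ := w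
  simp only [X, Y] at h1 h2
  ext <;> simp <;> omega

lemma box_diff {r : ℕ} {z w : ℕ × ℕ} (hz : z.2 < r) (hw : w.2 < r) :
    X z - X w + (Y z - Y w) = (z.1 : ℤ) - w.1 ∧ |X z - X w - (Y z - Y w)| ≤ 2 * r - 1 := by
  obtain ⟨a, b⟩ := z
  obtain ⟨c, d⟩ := w
  simp only [X, Y] at *
  constructor
  · omega
  · rw [abs_le]; constructor <;> omega

lemma abs_add_abs_le {x y m : ℤ} (h1 : |x + y| ≤ m) (h2 : |x - y| ≤ m) : |x| + |y| ≤ m := by
  rw [abs_le] at h1 h2
  rcases abs_cases x with ⟨h3, h4⟩ | ⟨h3, h4⟩ <;> rcases abs_cases y with ⟨h5, h6⟩ | ⟨h5, h6⟩ <;>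
    omega

lemma abs_pos_of_ne {x y : ℤ} (h : ¬ (x = 0 ∧ y = 0)) : 0 < |x| + |y| := by
  rcases abs_cases x with ⟨h3, h4⟩ | ⟨h3, h4⟩ <;> rcases abs_cases y with ⟨h5, h6⟩ | ⟨h5, h6⟩ <;>
    omega

variable {n r : ℕ} {a b : ZMod n}

lemma inj_box (hr : 1 ≤ r) (h : PairInd (2 * r - 1) a b) :
    Set.InjOn (fun z : ℕ × ℕ => X z • a + Y z • b)
      ((Finset.range (2 * r) ×ˢ Finset.range r : Finset (ℕ × ℕ)) : Set (ℕ × ℕ)) := by
  intro z hz w hw hzw
  rw [Finset.mem_coe, Finset.mem_product, Finset.mem_range, Finset.mem_range] at hz hw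
  obtain ⟨h1, h2⟩ := box_diff hz.2 hw.2
  by_contra hne
  have hne' : ¬ (X z - X w = 0 ∧ Y z - Y w = 0) := fun hh =>
    hne (XY_inj (by omega) (by omega))
  refine h (X z - X w) (Y z - Y w) (abs_pos_of_ne hne') ?_ ?_
  · have h3 : |X z - X w + (Y z - Y w)| ≤ 2 * r - 1 := by
      rw [h1, abs_le]; omega
    have := abs_add_abs_le h3 h2
    push_cast [Nat.cast_sub (show 1 ≤ 2 * r by omega)]
    exact this
  · simp only at hzw
    rw [sub_smul, sub_smul]
    rw [← sub_eq_zero] at hzw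
    rw [← hzw]; abel

lemma exists_rel (hr : 1 ≤ r) [NeZero n] (hn : n < 2 * r ^ 2 + r) (h : PairInd (2 * r - 1) a b) :
    ∃ f : ℤ, |f| ≤ r - 1 ∧ (r + f) • a + (r - f) • b = 0 := by
  obtain ⟨z, hz, w, hw, hne, hzw⟩ := Finset.exists_ne_map_eq_of_card_lt_of_maps_to
    (s := Finset.range (2 * r + 1) ×ˢ Finset.range r) (t := (Finset.univ : Finset (ZMod n)))
    (f := fun z : ℕ × ℕ => X z • a + Y z • b)
    (by
      rw [Finset.card_product, Finset.card_range, Finset.card_range, Finset.card_univ, ZMod.card]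
      nlinarith)
    (fun _ _ => Finset.mem_univ _)
  rw [Finset.mem_product, Finset.mem_range, Finset.mem_range] at hz hw
  obtain ⟨h1, h2⟩ := box_diff hz.2 hw.2
  have hne' : ¬ (X z - X w = 0 ∧ Y z - Y w = 0) := fun hh =>
    hne (XY_inj (by omega) (by omega))
  have hrel : (X z - X w) • a + (Y z - Y w) • b = 0 := by
    rw [sub_smul, sub_smul]
    rw [← sub_eq_zero] at hzw
    rw [← hzw]; abel
  generalize X z - X w = P at *
  generalize Y z - Y w = Q at *
  have hcast : ((2 * r - 1 : ℕ) : ℤ) = 2 * r - 1 := by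
    push_cast [Nat.cast_sub (show 1 ≤ 2 * r by omega)]; ring
  have h4 : ¬ |P + Q| ≤ 2 * r - 1 := by
    intro h3
    exact h P Q (abs_pos_of_ne hne') (by rw [hcast]; exact abs_add_abs_le h3 h2) hrel
  have h5 : P + Q = 2 * r ∨ P + Q = -(2 * r) := by
    rw [h1] at h4 ⊢
    rw [abs_le] at h4
    omega
  rw [abs_le] at h2
  rcases h5 with h5 | h5
  · refine ⟨P - r, ?_, ?_⟩
    · rw [abs_le]; omega
    · rw [← hrel]
      congr 2
      · ring
      · omega
  · refine ⟨-P - r, ?_, ?_⟩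
    · rw [abs_le]; omega
    · have : (r + (-P - r) : ℤ) = -P := by ring
      rw [this, show (r - (-P - r) : ℤ) = -Q by omega, neg_smul, neg_smul, ← neg_add, hrel,
        neg_zero]

/-- the exact value of `n` -/
lemma main_eq (hr : 1 ≤ r) [NeZero n] (hn : n < 2 * r ^ 2 + r) (h : PairInd (2 * r - 1) a b) :
    ∃ f g : ℤ, |f| ≤ r - 1 ∧ |g| ≤ r - 1 ∧ (r + f) • a + (r - f) • b = 0 ∧
      (r + g) • a - (r - g) • b = 0 ∧ (n : ℤ) = 2 * r ^ 2 - 2 * (f * g) := by
  obtain ⟨f, hf, e1⟩ := exists_rel hr hn h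
  obtain ⟨g, hg, e2⟩ := exists_rel hr hn h.neg_right
  rw [smul_neg, ← sub_eq_add_neg] at e2
  refine ⟨f, g, hf, hg, e1, e2, ?_⟩
  have hcast : ((2 * r - 1 : ℕ) : ℤ) = 2 * r - 1 := by
    push_cast [Nat.cast_sub (show 1 ≤ 2 * r by omega)]; ring
  have hf' := abs_le.1 hf
  have hg' := abs_le.1 hg
  -- signs
  have hfg : f * g ≤ 0 := by
    by_contra hlt
    push Not at hlt
    rcases pos_and_pos_or_neg_and_neg_of_mul_pos hlt with ⟨h1, h2⟩ | ⟨h1, h2⟩
    · refine h (f - g) (2 * r - f - g) (abs_pos_of_ne (by omega)) ?_ ?_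
      · rw [hcast]
        apply abs_add_abs_le
        · rw [abs_le]; omega
        · rw [abs_le]; omega
      · have : (f - g) • a + (2 * r - f - g) • b =
            ((r + f) • a + (r - f) • b) - ((r + g) • a - (r - g) • b) := by
          simp only [sub_smul, add_smul, mul_smul, two_smul]; abel
        rw [this, e1, e2, sub_zero]
    · refine h (2 * r + f + g) (g - f) (abs_pos_of_ne (by omega)) ?_ ?_
      · rw [hcast]
        apply abs_add_abs_le
        · rw [abs_le]; omega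
        · rw [abs_le]; omega
      · have : (2 * r + f + g) • a + (g - f) • b =
            ((r + f) • a + (r - f) • b) + ((r + g) • a - (r - g) • b) := by
          simp only [sub_smul, add_smul, mul_smul, two_smul]; abel
        rw [this, e1, e2, add_zero]
  -- the determinant kills everything
  have hDa : (2 * r ^ 2 - 2 * (f * g) : ℤ) • a = 0 := by
    have : (2 * r ^ 2 - 2 * (f * g) : ℤ) • a =
        (r - g : ℤ) • ((r + f) • a + (r - f) • b) + (r - f : ℤ) • ((r + g) • a - (r - g) • b) := by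
      simp only [smul_add, smul_sub, smul_smul]
      have e : ((r - g) * (r - f) : ℤ) = (r - f) * (r - g) := by ring
      rw [e]
      have e' : (2 * r ^ 2 - 2 * (f * g) : ℤ) = (r - g) * (r + f) + (r - f) * (r + g) := by ring
      rw [e', add_smul]
      abel
    rw [this, e1, e2, smul_zero, smul_zero, add_zero]
  have hDb : (2 * r ^ 2 - 2 * (f * g) : ℤ) • b = 0 := by
    have : (2 * r ^ 2 - 2 * (f * g) : ℤ) • b =
        (r + g : ℤ) • ((r + f) • a + (r - f) • b) - (r + f : ℤ) • ((r + g) • a - (r - g) • b) := by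
      simp only [smul_add, smul_sub, smul_smul]
      have e : ((r + g) * (r + f) : ℤ) = (r + f) * (r + g) := by ring
      rw [e]
      have e' : (2 * r ^ 2 - 2 * (f * g) : ℤ) = (r + g) * (r - f) + (r + f) * (r - g) := by ring
      rw [e', add_smul]
      abel
    rw [this, e1, e2, smul_zero, smul_zero, sub_zero]
  -- the subgroup generated by `a` and `b`
  set H : AddSubgroup (ZMod n) := AddSubgroup.closure {a, b} with hH
  have haH : a ∈ H := AddSubgroup.subset_closure (by simp)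
  have hbH : b ∈ H := AddSubgroup.subset_closure (by simp)
  have hcardlow : 2 * r ^ 2 ≤ Nat.card H := by
    have hinj := inj_box hr h
    have h1 := hinj.ncard_image
    rw [Set.ncard_coe_finset, Finset.card_product, Finset.card_range, Finset.card_range] at h1
    have h2 : (fun z : ℕ × ℕ => X z • a + Y z • b) ''
        ((Finset.range (2 * r) ×ˢ Finset.range r : Finset (ℕ × ℕ)) : Set (ℕ × ℕ)) ⊆
        (H : Set (ZMod n)) := by
      rintro _ ⟨z, -, rfl⟩
      exact H.add_mem (H.zsmul_mem haH _) (H.zsmul_mem hbH _)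
    have h3 := Set.ncard_le_ncard h2 (Set.toFinite _)
    rw [h1] at h3
    have h4 : (H : Set (ZMod n)).ncard = Nat.card H := rfl
    rw [h4] at h3
    nlinarith
  -- as a natural number
  obtain ⟨D, hD⟩ : ∃ D : ℕ, (D : ℤ) = 2 * r ^ 2 - 2 * (f * g) :=
    ⟨(2 * r ^ 2 - 2 * (f * g) : ℤ).toNat, Int.toNat_of_nonneg (by nlinarith)⟩
  have hkill : ∀ x ∈ H, D • x = 0 := by
    intro x hx
    rw [hH] at hx
    induction hx using AddSubgroup.closure_induction with
    | mem x hx =>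
      rcases hx with rfl | hx
      · rw [← natCast_zsmul, hD]; exact hDa
      · rw [Set.mem_singleton_iff] at hx
        subst hx
        rw [← natCast_zsmul, hD]; exact hDb
    | zero => simp
    | add x y _ _ hx hy => rw [smul_add, hx, hy, add_zero]
    | neg x _ hx => rw [smul_neg, hx, neg_zero]
  have hdvd : Nat.card H ∣ D := by
    rw [← IsAddCyclic.exponent_eq_card]
    apply AddMonoid.exponent_dvd_of_forall_nsmul_eq_zero
    rintro ⟨x, hx⟩
    apply Subtype.ext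
    simpa using hkill x hx
  have hdvd2 : Nat.card H ∣ n := by
    have := AddSubgroup.card_addSubgroup_dvd_card H
    rwa [Nat.card_zmod] at this
  have hDup : D < 4 * r ^ 2 := by
    have h1 : -(f * g) ≤ (r - 1) ^ 2 := by
      have h2 : |f * g| ≤ (r - 1) * (r - 1) := by
        rw [abs_mul]
        exact mul_le_mul hf hg (abs_nonneg _) (by omega)
      have h3 := (abs_le.1 h2).1
      nlinarith
    have : (D : ℤ) < 4 * r ^ 2 := by
      rw [hD]
      have : (1 : ℤ) ≤ r := by exact_mod_cast hr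
      nlinarith
    exact_mod_cast this
  have hDlow : 2 * r ^ 2 ≤ D := by
    have : (2 * r ^ 2 : ℤ) ≤ D := by rw [hD]; linarith
    exact_mod_cast this
  have hr2 : 1 ≤ r ^ 2 := Nat.one_le_pow _ _ hr
  have hrr : r ≤ r ^ 2 := by nlinarith
  have hD1 : D = Nat.card H := by
    obtain ⟨q, hq⟩ := hdvd
    have : q = 1 := by
      rcases Nat.lt_or_ge q 2 with h1 | h1
      · interval_cases q
        · omega
        · rfl
      · nlinarith
    rw [hq, this, mul_one]
  have hn1 : n = Nat.card H := by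
    obtain ⟨q, hq⟩ := hdvd2
    have hn0 : 0 < n := Nat.pos_of_ne_zero (NeZero.ne n)
    have : q = 1 := by
      rcases Nat.lt_or_ge q 2 with h1 | h1
      · interval_cases q
        · omega
        · rfl
      · nlinarith
    rw [this, mul_one] at hq
    exact hq
  rw [← hD, hD1, ← hn1]

lemma two_torsion [NeZero n] {x y : ZMod n} (hx : 2 • x = 0) (hy : 2 • y = 0) (hx0 : x ≠ 0)
    (hy0 : y ≠ 0) : x = y := by
  have key : ∀ x : ZMod n, 2 • x = 0 → x ≠ 0 → 2 * x.val = n := by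
    intro x hx hx0
    have h1 : ((2 * x.val : ℕ) : ZMod n) = 0 := by
      push_cast
      rw [ZMod.natCast_zmod_val]
      rw [two_smul] at hx
      rw [two_mul, hx]
    rw [ZMod.natCast_eq_zero_iff] at h1
    have h2 : 0 < x.val := Nat.pos_of_ne_zero fun h => hx0 ((ZMod.val_eq_zero x).1 h)
    have h3 := x.val_lt
    obtain ⟨q, hq⟩ := h1
    have : q = 1 := by
      rcases Nat.lt_or_ge q 2 with h1 | h1
      · interval_cases q
        · omega
        · rfl
      · nlinarith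
    rw [hq, this, mul_one]
  apply ZMod.val_injective n
  have h1 := key x hx hx0
  have h2 := key y hy hy0
  omega

/-- **Necessity.** -/
theorem necessary (hr : 1 ≤ r) [NeZero n] (h : PairInd (2 * r - 1) a b) :
    2 * r ^ 2 ≤ n ∧ (2 * r ^ 2 + r ≤ n ∨ (n % 2 = 0 ∧ (r % 2 = 0 ∨ n % 4 = 2))) := by
  have h0 : 2 * r ^ 2 ≤ n := by
    have hinj := inj_box hr h
    have h1 := hinj.ncard_image
    rw [Set.ncard_coe_finset, Finset.card_product, Finset.card_range, Finset.card_range] at h1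
    have h3 := Set.ncard_le_ncard (Set.subset_univ ((fun z : ℕ × ℕ => X z • a + Y z • b) ''
        ((Finset.range (2 * r) ×ˢ Finset.range r : Finset (ℕ × ℕ)) : Set (ℕ × ℕ))))
        (Set.toFinite _)
    rw [h1, Set.ncard_univ, Nat.card_zmod] at h3
    nlinarith
  refine ⟨h0, ?_⟩
  by_contra hcon
  rw [not_or] at hcon
  obtain ⟨hn, hc⟩ := hcon
  push Not at hn
  obtain ⟨f, g, hf, hg, e1, e2, hN⟩ := main_eq hr hn h
  have hcast : ((2 * r - 1 : ℕ) : ℤ) = 2 * r - 1 := by
    push_cast [Nat.cast_sub (show 1 ≤ 2 * r by omega)]; ring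
  have hneven : n % 2 = 0 := by
    have : (n : ℤ) = 2 * (r ^ 2 - f * g) := by rw [hN]; ring
    omega
  have hrodd : r % 2 = 1 ∧ n % 4 ≠ 2 := by
    rw [not_and_or, not_or] at hc
    rcases hc with hc | ⟨h1, h2⟩
    · exact absurd hneven hc
    · exact ⟨by omega, h2⟩
  obtain ⟨hr1, hn4⟩ := hrodd
  -- `f` and `g` are odd
  have hr2 : ((r : ℤ) ^ 2) % 4 = 1 := by
    obtain ⟨k, hk⟩ : ∃ k : ℤ, (r : ℤ) = 2 * k + 1 := ⟨(r : ℤ) / 2, by omega⟩
    rw [hk]
    have : (2 * k + 1) ^ 2 = 4 * (k ^ 2 + k) + 1 := by ring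
    rw [this]; omega
  have hfg : (f * g) % 2 = 1 := by
    rcases Int.emod_two_eq_zero_or_one (f * g) with h1 | h1
    · exfalso
      apply hn4
      omega
    · exact h1
  have hfo : f % 2 = 1 := by
    rcases Int.emod_two_eq_zero_or_one f with h1 | h1
    · exfalso
      have : (f * g) % 2 = 0 := by rw [Int.mul_emod, h1]; simp
      omega
    · exact h1
  have hgo : g % 2 = 1 := by
    rcases Int.emod_two_eq_zero_or_one g with h1 | h1
    · exfalso
      have : (f * g) % 2 = 0 := by rw [Int.mul_emod, h1]; simp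
      omega
    · exact h1
  have hf' := abs_le.1 hf
  have hg' := abs_le.1 hg
  obtain ⟨p, hp⟩ : ∃ p : ℤ, (r : ℤ) + f = 2 * p := ⟨((r : ℤ) + f) / 2, by omega⟩
  obtain ⟨q, hq⟩ : ∃ q : ℤ, (r : ℤ) + g = 2 * q := ⟨((r : ℤ) + g) / 2, by omega⟩
  have e1' : 2 • (p • a + (r - p) • b) = 0 := by
    rw [← e1, show (r : ℤ) - f = 2 * (r - p) by omega, hp, two_nsmul]
    simp only [mul_smul, two_smul]
    abel
  have e2' : 2 • (q • a - (r - q) • b) = 0 := by
    rw [← e2, show (r : ℤ) - g = 2 * (r - q) by omega, hq, two_nsmul]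
    simp only [mul_smul, two_smul]
    abel
  have n1 : p • a + (r - p) • b ≠ 0 := by
    refine h p (r - p) (abs_pos_of_ne (by omega)) ?_
    rw [hcast]
    apply abs_add_abs_le <;> rw [abs_le] <;> omega
  have n2 : q • a - (r - q) • b ≠ 0 := by
    have := h q (-(r - q)) (abs_pos_of_ne (by omega)) (by
      rw [hcast]
      apply abs_add_abs_le <;> rw [abs_le] <;> omega)
    rwa [neg_smul, ← sub_eq_add_neg] at this
  have e3 := two_torsion e1' e2' n1 n2
  refine h (p - q) (2 * r - p - q) (abs_pos_of_ne (by omega)) ?_ ?_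
  · rw [hcast]
    apply abs_add_abs_le <;> rw [abs_le] <;> omega
  · rw [← sub_eq_zero] at e3
    rw [← e3]
    simp only [sub_smul, mul_smul, two_smul]
    abel

/-- casting relations -/
lemma rel_cast {n : ℕ} (x y : ℤ) (u v : ℤ) :
    x • ((u : ℤ) : ZMod n) + y • ((v : ℤ) : ZMod n) = 0 ↔ (n : ℤ) ∣ x * u + y * v := by
  rw [← ZMod.intCast_zmod_eq_zero_iff_dvd]
  simp only [zsmul_eq_mul]
  push_cast
  rfl

lemma dvd_small {n v : ℤ} (h : n ∣ v) (h2 : |v| < n) : v = 0 :=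
  Int.eq_zero_of_abs_lt_dvd h h2

lemma dvd_small2 {n v : ℤ} (hn : 0 < n) (h : n ∣ v) (h2 : |v| < 2 * n) :
    v = 0 ∨ v = n ∨ v = -n := by
  obtain ⟨k, rfl⟩ := h
  rw [abs_mul, abs_of_pos hn] at h2
  have h3 : |k| < 2 := by
    by_contra h4
    push Not at h4
    nlinarith
  rw [abs_lt] at h3
  have : k = 0 ∨ k = 1 ∨ k = -1 := by omega
  rcases this with rfl | rfl | rfl
  · left; ring
  · right; left; ring
  · right; right; ring

lemma add_abs_bounds {x y m : ℤ} (h : |x| + |y| ≤ m) : |x + y| ≤ m ∧ |x - y| ≤ m := by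
  constructor
  · exact (abs_add_le x y).trans h
  · exact (abs_sub x y).trans h

theorem exists_large (hr : 1 ≤ r) (hn : 2 * r ^ 2 + r ≤ n) :
    PairInd (2 * r - 1) ((r : ℤ) : ZMod n) (((r : ℤ) + 1 : ℤ) : ZMod n) := by
  intro x y h1 h2 h3
  rw [rel_cast] at h3
  have hcast : ((2 * r - 1 : ℕ) : ℤ) = 2 * r - 1 := by
    push_cast [Nat.cast_sub (show 1 ≤ 2 * r by omega)]; ring
  rw [hcast] at h2
  have hn' : (2 * r ^ 2 + r : ℤ) ≤ n := by exact_mod_cast hn
  have hr' : (1 : ℤ) ≤ r := by exact_mod_cast hr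
  have hb : |x * r + y * (r + 1)| < n := by
    calc |x * r + y * (r + 1)| ≤ |x * r| + |y * (r + 1)| := abs_add_le _ _
      _ = |x| * r + |y| * (r + 1) := by
        rw [abs_mul, abs_mul, abs_of_nonneg (show (0 : ℤ) ≤ r by omega),
          abs_of_nonneg (show (0 : ℤ) ≤ r + 1 by omega)]
      _ ≤ (|x| + |y|) * (r + 1) := by nlinarith [abs_nonneg x, abs_nonneg y]
      _ ≤ (2 * r - 1) * (r + 1) := by nlinarith
      _ < n := by nlinarith
  have h4 := dvd_small h3 hb
  -- `r (x + y) = - y`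
  have h5 : (r : ℤ) * (x + y) = -y := by linarith
  by_cases h6 : x + y = 0
  · rw [h6, mul_zero] at h5
    have : y = 0 := by omega
    have : x = 0 := by omega
    subst_vars
    simp at h1
  · have h7 : (r : ℤ) * |x + y| = |y| := by
      rw [← abs_neg y, ← h5, abs_mul, abs_of_nonneg (show (0 : ℤ) ≤ r by omega)]
    have h8 : 1 ≤ |x + y| := Int.one_le_abs h6
    -- x = -(r+1)(x+y)
    have h9 : x = (r + 1) * (x + y) := by linarith
    have h10 : |x| = (r + 1) * |x + y| := by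
      conv_lhs => rw [h9]
      rw [abs_mul, abs_of_nonneg (show (0 : ℤ) ≤ r + 1 by omega)]
    nlinarith

theorem exists_even (hr : 2 ≤ r) (hr2 : r % 2 = 0) (hn2 : n % 2 = 0) (hn : 2 * r ^ 2 ≤ n) :
    PairInd (2 * r - 1) (((r : ℤ) - 1 : ℤ) : ZMod n) (((r : ℤ) + 1 : ℤ) : ZMod n) := by
  intro x y h1 h2 h3
  rw [rel_cast] at h3
  have hcast : ((2 * r - 1 : ℕ) : ℤ) = 2 * r - 1 := by
    push_cast [Nat.cast_sub (show 1 ≤ 2 * r by omega)]; ring
  rw [hcast] at h2
  obtain ⟨h4, h5⟩ := add_abs_bounds h2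
  have hn' : (2 * r ^ 2 : ℤ) ≤ n := by exact_mod_cast hn
  have hr' : (2 : ℤ) ≤ r := by exact_mod_cast hr
  obtain ⟨k, hk⟩ : ∃ k : ℤ, (r : ℤ) = 2 * k := ⟨(r : ℤ) / 2, by omega⟩
  have hv : x * (r - 1) + y * (r + 1) = r * (x + y) + (y - x) := by ring
  rw [hv] at h3
  -- parity
  have hpar : (x + y) % 2 = 0 := by
    obtain ⟨q, hq⟩ := h3
    obtain ⟨m, hm⟩ : ∃ m : ℤ, (n : ℤ) = 2 * m := ⟨(n : ℤ) / 2, by omega⟩
    have : y - x = 2 * (m * q - k * (x + y)) := by
      have : (r : ℤ) * (x + y) + (y - x) = 2 * (m * q) := by rw [hq, hm]; ring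
      rw [hk] at this
      linarith
    omega
  have h4' : |x + y| ≤ 2 * r - 2 := by rw [abs_le] at h4 ⊢; omega
  have h5' : |y - x| ≤ 2 * r - 2 := by rw [abs_sub_comm] at h5; rw [abs_le] at h5 ⊢; omega
  have hb : |(r : ℤ) * (x + y) + (y - x)| < n := by
    calc |(r : ℤ) * (x + y) + (y - x)| ≤ |(r : ℤ) * (x + y)| + |y - x| := abs_add_le _ _
      _ = r * |x + y| + |y - x| := by rw [abs_mul, abs_of_nonneg (show (0 : ℤ) ≤ r by omega)]
      _ ≤ r * (2 * r - 2) + (2 * r - 2) := by nlinarith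
      _ < n := by nlinarith
  have h6 := dvd_small h3 hb
  obtain ⟨s, hs⟩ : ∃ s : ℤ, x + y = 2 * s := ⟨(x + y) / 2, by omega⟩
  have h7 : y - x = -(r * (2 * s)) := by rw [hs] at h6; linarith
  have h8 : |y - x| = 2 * (r * |s|) := by
    rw [h7, abs_neg, abs_mul, abs_mul, abs_of_nonneg (show (0 : ℤ) ≤ r by omega)]
    simp; ring
  have h9 : s = 0 := by
    by_contra hne
    have := Int.one_le_abs hne
    nlinarith
  subst h9
  have hx : x = 0 := by omega
  have hy : y = 0 := by omega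
  subst hx hy
  simp at h1

theorem exists_odd (hr : 1 ≤ r) (hr2 : r % 2 = 1) (hn2 : n % 4 = 2) (hn : 2 * r ^ 2 ≤ n) :
    PairInd (2 * r - 1) (((r : ℤ) - 2 : ℤ) : ZMod n) (((r : ℤ) + 2 : ℤ) : ZMod n) := by
  intro x y h1 h2 h3
  rw [rel_cast] at h3
  have hcast : ((2 * r - 1 : ℕ) : ℤ) = 2 * r - 1 := by
    push_cast [Nat.cast_sub (show 1 ≤ 2 * r by omega)]; ring
  rw [hcast] at h2
  obtain ⟨h4, h5⟩ := add_abs_bounds h2
  have hn' : (2 * r ^ 2 : ℤ) ≤ n := by exact_mod_cast hn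
  have hr' : (1 : ℤ) ≤ r := by exact_mod_cast hr
  obtain ⟨k, hk⟩ : ∃ k : ℤ, (r : ℤ) = 2 * k + 1 := ⟨(r : ℤ) / 2, by omega⟩
  have hv : x * (r - 2) + y * (r + 2) = r * (x + y) + 2 * (y - x) := by ring
  rw [hv] at h3
  obtain ⟨m, hm⟩ : ∃ m : ℤ, (n : ℤ) = 4 * m + 2 := ⟨(n : ℤ) / 4, by omega⟩
  -- parity of `x + y`
  obtain ⟨q, hq⟩ := h3
  have hpar : (x + y) % 2 = 0 := by
    have h6 : x + y = 2 * ((2 * m + 1) * q - k * (x + y) - (y - x)) := by
      have : (2 * k + 1) * (x + y) + 2 * (y - x) = (4 * m + 2) * q := by rw [← hk, hq, hm]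
      linarith
    omega
  obtain ⟨s, hs⟩ : ∃ s : ℤ, x + y = 2 * s := ⟨(x + y) / 2, by omega⟩
  obtain ⟨d, hd⟩ : ∃ d : ℤ, y - x = 2 * d := ⟨(y - x) / 2, by omega⟩
  have h4' : |s| ≤ r - 1 := by rw [abs_le] at h4 ⊢; omega
  have h5' : |d| ≤ r - 1 := by rw [abs_le] at h5 ⊢; omega
  rw [hs, hd] at hq
  have hqabs : |q| < 2 := by
    have h7 : |(r : ℤ) * (2 * s) + 2 * (2 * d)| ≤ 2 * (r * |s|) + 4 * |d| := by
      calc |(r : ℤ) * (2 * s) + 2 * (2 * d)| ≤ |(r : ℤ) * (2 * s)| + |2 * (2 * d)| :=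
            abs_add_le _ _
        _ = 2 * (r * |s|) + 4 * |d| := by
          simp only [abs_mul, abs_two]
          rw [abs_of_nonneg (show (0 : ℤ) ≤ r by omega)]; ring
    rw [hq, abs_mul, abs_of_nonneg (show (0 : ℤ) ≤ n by omega)] at h7
    by_contra h8
    push Not at h8
    nlinarith [abs_nonneg s, abs_nonneg d]
  rw [abs_lt] at hqabs
  have hq3 : q = 0 ∨ q = 1 ∨ q = -1 := by omega
  -- the case `q = ± 1`
  have hq0 : q = 0 := by
    rcases hq3 with h | h
    · exact h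
    exfalso
    have hsodd : s % 2 = 1 := by
      have h8 : (2 * k + 1) * s + 2 * d = (2 * m + 1) * q := by
        have : (2 * k + 1) * (2 * s) + 2 * (2 * d) = (4 * m + 2) * q := by rw [← hk, hq, hm]
        linarith
      have h9 : s = (2 * m + 1) * q - 2 * (k * s + d) := by linarith
      rcases h with h | h <;> subst h <;> omega
    have h4'' : |s| ≤ r - 2 := by rw [abs_le] at h4' ⊢; omega
    have h7 : |(r : ℤ) * (2 * s) + 2 * (2 * d)| ≤ 2 * (r * |s|) + 4 * |d| := by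
      calc |(r : ℤ) * (2 * s) + 2 * (2 * d)| ≤ |(r : ℤ) * (2 * s)| + |2 * (2 * d)| :=
            abs_add_le _ _
        _ = 2 * (r * |s|) + 4 * |d| := by
          simp only [abs_mul, abs_two]
          rw [abs_of_nonneg (show (0 : ℤ) ≤ r by omega)]; ring
    rw [hq, abs_mul, abs_of_nonneg (show (0 : ℤ) ≤ n by omega)] at h7
    have h8 : |q| = 1 := by rcases h with h | h <;> rw [h] <;> simp
    rw [h8, mul_one] at h7
    nlinarith [abs_nonneg s, abs_nonneg d]
  subst hq0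
  -- `r s = - 2 d`
  have h6 : (r : ℤ) * s = -(2 * d) := by linarith
  have h7 : (r : ℤ) ∣ d := by
    have h8 : (r : ℤ) ∣ 2 * d := ⟨-s, by linarith⟩
    have h9 : IsCoprime (r : ℤ) 2 := ⟨1, -k, by rw [hk]; ring⟩
    exact h9.dvd_of_dvd_mul_left h8
  have h8 : d = 0 := dvd_small h7 (by omega)
  have h9 : s = 0 := by
    rw [h8] at h6
    have : (r : ℤ) * s = 0 := by linarith
    rcases mul_eq_zero.1 this with h | h
    · omega
    · exact h
  have hx : x = 0 := by omega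
  have hy : y = 0 := by omega
  subst hx hy
  simp at h1

/-- **The criterion.** -/
theorem criterion (hr : 2 ≤ r) [NeZero n] :
    (∃ a b : ZMod n, PairInd (2 * r - 1) a b) ↔
      2 * r ^ 2 ≤ n ∧ (2 * r ^ 2 + r ≤ n ∨ (n % 2 = 0 ∧ (r % 2 = 0 ∨ n % 4 = 2))) := by
  constructor
  · rintro ⟨a, b, h⟩
    exact necessary (by omega) h
  · rintro ⟨h1, h2 | ⟨h2, h3⟩⟩
    · exact ⟨_, _, exists_large (by omega) h2⟩
    · rcases Nat.mod_two_eq_zero_or_one r with h4 | h4
      · exact ⟨_, _, exists_even hr h4 h2 h1⟩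
      · rcases h3 with h3 | h3
        · omega
        · exact ⟨_, _, exists_odd (by omega) h4 h3 h1⟩

end Pool.Agent.Q153.TwoInd
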