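import Mathlib
import Pool.Agent.Q153.TwoInd

/-!
# When is the largest `t`-independent set of `ZMod n` of size one, or of size at least two?
-/

set_option autoImplicit false

namespace Pool.Agent.Q153.TwoInd

/-- `A` is `t`-independent. -/
def Independent {n : ℕ} (t : ℕ) (A : Finset (ZMod n)) : Prop :=
  ∀ c : ZMod n → ℤ, 1 ≤ ∑ a ∈ A, |c a| → ∑ a ∈ A, |c a| ≤ t → ∑ a ∈ A, c a • a ≠ 0

/-- the largest size of a `t`-independent set -/
noncomputable def tau (n t : ℕ) : ℕ :=
  sSup {k | ∃ A : Finset (ZMod n), Independent t A ∧ A.card = k}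

lemma Independent.mono {n t : ℕ} {A B : Finset (ZMod n)} (hBA : B ⊆ A) (hA : Independent t A) :
    Independent t B := by
  classical
  intro c h1 h2
  have e1 : ∑ a ∈ A, |if a ∈ B then c a else 0| = ∑ a ∈ B, |c a| := by
    rw [← Finset.sum_subset hBA]
    · exact Finset.sum_congr rfl fun a ha => by rw [if_pos ha]
    · intro a _ ha; rw [if_neg ha, abs_zero]
  have e2 : ∑ a ∈ A, (if a ∈ B then c a else 0) • a = ∑ a ∈ B, c a • a := by
    rw [← Finset.sum_subset hBA]
    · exact Finset.sum_congr rfl fun a ha => by rw [if_pos ha]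
    · intro a _ ha; rw [if_neg ha, zero_smul]
  rw [← e2]
  exact hA (fun a => if a ∈ B then c a else 0) (by rw [e1]; exact h1) (by rw [e1]; exact h2)

lemma bdd (n t : ℕ) [NeZero n] :
    BddAbove {k | ∃ A : Finset (ZMod n), Independent t A ∧ A.card = k} := by
  refine ⟨Fintype.card (ZMod n), ?_⟩
  rintro _ ⟨A, -, rfl⟩
  exact Finset.card_le_univ A

lemma le_tau_iff (n t k : ℕ) [NeZero n] :
    k ≤ tau n t ↔ ∃ A : Finset (ZMod n), Independent t A ∧ A.card = k := by
  constructor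
  · intro h
    have hmem : tau n t ∈ {k | ∃ A : Finset (ZMod n), Independent t A ∧ A.card = k} := by
      apply Nat.sSup_mem _ (bdd n t)
      refine ⟨0, ∅, ?_, rfl⟩
      intro c h1
      simp at h1
    obtain ⟨A, hA, hc⟩ := hmem
    obtain ⟨B, hBA, hB⟩ := Finset.exists_subset_card_eq (hc ▸ h : k ≤ A.card)
    exact ⟨B, hA.mono hBA, hB⟩
  · intro h
    exact le_csSup (bdd n t) h

lemma pair_iff {n t : ℕ} {a b : ZMod n} (hab : a ≠ b) :
    Independent t {a, b} ↔ PairInd t a b := by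
  classical
  constructor
  · intro h x y h1 h2
    have := h (fun c => if c = a then x else y)
    rw [Finset.sum_pair hab, Finset.sum_pair hab] at this
    simp only [if_true, if_neg hab.symm] at this
    exact this (by omega) h2
  · intro h c h1 h2
    rw [Finset.sum_pair hab] at h1 h2 ⊢
    exact h _ _ (by omega) h2

lemma PairInd.ne {n t : ℕ} (ht : 2 ≤ t) {a b : ZMod n} (h : PairInd t a b) : a ≠ b := by
  rintro rfl
  refine h 1 (-1) (by simp) ?_ ?_
  · have : (2 : ℤ) ≤ t := by exact_mod_cast ht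
    simpa using this
  · simp

lemma two_le_tau_iff {n t : ℕ} [NeZero n] (ht : 2 ≤ t) :
    2 ≤ tau n t ↔ ∃ a b : ZMod n, PairInd t a b := by
  classical
  rw [le_tau_iff]
  constructor
  · rintro ⟨A, hA, hc⟩
    obtain ⟨a, b, hab, rfl⟩ := Finset.card_eq_two.1 hc
    exact ⟨a, b, (pair_iff hab).1 hA⟩
  · rintro ⟨a, b, h⟩
    exact ⟨{a, b}, (pair_iff (h.ne ht)).2 h, Finset.card_pair (h.ne ht)⟩

lemma one_le_tau_iff {n t : ℕ} [NeZero n] :
    1 ≤ tau n t ↔ t + 1 ≤ n := by
  classical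
  rw [le_tau_iff]
  constructor
  · rintro ⟨A, hA, hc⟩
    obtain ⟨a, rfl⟩ := Finset.card_eq_one.1 hc
    by_contra hn
    push Not at hn
    refine hA (fun _ => n) ?_ ?_ ?_
    · rw [Finset.sum_singleton, Nat.abs_cast]
      have := Nat.pos_of_ne_zero (NeZero.ne n)
      exact_mod_cast this
    · rw [Finset.sum_singleton, Nat.abs_cast]
      exact_mod_cast (by omega : n ≤ t)
    · rw [Finset.sum_singleton]
      simp
  · intro h
    refine ⟨{1}, ?_, Finset.card_singleton _⟩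
    intro c h1 h2 h3
    rw [Finset.sum_singleton] at h1 h2 h3
    rw [zsmul_eq_mul, mul_one, ZMod.intCast_zmod_eq_zero_iff_dvd] at h3
    have := dvd_small h3 (by
      have : ((t + 1 : ℕ) : ℤ) ≤ n := by exact_mod_cast h
      push_cast at this
      omega)
    rw [this] at h1
    simp at h1

/-- The value is at least two exactly in the following cases (`t = 2 r - 1`). -/
theorem two_le_tau {n r : ℕ} [NeZero n] (hr : 2 ≤ r) :
    2 ≤ tau n (2 * r - 1) ↔
      2 * r ^ 2 ≤ n ∧ (2 * r ^ 2 + r ≤ n ∨ (n % 2 = 0 ∧ (r % 2 = 0 ∨ n % 4 = 2))) := by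
  rw [two_le_tau_iff (by omega), criterion hr]

theorem tau_eq_one {n r : ℕ} [NeZero n] (hr : 2 ≤ r) :
    tau n (2 * r - 1) = 1 ↔ 2 * r ≤ n ∧
      ¬ (2 * r ^ 2 ≤ n ∧ (2 * r ^ 2 + r ≤ n ∨ (n % 2 = 0 ∧ (r % 2 = 0 ∨ n % 4 = 2)))) := by
  rw [← two_le_tau hr]
  have h1 : 1 ≤ tau n (2 * r - 1) ↔ 2 * r ≤ n := by
    rw [one_le_tau_iff, show 2 * r - 1 + 1 = 2 * r by omega]
  rw [← h1]
  omega

end Pool.Agent.Q153.TwoInd
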