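import Pool.Agent.Q256.UG.Stm

/-!
# Project UG (helper256), job DYG: the middle range
-/

set_option autoImplicit false

namespace Pool.Agent.Q153.UG

open Finset MvPolynomial
open Pool.Agent.Q256.UP (PBox finite_pbox card_pbox)
open Pool.Agent.Q256.UI (ev tc Q kap rho)
open Pool.Agent.Q256.UG

/-- subsets of the box as finite sets -/
theorem card_sub {d H : ℕ} {S : Set (MvPolynomial (Fin 2) ℤ)} (hS : S ⊆ PBox d H) [DecidablePred (· ∈ S)] :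
    Nat.card S = ((finite_pbox d H).toFinset.filter (· ∈ S)).card := by
  rw [Nat.card_coe_set_eq, ← Set.ncard_coe_finset]
  congr 1
  ext F
  rw [coe_filter, Set.mem_ofPred_eq, Set.Finite.mem_toFinset]
  exact ⟨fun h => ⟨hS h, h⟩, fun h => h.2⟩

theorem NC_ge {d : ℕ} (hd : 7 ≤ d) : 36 ≤ NC d := by
  unfold NC
  calc 36 = Nat.choose 9 2 := by decide
    _ ≤ (d + 2).choose 2 := Nat.choose_le_choose 2 (by omega)

theorem log_bd (K e H : ℕ) (hH : 1 ≤ H) :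
    ((Nat.log 2 ((K * H) ^ e) + 1 : ℕ) : ℝ) ≤ (2 * e * (K + 2) + 1) * (H : ℝ) ^ ((1 : ℝ) / 2) := by
  have hH1 : (1 : ℝ) ≤ H := by exact_mod_cast hH
  have hs : (1 : ℝ) ≤ (H : ℝ) ^ ((1 : ℝ) / 2) := Real.one_le_rpow hH1 (by norm_num)
  have hlogH : Real.log H ≤ 2 * (H : ℝ) ^ ((1 : ℝ) / 2) := by
    have h1 : Real.log H = 2 * Real.log ((H : ℝ) ^ ((1 : ℝ) / 2)) := by
      rw [Real.log_rpow (by linarith)]
      ring
    rw [h1]
    have h2 := Real.log_le_self (x := (H : ℝ) ^ ((1 : ℝ) / 2)) (by linarith)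
    linarith
  have hlog : Real.log ((K : ℝ) * H) ≤ (K + 2) * (H : ℝ) ^ ((1 : ℝ) / 2) := by
    rcases Nat.eq_zero_or_pos K with rfl | hK
    · rw [Nat.cast_zero, zero_mul, Real.log_zero]
      positivity
    · have hK1 : (0 : ℝ) < K := by exact_mod_cast hK
      rw [Real.log_mul hK1.ne' (by linarith)]
      have h2 := Real.log_le_self hK1.le
      nlinarith
  have hn : (Nat.log 2 ((K * H) ^ e) : ℝ) ≤ 2 * e * (K + 2) * (H : ℝ) ^ ((1 : ℝ) / 2) := by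
    rcases Nat.eq_zero_or_pos ((K * H) ^ e) with h0 | h0
    · rw [h0, Nat.log_zero_right, Nat.cast_zero]
      positivity
    · have h1 : 2 ^ Nat.log 2 ((K * H) ^ e) ≤ (K * H) ^ e := Nat.pow_log_le_self 2 h0.ne'
      have h2 : ((2 : ℝ)) ^ Nat.log 2 ((K * H) ^ e) ≤ ((K : ℝ) * H) ^ e := by exact_mod_cast h1
      have h3 := Real.log_le_log (by positivity) h2
      rw [Real.log_pow, Real.log_pow] at h3
      have h4 := Real.log_two_gt_d9
      have h5 : (e : ℝ) * Real.log ((K : ℝ) * H) ≤ e * ((K + 2) * (H : ℝ) ^ ((1 : ℝ) / 2)) :=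
        mul_le_mul_of_nonneg_left hlog (Nat.cast_nonneg e)
      have h6 : (0 : ℝ) ≤ (Nat.log 2 ((K * H) ^ e) : ℝ) := Nat.cast_nonneg _
      nlinarith
  push_cast
  nlinarith

theorem dyg : S_NWT → S_CLS → S_RSC → S_RPC → S_VND → S_VDG → S_DYG := by
  intro hnwt hcls hrsc hrpc hvnd hvdg d hd K e
  classical
  obtain ⟨A1, hA1, h1⟩ := hnwt d (by omega)
  obtain ⟨A2, hA2, h2⟩ := hvnd d hd
  obtain ⟨A3, hA3, h3⟩ := hvdg d hd
  obtain ⟨C1, hC1, c1⟩ := hcls d (by omega)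
  obtain ⟨C2, hC2, c2⟩ := hrsc d hd
  obtain ⟨C3, hC3, c3⟩ := hrpc d hd
  set A : ℝ := max A1 (max A2 A3) with hAdef
  have hAA1 : A1 ≤ A := le_max_left _ _
  have hAA2 : A2 ≤ A := (le_max_left _ _).trans (le_max_right _ _)
  have hAA3 : A3 ≤ A := (le_max_right _ _).trans (le_max_right _ _)
  have hA : 1 ≤ A := hA1.trans hAA1
  obtain ⟨C4, hC4, c4⟩ := h2 A hAA2
  obtain ⟨C5, hC5, c5⟩ := h3 A hAA3
  have nw := h1 A hAA1
  have hNC := NC_ge hd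
  have hNCr : (36 : ℝ) ≤ (NC d : ℝ) := by exact_mod_cast hNC
  set C6 : ℝ := 2 * e * (K + 2) + 1 with hC6
  have hC6n : 0 ≤ C6 := by positivity
  refine ⟨C1 + C2 + C3 + C6 * C4 + C6 * C5 + (2 * A + 1) ^ NC d, ?_, ?_⟩
  · have : 0 ≤ (2 * A + 1) ^ NC d := by positivity
    have : 0 ≤ C6 * C4 := by positivity
    have : 0 ≤ C6 * C5 := by positivity
    linarith
  intro H T0 hH hT
  have hH1 : (1 : ℝ) ≤ H := by exact_mod_cast hH
  have hP1 : (1 : ℝ) ≤ (H : ℝ) ^ ((NC d : ℝ) - 4 / 3) := Real.one_le_rpow hH1 (by linarith)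
  have hsub : ZG d H T0 ((K * H) ^ e) ⊆ PBox d H := fun F hF => hF.1
  rcases lt_or_ge (H : ℝ) A with hHA | hHA
  · -- small `H`
    have b1 : (Nat.card (ZG d H T0 ((K * H) ^ e)) : ℝ) ≤ (2 * A + 1) ^ NC d := by
      have b2 : Nat.card (ZG d H T0 ((K * H) ^ e)) ≤ (2 * H + 1) ^ NC d := by
        have := Nat.card_mono (finite_pbox d H) hsub
        rw [card_pbox] at this
        exact this
      have b3 : (Nat.card (ZG d H T0 ((K * H) ^ e)) : ℝ) ≤ (2 * (H : ℝ) + 1) ^ NC d := by exact_mod_cast b2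
      refine b3.trans (pow_le_pow_left₀ (by positivity) (by linarith) _)
    have b4 : 0 ≤ C1 + C2 + C3 + C6 * C4 + C6 * C5 := by positivity
    have b5 : 0 ≤ (2 * A + 1) ^ NC d := by positivity
    nlinarith
  -- large `H`
  have hT0 : A * (H : ℝ) ^ 3 ≤ T0 := by
    have a1 : ((H : ℝ)) ^ (2 * d - 3) ≤ (T0 : ℝ) ^ 2 := by exact_mod_cast hT
    have a2 : ((H : ℝ)) ^ 11 ≤ (H : ℝ) ^ (2 * d - 3) := pow_le_pow_right₀ hH1 (by omega)
    have a3 : (A * (H : ℝ) ^ 3) ^ 2 ≤ (H : ℝ) ^ 11 := by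
      calc (A * (H : ℝ) ^ 3) ^ 2 ≤ ((H : ℝ) * (H : ℝ) ^ 3) ^ 2 := by
            apply pow_le_pow_left₀ (by positivity)
            exact mul_le_mul_of_nonneg_right hHA (by positivity)
        _ = (H : ℝ) ^ 8 := by ring
        _ ≤ (H : ℝ) ^ 11 := pow_le_pow_right₀ hH1 (by norm_num)
    exact le_of_sq_le_sq (a3.trans (a2.trans a1)) (Nat.cast_nonneg _)
  have hT01 : 1 ≤ T0 := by
    have : (1 : ℝ) ≤ T0 := by
      refine le_trans ?_ hT0
      have := one_le_pow₀ hH1 (n := 3)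
      nlinarith
    exact_mod_cast this
  set N : ℕ := Nat.log 2 ((K * H) ^ e) + 1 with hN
  have hNb : (N : ℝ) ≤ C6 * (H : ℝ) ^ ((1 : ℝ) / 2) := log_bd K e H hH
  -- the covering
  set P := (finite_pbox d H).toFinset with hP
  have hcov : P.filter (· ∈ ZG d H T0 ((K * H) ^ e)) ⊆
      (P.filter (· ∈ {F | F ∈ PBox d H ∧ Flat d H F}) ∪ P.filter (· ∈ {F | F ∈ PBox d H ∧ F ∈ RS d H}) ∪
        P.filter (· ∈ {F | F ∈ PBox d H ∧ F ∈ RD d H})) ∪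
      (range N).biUnion (fun n => P.filter (· ∈ VN d A H (2 ^ n * T0)) ∪ P.filter (· ∈ VD d A H (2 ^ n * T0))) := by
    intro F hF
    rw [mem_filter] at hF
    obtain ⟨hFP, hFB, x, y, hx, hxM, hy, h0⟩ := hF
    have hxr : A * (H : ℝ) ^ 3 ≤ x := by
      refine hT0.trans ?_
      exact_mod_cast hx
    rcases nw H F hH hFB x y hxr hy h0 with hfl | ⟨θ, hth, hyth⟩
    · refine mem_union_left _ (mem_union_left _ (mem_union_left _ ?_))
      rw [mem_filter]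
      exact ⟨hFP, hFB, hfl⟩
    by_cases hRS : F ∈ RS d H
    · refine mem_union_left _ (mem_union_left _ (mem_union_right _ ?_))
      rw [mem_filter]
      exact ⟨hFP, hFB, hRS⟩
    by_cases hRD : F ∈ RD d H
    · refine mem_union_left _ (mem_union_right _ ?_)
      rw [mem_filter]
      exact ⟨hFP, hFB, hRD⟩
    refine mem_union_right _ ?_
    -- the dyadic interval
    obtain ⟨X, rfl⟩ : ∃ X : ℕ, x = X := ⟨x.toNat, by omega⟩
    have hX : T0 ≤ X := by exact_mod_cast hx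
    have hXM : X ≤ (K * H) ^ e := by exact_mod_cast hxM
    have hq : X / T0 ≠ 0 := by
      have := Nat.div_pos hX hT01
      omega
    rw [mem_biUnion]
    refine ⟨Nat.log 2 (X / T0), ?_, ?_⟩
    · rw [mem_range, hN, Nat.lt_succ_iff]
      exact Nat.log_mono_right ((Nat.div_le_self _ _).trans hXM)
    have e1 : 2 ^ Nat.log 2 (X / T0) * T0 ≤ X := by
      have := Nat.pow_log_le_self 2 hq
      calc 2 ^ Nat.log 2 (X / T0) * T0 ≤ X / T0 * T0 := Nat.mul_le_mul_right _ this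
        _ ≤ X := Nat.div_mul_le_self _ _
    have e2 : X ≤ 2 * (2 ^ Nat.log 2 (X / T0) * T0) := by
      have h5 := Nat.lt_pow_succ_log_self (b := 2) (by norm_num) (X / T0)
      have h6 : X / T0 + 1 ≤ 2 * 2 ^ Nat.log 2 (X / T0) := by
        rw [pow_succ] at h5
        omega
      have h7 : X < (X / T0 + 1) * T0 := by
        rw [Nat.mul_comm]
        exact Nat.lt_mul_div_succ X hT01
      calc X ≤ (X / T0 + 1) * T0 := h7.le
        _ ≤ 2 * 2 ^ Nat.log 2 (X / T0) * T0 := Nat.mul_le_mul_right _ h6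
        _ = 2 * (2 ^ Nat.log 2 (X / T0) * T0) := by ring
    rw [mem_union, mem_filter, mem_filter]
    by_cases hr : |rho d (tc F θ)| ≤ 1 / 4
    · refine Or.inr ⟨hFP, hFB, hRS, hRD, X, y, θ, ?_, ?_, hy, h0, hth, hyth, hr⟩
      · exact_mod_cast e1
      · exact_mod_cast e2
    · refine Or.inl ⟨hFP, hFB, hRS, hRD, X, y, θ, ?_, ?_, hy, h0, hth, hyth, not_le.1 hr⟩
      · exact_mod_cast e1
      · exact_mod_cast e2
  -- the counting
  have hTn : ∀ n : ℕ, H ^ (2 * d - 3) ≤ (2 ^ n * T0) ^ 2 := by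
    intro n
    refine hT.trans (Nat.pow_le_pow_left ?_ 2)
    exact Nat.le_mul_of_pos_left _ (by positivity)
  have k1 := c1 H hH
  have k2 := c2 H hH
  have k3 := c3 H hH
  rw [card_sub (d := d) (H := H) (fun F hF => hF.1)] at k1 k2 k3
  have kn : ∀ n ∈ range N, ((P.filter (· ∈ VN d A H (2 ^ n * T0)) ∪
      P.filter (· ∈ VD d A H (2 ^ n * T0))).card : ℝ) ≤
      C4 * (H : ℝ) ^ (NC d - 3) + C5 * (H : ℝ) ^ ((NC d : ℝ) - 11 / 6) := by
    intro n _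
    have k4 := c4 H (2 ^ n * T0) hH (hTn n)
    have k5 := c5 H (2 ^ n * T0) hH (hTn n)
    rw [card_sub (d := d) (H := H) (fun F hF => hF.1)] at k4 k5
    have k6 := card_union_le (P.filter (· ∈ VN d A H (2 ^ n * T0))) (P.filter (· ∈ VD d A H (2 ^ n * T0)))
    have k7 : ((P.filter (· ∈ VN d A H (2 ^ n * T0)) ∪ P.filter (· ∈ VD d A H (2 ^ n * T0))).card : ℝ) ≤
        ((P.filter (· ∈ VN d A H (2 ^ n * T0))).card : ℝ) + ((P.filter (· ∈ VD d A H (2 ^ n * T0))).card : ℝ) := by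
      exact_mod_cast k6
    linarith
  have hall : (Nat.card (ZG d H T0 ((K * H) ^ e)) : ℝ) ≤ C1 * (H : ℝ) ^ ((NC d : ℝ) - 4 / 3) +
      C2 * (H : ℝ) ^ ((NC d : ℝ) - 11 / 7) + C3 * (H : ℝ) ^ ((NC d : ℝ) - 12 / 7) +
      N * (C4 * (H : ℝ) ^ (NC d - 3) + C5 * (H : ℝ) ^ ((NC d : ℝ) - 11 / 6)) := by
    rw [card_sub hsub]
    have m1 := card_le_card hcov
    have m2 := card_union_le ((P.filter (· ∈ {F | F ∈ PBox d H ∧ Flat d H F}) ∪
      P.filter (· ∈ {F | F ∈ PBox d H ∧ F ∈ RS d H})) ∪ P.filter (· ∈ {F | F ∈ PBox d H ∧ F ∈ RD d H}))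
      ((range N).biUnion (fun n => P.filter (· ∈ VN d A H (2 ^ n * T0)) ∪ P.filter (· ∈ VD d A H (2 ^ n * T0))))
    have m3 := card_union_le (P.filter (· ∈ {F | F ∈ PBox d H ∧ Flat d H F}) ∪
      P.filter (· ∈ {F | F ∈ PBox d H ∧ F ∈ RS d H})) (P.filter (· ∈ {F | F ∈ PBox d H ∧ F ∈ RD d H}))
    have m4 := card_union_le (P.filter (· ∈ {F | F ∈ PBox d H ∧ Flat d H F}))
      (P.filter (· ∈ {F | F ∈ PBox d H ∧ F ∈ RS d H}))
    have m5 : (((range N).biUnion (fun n => P.filter (· ∈ VN d A H (2 ^ n * T0)) ∪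
        P.filter (· ∈ VD d A H (2 ^ n * T0)))).card : ℝ) ≤
        N * (C4 * (H : ℝ) ^ (NC d - 3) + C5 * (H : ℝ) ^ ((NC d : ℝ) - 11 / 6)) := by
      have m6 : (((range N).biUnion (fun n => P.filter (· ∈ VN d A H (2 ^ n * T0)) ∪
        P.filter (· ∈ VD d A H (2 ^ n * T0)))).card : ℝ) ≤
          ∑ n ∈ range N, ((P.filter (· ∈ VN d A H (2 ^ n * T0)) ∪ P.filter (· ∈ VD d A H (2 ^ n * T0))).card : ℝ) := by
        exact_mod_cast card_biUnion_le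
      refine m6.trans ((sum_le_sum kn).trans (le_of_eq ?_))
      rw [sum_const, card_range, nsmul_eq_mul]
    have m7 : (((P.filter (· ∈ ZG d H T0 ((K * H) ^ e))).card : ℕ) : ℝ) ≤
        ((P.filter (· ∈ {F | F ∈ PBox d H ∧ Flat d H F})).card : ℝ) +
        ((P.filter (· ∈ {F | F ∈ PBox d H ∧ F ∈ RS d H})).card : ℝ) +
        ((P.filter (· ∈ {F | F ∈ PBox d H ∧ F ∈ RD d H})).card : ℝ) +
        (((range N).biUnion (fun n => P.filter (· ∈ VN d A H (2 ^ n * T0)) ∪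
          P.filter (· ∈ VD d A H (2 ^ n * T0)))).card : ℝ) := by
      exact_mod_cast (m1.trans (m2.trans (Nat.add_le_add_right (m3.trans (Nat.add_le_add_right m4 _)) _)))
    linarith
  refine hall.trans ?_
  -- the exponents
  have p1 : (H : ℝ) ^ ((NC d : ℝ) - 11 / 7) ≤ (H : ℝ) ^ ((NC d : ℝ) - 4 / 3) :=
    Real.rpow_le_rpow_of_exponent_le hH1 (by linarith)
  have p2 : (H : ℝ) ^ ((NC d : ℝ) - 12 / 7) ≤ (H : ℝ) ^ ((NC d : ℝ) - 4 / 3) :=
    Real.rpow_le_rpow_of_exponent_le hH1 (by linarith)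
  have p3 : (H : ℝ) ^ ((1 : ℝ) / 2) * (H : ℝ) ^ (NC d - 3) ≤ (H : ℝ) ^ ((NC d : ℝ) - 4 / 3) := by
    rw [← Real.rpow_natCast, ← Real.rpow_add (by linarith)]
    refine Real.rpow_le_rpow_of_exponent_le hH1 ?_
    rw [Nat.cast_sub (by omega)]
    push_cast
    linarith
  have p4 : (H : ℝ) ^ ((1 : ℝ) / 2) * (H : ℝ) ^ ((NC d : ℝ) - 11 / 6) ≤ (H : ℝ) ^ ((NC d : ℝ) - 4 / 3) := by
    rw [← Real.rpow_add (by linarith)]
    refine Real.rpow_le_rpow_of_exponent_le hH1 ?_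
    linarith
  have q0 : 0 ≤ C4 * (H : ℝ) ^ (NC d - 3) + C5 * (H : ℝ) ^ ((NC d : ℝ) - 11 / 6) := by positivity
  have q1 : (N : ℝ) * (C4 * (H : ℝ) ^ (NC d - 3) + C5 * (H : ℝ) ^ ((NC d : ℝ) - 11 / 6)) ≤
      C6 * C4 * (H : ℝ) ^ ((NC d : ℝ) - 4 / 3) + C6 * C5 * (H : ℝ) ^ ((NC d : ℝ) - 4 / 3) := by
    calc (N : ℝ) * (C4 * (H : ℝ) ^ (NC d - 3) + C5 * (H : ℝ) ^ ((NC d : ℝ) - 11 / 6))
        ≤ (C6 * (H : ℝ) ^ ((1 : ℝ) / 2)) * (C4 * (H : ℝ) ^ (NC d - 3) + C5 * (H : ℝ) ^ ((NC d : ℝ) - 11 / 6)) :=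
          mul_le_mul_of_nonneg_right hNb q0
      _ = C6 * C4 * ((H : ℝ) ^ ((1 : ℝ) / 2) * (H : ℝ) ^ (NC d - 3)) +
          C6 * C5 * ((H : ℝ) ^ ((1 : ℝ) / 2) * (H : ℝ) ^ ((NC d : ℝ) - 11 / 6)) := by ring
      _ ≤ _ := by gcongr
  have q2 : C2 * (H : ℝ) ^ ((NC d : ℝ) - 11 / 7) ≤ C2 * (H : ℝ) ^ ((NC d : ℝ) - 4 / 3) := by gcongr
  have q3 : C3 * (H : ℝ) ^ ((NC d : ℝ) - 12 / 7) ≤ C3 * (H : ℝ) ^ ((NC d : ℝ) - 4 / 3) := by gcongr
  have q4 : 0 ≤ (2 * A + 1) ^ NC d * (H : ℝ) ^ ((NC d : ℝ) - 4 / 3) := by positivity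
  nlinarith

end Pool.Agent.Q153.UG
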