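import Pool.Agent.Q256.UG.Stm

/-!
# Project UG (helper256), job GEL: Gelfond's inequality in two variables
-/

set_option autoImplicit false

namespace Pool.Agent.Q153.UG

open Finset MvPolynomial
open Pool.Agent.Q256.UG

/-- Kronecker's substitution -/
noncomputable def kro (d : ℕ) : MvPolynomial (Fin 2) ℤ →ₐ[ℤ] Polynomial ℤ :=
  aeval ![Polynomial.X, Polynomial.X ^ (d + 1)]

theorem kro_monomial (d : ℕ) (β : Fin 2 →₀ ℕ) (c : ℤ) :
    kro d (monomial β c) = Polynomial.monomial (β 0 + (d + 1) * β 1) c := by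
  unfold kro
  rw [aeval_monomial, Finsupp.prod_fintype _ _ (fun i => pow_zero _), Fin.prod_univ_two]
  simp only [Matrix.cons_val_zero, Matrix.cons_val_one]
  rw [← pow_mul, ← pow_add, ← Polynomial.C_mul_X_pow_eq_monomial]
  rfl

theorem kro_coeff_sum (d : ℕ) (F : MvPolynomial (Fin 2) ℤ) (n : ℕ) :
    (kro d F).coeff n = ∑ β ∈ F.support, if β 0 + (d + 1) * β 1 = n then F.coeff β else 0 := by
  conv_lhs => rw [F.as_sum, map_sum]
  rw [Polynomial.finsetSum_coeff]
  refine sum_congr rfl fun β _ => ?_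
  rw [kro_monomial, Polynomial.coeff_monomial]

theorem deg_two (β : Fin 2 →₀ ℕ) : β.degree = β 0 + β 1 := by
  rw [Finsupp.degree_eq_sum, Fin.sum_univ_two]

theorem sup_le' {d : ℕ} {F : MvPolynomial (Fin 2) ℤ} (hF : F.totalDegree ≤ d) {β : Fin 2 →₀ ℕ}
    (hβ : β ∈ F.support) : β 0 + β 1 ≤ d := by
  rw [← deg_two]
  refine le_trans ?_ hF
  exact MvPolynomial.le_totalDegree hβ

theorem kro_inj {d a b a' b' : ℕ} (ha : a ≤ d) (ha' : a' ≤ d) (h : a + (d + 1) * b = a' + (d + 1) * b') :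
    a = a' ∧ b = b' := by
  have h1 : (a + (d + 1) * b) % (d + 1) = (a' + (d + 1) * b') % (d + 1) := by rw [h]
  rw [Nat.add_mul_mod_self_left, Nat.add_mul_mod_self_left, Nat.mod_eq_of_lt (by omega),
    Nat.mod_eq_of_lt (by omega)] at h1
  refine ⟨h1, ?_⟩
  have h2 : (d + 1) * b = (d + 1) * b' := by omega
  exact Nat.eq_of_mul_eq_mul_left (by omega) h2

theorem kro_coeff {d : ℕ} {F : MvPolynomial (Fin 2) ℤ} (hF : F.totalDegree ≤ d) {α : Fin 2 →₀ ℕ}
    (hα : α 0 ≤ d) : (kro d F).coeff (α 0 + (d + 1) * α 1) = F.coeff α := by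
  rw [kro_coeff_sum]
  by_cases hs : α ∈ F.support
  · rw [sum_eq_single α]
    · rw [if_pos rfl]
    · intro β hβ hne
      rw [if_neg]
      intro h
      apply hne
      have h1 := sup_le' hF hβ
      obtain ⟨h2, h3⟩ := kro_inj (by omega) hα h
      ext i
      fin_cases i
      · exact h2
      · exact h3
    · intro h
      exact absurd hs h
  · rw [MvPolynomial.notMem_support_iff.1 hs]
    refine sum_eq_zero fun β hβ => ?_
    rw [if_neg]
    intro h
    apply hs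
    have h1 := sup_le' hF hβ
    obtain ⟨h2, h3⟩ := kro_inj (by omega) hα h
    have : β = α := by
      ext i
      fin_cases i
      · exact h2
      · exact h3
    rw [← this]
    exact hβ

theorem kro_bound {d : ℕ} {F : MvPolynomial (Fin 2) ℤ} (hF : F.totalDegree ≤ d) {H : ℝ}
    (hH : ∀ γ, |((F.coeff γ : ℤ) : ℝ)| ≤ H) (n : ℕ) : |(((kro d F).coeff n : ℤ) : ℝ)| ≤ H := by
  have hH0 : 0 ≤ H := (abs_nonneg _).trans (hH 0)
  by_cases h : ∃ β ∈ F.support, β 0 + (d + 1) * β 1 = n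
  · obtain ⟨β, hβ, rfl⟩ := h
    have h1 := sup_le' hF hβ
    rw [kro_coeff hF (by omega)]
    exact hH β
  · push Not at h
    rw [kro_coeff_sum, sum_eq_zero fun β hβ => if_neg (h β hβ)]
    simpa using hH0

theorem kro_deg {d : ℕ} {F : MvPolynomial (Fin 2) ℤ} (hF : F.totalDegree ≤ d) :
    (kro d F).natDegree ≤ (d + 1) * d := by
  rw [Polynomial.natDegree_le_iff_coeff_eq_zero]
  intro n hn
  rw [kro_coeff_sum]
  refine sum_eq_zero fun β hβ => if_neg ?_
  intro h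
  have h1 := sup_le' hF hβ
  have h2 : (d + 1) * (β 0 + β 1) ≤ (d + 1) * d := Nat.mul_le_mul_left _ h1
  have h3 : β 0 + (d + 1) * β 1 ≤ (d + 1) * (β 0 + β 1) := by
    rw [Nat.mul_add]
    exact Nat.add_le_add_right (Nat.le_mul_of_pos_left _ (by omega)) _
  omega

/-- the complex polynomial -/
noncomputable def cp (p : Polynomial ℤ) : Polynomial ℂ := p.map (Int.castRingHom ℂ)

theorem cp_norm (p : Polynomial ℤ) (i : ℕ) : ‖(cp p).coeff i‖ = |((p.coeff i : ℤ) : ℝ)| := by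
  unfold cp
  rw [Polynomial.coeff_map, eq_intCast, Complex.norm_intCast]

theorem cp_deg (p : Polynomial ℤ) : (cp p).natDegree ≤ p.natDegree := Polynomial.natDegree_map_le

theorem cp_coeff_le (p : Polynomial ℤ) (D : ℕ) (hD : p.natDegree ≤ D) (i : ℕ) :
    |((p.coeff i : ℤ) : ℝ)| ≤ 2 ^ D * (cp p).mahlerMeasure := by
  rw [← cp_norm]
  refine (Polynomial.norm_coeff_le_choose_mul_mahlerMeasure i (cp p)).trans ?_
  refine mul_le_mul_of_nonneg_right ?_ (Polynomial.mahlerMeasure_nonneg _)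
  have h1 : ((cp p).natDegree.choose i) ≤ 2 ^ D :=
    (Nat.choose_le_two_pow _ _).trans
      (Nat.pow_le_pow_right (by norm_num) ((cp_deg p).trans hD))
  exact_mod_cast h1

theorem cp_mahler_le (p : Polynomial ℤ) (D : ℕ) (hD : p.natDegree ≤ D) (H : ℝ)
    (hH : ∀ i, |((p.coeff i : ℤ) : ℝ)| ≤ H) : (cp p).mahlerMeasure ≤ (D + 1) * H := by
  refine (Polynomial.mahlerMeasure_le_sum_norm_coeff _).trans ?_
  rw [Polynomial.sum_over_range' _ (fun _ => norm_zero) (D + 1) (Nat.lt_succ_of_le ((cp_deg p).trans hD))]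
  refine (sum_le_sum fun i _ => (cp_norm p i).le.trans (hH i)).trans ?_
  rw [sum_const, card_range, nsmul_eq_mul]
  push_cast
  exact le_rfl

theorem gel : S_GEL := by
  intro d
  refine ⟨2 ^ ((d + 1) * d) * 2 ^ ((d + 1) * d) * (((d + 1) * d : ℕ) + 1), ?_, ?_⟩
  · have h1 : (1 : ℝ) ≤ 2 ^ ((d + 1) * d) := one_le_pow₀ (by norm_num)
    have h2 : (1 : ℝ) ≤ (((d + 1) * d : ℕ) : ℝ) + 1 := by
      have : (0 : ℝ) ≤ (((d + 1) * d : ℕ) : ℝ) := Nat.cast_nonneg _
      linarith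
    have h3 : (1 : ℝ) ≤ 2 ^ ((d + 1) * d) * 2 ^ ((d + 1) * d) := one_le_mul_of_one_le_of_one_le h1 h1
    exact one_le_mul_of_one_le_of_one_le h3 h2
  intro A B hA hB hAB H hH α β
  have hH0 : 0 ≤ H := (abs_nonneg _).trans (hH 0)
  have hdeg := MvPolynomial.totalDegree_mul_of_isDomain hA hB
  have hAd : A.totalDegree ≤ d := by omega
  have hBd : B.totalDegree ≤ d := by omega
  have hC0 : (0 : ℝ) ≤ 2 ^ ((d + 1) * d) * 2 ^ ((d + 1) * d) * (((d + 1) * d : ℕ) + 1) * H := by positivity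
  by_cases hα : α ∈ A.support
  swap
  · rw [MvPolynomial.notMem_support_iff.1 hα]
    simpa using hC0
  by_cases hβ : β ∈ B.support
  swap
  · rw [MvPolynomial.notMem_support_iff.1 hβ]
    simpa using hC0
  have hα0 : α 0 ≤ d := by
    have := sup_le' hAd hα
    omega
  have hβ0 : β 0 ≤ d := by
    have := sup_le' hBd hβ
    omega
  have h1 := cp_coeff_le (kro d A) _ (kro_deg hAd) (α 0 + (d + 1) * α 1)
  have h2 := cp_coeff_le (kro d B) _ (kro_deg hBd) (β 0 + (d + 1) * β 1)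
  have h3 := cp_mahler_le (kro d (A * B)) _ (kro_deg hAB) H (kro_bound hAB hH)
  have h4 : cp (kro d (A * B)) = cp (kro d A) * cp (kro d B) := by
    unfold cp
    rw [map_mul, Polynomial.map_mul]
  rw [h4, Polynomial.mahlerMeasure_mul] at h3
  rw [kro_coeff hAd hα0] at h1
  rw [kro_coeff hBd hβ0] at h2
  have hA0 : 0 ≤ (cp (kro d A)).mahlerMeasure := Polynomial.mahlerMeasure_nonneg _
  have hB0 : 0 ≤ (cp (kro d B)).mahlerMeasure := Polynomial.mahlerMeasure_nonneg _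
  calc |((A.coeff α : ℤ) : ℝ)| * |((B.coeff β : ℤ) : ℝ)|
      ≤ (2 ^ ((d + 1) * d) * (cp (kro d A)).mahlerMeasure) * (2 ^ ((d + 1) * d) * (cp (kro d B)).mahlerMeasure) :=
        mul_le_mul h1 h2 (abs_nonneg _) (by positivity)
    _ = 2 ^ ((d + 1) * d) * 2 ^ ((d + 1) * d) * ((cp (kro d A)).mahlerMeasure * (cp (kro d B)).mahlerMeasure) := by ring
    _ ≤ 2 ^ ((d + 1) * d) * 2 ^ ((d + 1) * d) * ((((d + 1) * d : ℕ) + 1) * H) :=
        mul_le_mul_of_nonneg_left h3 (by positivity)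
    _ = _ := by ring

end Pool.Agent.Q153.UG
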